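import Pool.Agent.Lib.MP_222b14_al.Hol

/-!
# Corners, triangles and the base vertex of an incidence
-/

namespace Tame222b14

section Comb

variable {G : Type} [Group G] (P : FinPres G) {S : Subgroup G}

theorem FinPres.wv_eq (w : List (P.X × Bool)) : P.wv w = wval P.val w := rfl

theorem FinPres.lift_rel {r : List (P.X × Bool)} (hr : r ∈ P.R) :
    FreeGroup.lift P.val (FreeGroup.mk r) = 1 := by
  have h1 : FreeGroup.mk r ∈ (FreeGroup.lift P.val).ker := by
    rw [P.ker]
    exact Subgroup.subset_normalClosure ⟨r, hr, rfl⟩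
  exact h1

theorem FinPres.wv_rel {r : List (P.X × Bool)} (hr : r ∈ P.R) : P.wv r = 1 := P.lift_rel hr

theorem take_succ_get {α : Type} (w : List α) (i : Fin w.length) :
    w.take (i.1 + 1) = w.take i.1 ++ [w.get i] := by
  rw [List.take_succ_eq_append_getElem i.2]
  rfl

theorem cornerVert_zero (v : RCoset S) (w : List (P.X × Bool)) : cornerVert P v w 0 = v := by
  simp [cornerVert, FinPres.wv_eq]

theorem cornerVert_succ_pos (v : RCoset S) (w : List (P.X × Bool)) (i : Fin w.length)
    (h : (w.get i).2 = true) :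
    cornerVert P v w (i.1 + 1) = (cornerVert P v w i.1).mul (P.val (w.get i).1) := by
  have h1 : w.get i = ((w.get i).1, true) := by rw [← h]
  unfold cornerVert
  rw [take_succ_get, FinPres.wv_eq, wval_append, h1, ← FinPres.wv_eq, RCoset.mul_mul]
  simp

theorem cornerVert_succ_neg (v : RCoset S) (w : List (P.X × Bool)) (i : Fin w.length)
    (h : (w.get i).2 = false) :
    cornerVert P v w (i.1 + 1) = (cornerVert P v w i.1).mul (P.val (w.get i).1)⁻¹ := by
  have h1 : w.get i = ((w.get i).1, false) := by rw [← h]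
  unfold cornerVert
  rw [take_succ_get, FinPres.wv_eq, wval_append, h1, ← FinPres.wv_eq, RCoset.mul_mul]
  simp

theorem startVert_pos (u : RCoset S) {a : P.X × Bool} (h : a.2 = true) : startVert P u a = u := by
  simp [startVert, h]

theorem startVert_neg (u : RCoset S) {a : P.X × Bool} (h : a.2 = false) :
    startVert P u a = u.mul (P.val a.1)⁻¹ := by
  simp [startVert, h]

variable {P}

theorem tri_facts {a b c : Inc P S} (h : Tri P S a b c) :
    big P S a = big P S c ∧ small P S a = big P S b ∧ small P S b = small P S c := by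
  cases h with
  | pos_src v r i h =>
    refine ⟨rfl, rfl, ?_⟩
    show Cell.vert (startVert P (cornerVert P v r.1 i) (r.1.get i)) = Cell.vert _
    rw [startVert_pos P _ h]
    rfl
  | pos_tgt v r i h =>
    refine ⟨rfl, rfl, ?_⟩
    show Cell.vert ((startVert P (cornerVert P v r.1 i) (r.1.get i)).mul _)
      = Cell.vert (cornerVert P v r.1 (i.1 + 1))
    rw [startVert_pos P _ h, cornerVert_succ_pos P v r.1 i h]
  | neg_src v r i h =>
    refine ⟨rfl, rfl, ?_⟩
    show Cell.vert (startVert P (cornerVert P v r.1 i) (r.1.get i))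
      = Cell.vert (cornerVert P v r.1 (i.1 + 1))
    rw [startVert_neg P _ h, cornerVert_succ_neg P v r.1 i h]
  | neg_tgt v r i h =>
    refine ⟨rfl, rfl, ?_⟩
    show Cell.vert ((startVert P (cornerVert P v r.1 i) (r.1.get i)).mul _)
      = Cell.vert (cornerVert P v r.1 i.1)
    rw [startVert_neg P _ h]
    simp

/-- The bounding walks of the complement are closed walks. -/
theorem compl_rel_walk (C : Set (Cell P S)) :
    ∀ c ∈ (compl P S C).rel, ∃ n, (compl P S C).IsWalk n c n := by
  rintro w (⟨a, b, c, h, rfl⟩ | ⟨v, r, a, b, ha, hb, rfl⟩)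
  · obtain ⟨h1, h2, h3⟩ := tri_facts h
    exact ⟨big P S a.1, rfl, h2, h3, h1.symm⟩
  · refine ⟨big P S a.1, rfl, ?_, ?_⟩
    · show small P S a.1 = small P S b.1
      rw [ha, hb]
      show Cell.vert (cornerVert P v r.1 0) = Cell.vert (cornerVert P v r.1 r.1.length)
      rw [cornerVert_zero]
      unfold cornerVert
      rw [List.take_length, P.wv_rel r.2]
      simp
    · show big P S b.1 = big P S a.1
      rw [ha, hb]
      rfl

/-- The base vertex of an incidence. -/
def base : Inc P S → RCoset S
  | .src v _ => v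
  | .tgt v _ => v
  | .corner v _ _ => v
  | .side v _ _ => v

theorem finite_base {B : Set (RCoset S)} (hB : B.Finite) : {i : Inc P S | base i ∈ B}.Finite := by
  have := P.finX
  have : Finite P.R := P.finR
  have h1 : {i : Inc P S | base i ∈ B} ⊆ ⋃ v ∈ B, (Set.range (Inc.src (P := P) v) ∪
      Set.range (Inc.tgt (P := P) v) ∪ (⋃ r : P.R, Set.range (Inc.corner (P := P) v r)) ∪
      (⋃ r : P.R, Set.range (Inc.side (P := P) v r))) := by
    intro i hi
    refine Set.mem_biUnion (x := base i) hi ?_
    cases i with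
    | src v x => exact Or.inl (Or.inl (Or.inl ⟨x, rfl⟩))
    | tgt v x => exact Or.inl (Or.inl (Or.inr ⟨x, rfl⟩))
    | corner v r i => exact Or.inl (Or.inr (Set.mem_iUnion.2 ⟨r, i, rfl⟩))
    | side v r i => exact Or.inr (Set.mem_iUnion.2 ⟨r, i, rfl⟩)
  refine Set.Finite.subset (hB.biUnion fun v _ => ?_) h1
  refine (((Set.finite_range _).union (Set.finite_range _)).union
    (Set.finite_iUnion fun r => Set.finite_range _)).union
    (Set.finite_iUnion fun r => Set.finite_range _)

end Comb

end Tame222b14
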