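import Mathlib

/-!
# Tame subgroups of finitely presented groups: the definitions

* `FinPres G` : a finite presentation of the group `G`.
* `RCoset S` : the set of right cosets `S g`, with the right action `RCoset.mul`.
* `Cx` : a graph with a set of closed walks that bound discs; `Cx.Pi1 p` is its edge path group
  (the group of homotopy classes of closed walks at `p`).
* `Cell P S` : the cells of `Cayley_2(G,S)`, the covering of the presentation complex of `P` which
  belongs to the subgroup `S`.
* `compl C` : the complement of the subcomplex `C` (in the barycentric subdivision).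
* `FinPres.Tame P S` : the subgroup `S` is tame in `G`, computed with the presentation `P`.
-/

namespace Tame222b14

/-! ### Finite presentations and right cosets -/

/-- A finite presentation of the group `G`: finitely many generators `x : X` with values `val x`
in `G`, and a finite set `R` of relators (words in the letters `x` and `x⁻¹`, the letter `(x, true)`
being `x` and `(x, false)` being `x⁻¹`), such that the values generate `G` and the kernel of
`FreeGroup X → G` is the normal closure of `R`. -/
structure FinPres (G : Type) [Group G] where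
  /-- the generators -/
  X : Type
  /-- the relators -/
  R : Set (List (X × Bool))
  /-- the value of a generator -/
  val : X → G
  finX : Finite X
  finR : R.Finite
  surj : Function.Surjective (FreeGroup.lift val)
  ker : (FreeGroup.lift val).ker = Subgroup.normalClosure (FreeGroup.mk '' R)

/-- The set of the right cosets `S g`. -/
def RCoset {G : Type} [Group G] (S : Subgroup G) : Type := Quotient (QuotientGroup.rightRel S)

namespace RCoset

variable {G : Type} [Group G] {S : Subgroup G}

/-- The right coset `S g`. -/
def mk (S : Subgroup G) (g : G) : RCoset S := Quotient.mk (QuotientGroup.rightRel S) g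

/-- The right action: `(S g) h = S (g h)`. -/
def mul (v : RCoset S) (h : G) : RCoset S :=
  Quotient.map (fun g => g * h) (fun a b hab => by
    have h1 : b * a⁻¹ ∈ S := QuotientGroup.rightRel_apply.1 hab
    refine QuotientGroup.rightRel_apply.2 ?_
    simpa [mul_assoc] using h1) v

theorem mk_eq_mk {g h : G} : mk S g = mk S h ↔ h * g⁻¹ ∈ S := by
  unfold mk
  exact (Quotient.eq (r := QuotientGroup.rightRel S)).trans QuotientGroup.rightRel_apply

@[simp] theorem mk_mul (g h : G) : (mk S g).mul h = mk S (g * h) := rfl

theorem exists_rep (v : RCoset S) : ∃ g, mk S g = v := Quotient.exists_rep v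

@[simp] theorem mul_one (v : RCoset S) : v.mul 1 = v := by
  obtain ⟨g, rfl⟩ := exists_rep v
  simp

theorem mul_mul (v : RCoset S) (g h : G) : (v.mul g).mul h = v.mul (g * h) := by
  obtain ⟨k, rfl⟩ := exists_rep v
  simp [mul_assoc]

@[simp] theorem mul_mul_inv (v : RCoset S) (g : G) : (v.mul g).mul g⁻¹ = v := by
  simp [mul_mul]

@[simp] theorem mul_inv_mul (v : RCoset S) (g : G) : (v.mul g⁻¹).mul g = v := by
  simp [mul_mul]

theorem mul_injective (g : G) : Function.Injective (fun v : RCoset S => v.mul g) := by
  intro v w hvw
  have h := congrArg (fun u : RCoset S => u.mul g⁻¹) hvw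
  simpa using h

end RCoset

/-! ### Edge path groups -/

/-- A combinatorial 2-complex: a graph with nodes `N` and oriented arcs `A` (from `s a` to `t a`),
and a set `rel` of closed walks which bound discs. An arc can be walked forwards, `(a, true)`, or
backwards, `(a, false)`. -/
structure Cx where
  /-- nodes -/
  N : Type
  /-- arcs -/
  A : Type
  /-- source of an arc -/
  s : A → N
  /-- target of an arc -/
  t : A → N
  /-- closed walks that bound discs -/
  rel : Set (List (A × Bool))

namespace Cx

variable (K : Cx)

/-- `K.IsWalk p w q` : the list `w` of (forward or backward) arcs is a walk from `p` to `q`. -/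
def IsWalk : K.N → List (K.A × Bool) → K.N → Prop
  | p, [], q => p = q
  | p, (a, true) :: w, q => p = K.s a ∧ IsWalk (K.t a) w q
  | p, (a, false) :: w, q => p = K.t a ∧ IsWalk (K.s a) w q

/-- The walk backwards. -/
def inv {A : Type} (w : List (A × Bool)) : List (A × Bool) :=
  (w.map (fun a => (a.1, !a.2))).reverse

/-- One elementary homotopy: delete a backtracking `a a⁻¹` or a walk (or the reverse of a walk)
that bounds a disc. -/
inductive Step : List (K.A × Bool) → List (K.A × Bool) → Prop
  | cancel (u v : List (K.A × Bool)) (a : K.A) (b : Bool) :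
      Step (u ++ (a, b) :: (a, !b) :: v) (u ++ v)
  | disc (u v c : List (K.A × Bool)) (hc : c ∈ K.rel) : Step (u ++ c ++ v) (u ++ v)
  | disc_inv (u v c : List (K.A × Bool)) (hc : c ∈ K.rel) : Step (u ++ inv c ++ v) (u ++ v)

/-- The closed walks at `p`. -/
def Loop (p : K.N) : Type := {w : List (K.A × Bool) // K.IsWalk p w p}

/-- The edge path group at `p`: the closed walks at `p`, up to the equivalence relation generated
by the elementary homotopies between closed walks at `p`. -/
def Pi1 (p : K.N) : Type := Quot (fun a b : K.Loop p => K.Step a.1 b.1)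

variable {K}

theorem isWalk_append {p q : K.N} {u v : List (K.A × Bool)} :
    K.IsWalk p (u ++ v) q ↔ ∃ m, K.IsWalk p u m ∧ K.IsWalk m v q := by
  induction u generalizing p with
  | nil =>
    constructor
    · intro h; exact ⟨p, rfl, h⟩
    · rintro ⟨m, h1, h2⟩
      have h3 : p = m := h1
      subst h3
      exact h2
  | cons e u ih =>
    rcases e with ⟨a, b⟩
    cases b
    · simp only [List.cons_append, IsWalk, ih]
      constructor
      · rintro ⟨h1, m, h2, h3⟩; exact ⟨m, ⟨h1, h2⟩, h3⟩
      · rintro ⟨m, ⟨h1, h2⟩, h3⟩; exact ⟨h1, m, h2, h3⟩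
    · simp only [List.cons_append, IsWalk, ih]
      constructor
      · rintro ⟨h1, m, h2, h3⟩; exact ⟨m, ⟨h1, h2⟩, h3⟩
      · rintro ⟨m, ⟨h1, h2⟩, h3⟩; exact ⟨h1, m, h2, h3⟩

theorem inv_append {A : Type} (u v : List (A × Bool)) : inv (u ++ v) = inv v ++ inv u := by
  simp [inv]

theorem inv_inv {A : Type} (u : List (A × Bool)) : inv (inv u) = u := by
  simp [inv, List.map_reverse, Function.comp_def]

theorem isWalk_inv {p q : K.N} {u : List (K.A × Bool)} (h : K.IsWalk p u q) :
    K.IsWalk q (inv u) p := by
  induction u generalizing p with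
  | nil => exact (show p = q from h).symm
  | cons e u ih =>
    rcases e with ⟨a, b⟩
    have h1 : inv ((a, b) :: u) = inv u ++ [(a, !b)] := by simp [inv]
    rw [h1, isWalk_append]
    cases b
    · obtain ⟨h2, h3⟩ := h
      exact ⟨_, ih h3, rfl, h2.symm⟩
    · obtain ⟨h2, h3⟩ := h
      exact ⟨_, ih h3, rfl, h2.symm⟩

/-- A walk followed by its reverse cancels, inside any closed walk. -/
theorem cancel_inv {p : K.N} (u v w : List (K.A × Bool)) (h : K.IsWalk p (u ++ w ++ inv w ++ v) p) :
    ∃ h' : K.IsWalk p (u ++ v) p,
      (Quot.mk _ (⟨u ++ w ++ inv w ++ v, h⟩ : K.Loop p) : K.Pi1 p) = Quot.mk _ ⟨u ++ v, h'⟩ := by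
  induction w using List.reverseRecOn generalizing v with
  | nil => exact ⟨by simpa [inv] using h, by simp [inv]⟩
  | append_singleton w e ih =>
    rcases e with ⟨a, b⟩
    have e1 : u ++ (w ++ [(a, b)]) ++ inv (w ++ [(a, b)]) ++ v
        = (u ++ w) ++ (a, b) :: (a, !b) :: (inv w ++ v) := by
      simp [inv]
    have h2 : K.IsWalk p (u ++ w ++ inv w ++ v) p := by
      rw [e1, isWalk_append] at h
      obtain ⟨m, h1, h2⟩ := h
      have h3 : K.IsWalk m (inv w ++ v) p := by
        cases b
        · obtain ⟨h4, h5, h6⟩ := h2
          rw [h4]; exact h6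
        · obtain ⟨h4, h5, h6⟩ := h2
          rw [h4]; exact h6
      have h7 : K.IsWalk p ((u ++ w) ++ (inv w ++ v)) p := isWalk_append.2 ⟨m, h1, h3⟩
      simpa using h7
    obtain ⟨h', hq⟩ := ih v h2
    refine ⟨h', ?_⟩
    rw [← hq]
    apply Quot.sound
    show K.Step _ _
    have := Step.cancel (K := K) (u ++ w) (inv w ++ v) a b
    rw [← e1] at this
    simpa using this

theorem cancel_inv' {p : K.N} (u v w : List (K.A × Bool))
    (h : K.IsWalk p (u ++ inv w ++ w ++ v) p) :
    ∃ h' : K.IsWalk p (u ++ v) p,
      (Quot.mk _ (⟨u ++ inv w ++ w ++ v, h⟩ : K.Loop p) : K.Pi1 p) = Quot.mk _ ⟨u ++ v, h'⟩ := by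
  have e : u ++ inv w ++ w ++ v = u ++ inv w ++ inv (inv w) ++ v := by rw [inv_inv]
  have h2 : K.IsWalk p (u ++ inv w ++ inv (inv w) ++ v) p := by rw [← e]; exact h
  obtain ⟨h', hq⟩ := cancel_inv u v (inv w) h2
  refine ⟨h', ?_⟩
  rw [← hq]
  congr 1
  exact Subtype.ext e

theorem step_append_left {u v : List (K.A × Bool)} (w : List (K.A × Bool)) (h : K.Step u v) :
    K.Step (w ++ u) (w ++ v) := by
  cases h with
  | cancel u v a b => simpa using Step.cancel (K := K) (w ++ u) v a b
  | disc u v c hc => simpa using Step.disc (K := K) (w ++ u) v c hc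
  | disc_inv u v c hc => simpa using Step.disc_inv (K := K) (w ++ u) v c hc

theorem step_append_right {u v : List (K.A × Bool)} (w : List (K.A × Bool)) (h : K.Step u v) :
    K.Step (u ++ w) (v ++ w) := by
  cases h with
  | cancel u v a b => simpa using Step.cancel (K := K) u (v ++ w) a b
  | disc u v c hc => simpa using Step.disc (K := K) u (v ++ w) c hc
  | disc_inv u v c hc => simpa using Step.disc_inv (K := K) u (v ++ w) c hc

theorem step_inv {u v : List (K.A × Bool)} (h : K.Step u v) : K.Step (inv u) (inv v) := by
  cases h with
  | cancel u v a b =>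
    have := Step.cancel (K := K) (inv v) (inv u) a b
    simpa [inv] using this
  | disc u v c hc =>
    have := Step.disc_inv (K := K) (inv v) (inv u) c hc
    simpa [inv_append] using this
  | disc_inv u v c hc =>
    have := Step.disc (K := K) (inv v) (inv u) c hc
    simpa [inv_append, inv_inv] using this

/-- The product of two closed walks. -/
def Loop.mul {p : K.N} (a b : K.Loop p) : K.Loop p :=
  ⟨a.1 ++ b.1, isWalk_append.2 ⟨p, a.2, b.2⟩⟩

/-- The reverse of a closed walk. -/
def Loop.rev {p : K.N} (a : K.Loop p) : K.Loop p := ⟨inv a.1, isWalk_inv a.2⟩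

instance (p : K.N) : Group (K.Pi1 p) where
  mul := Quot.map₂ Loop.mul (fun a _ _ h => step_append_left a.1 h)
    (fun _ _ b h => step_append_right b.1 h)
  one := Quot.mk _ ⟨[], rfl⟩
  inv := Quot.map Loop.rev (fun _ _ h => step_inv h)
  mul_assoc := by
    rintro ⟨a⟩ ⟨b⟩ ⟨c⟩
    exact congrArg (Quot.mk _) (Subtype.ext (List.append_assoc a.1 b.1 c.1))
  one_mul := by
    rintro ⟨a⟩
    exact congrArg (Quot.mk _) (Subtype.ext (List.nil_append a.1))
  mul_one := by
    rintro ⟨a⟩
    exact congrArg (Quot.mk _) (Subtype.ext (List.append_nil a.1))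
  inv_mul_cancel := by
    rintro ⟨a⟩
    have h : K.IsWalk p ([] ++ inv a.1 ++ a.1 ++ []) p := by
      simpa [Loop.mul, Loop.rev] using (Loop.mul (Loop.rev a) a).2
    obtain ⟨h', hq⟩ := cancel_inv' (K := K) [] [] a.1 h
    have e1 : (Quot.mk _ (Loop.mul (Loop.rev a) a) : K.Pi1 p) = Quot.mk _ ⟨_, h⟩ := by
      congr 1
      exact Subtype.ext (by simp [Loop.mul, Loop.rev])
    exact e1.trans hq

/-- The homotopy class of a closed walk. -/
def cls {p : K.N} (a : K.Loop p) : K.Pi1 p := Quot.mk _ a

theorem cls_mul {p : K.N} (a b : K.Loop p) : cls a * cls b = cls (Loop.mul a b) := rfl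

theorem cls_one {p : K.N} : (1 : K.Pi1 p) = cls ⟨[], rfl⟩ := rfl

theorem cls_inv {p : K.N} (a : K.Loop p) : (cls a)⁻¹ = cls (Loop.rev a) := rfl

theorem cls_step {p : K.N} {a b : K.Loop p} (h : K.Step a.1 b.1) : cls a = cls b := Quot.sound h

theorem cls_surj {p : K.N} (g : K.Pi1 p) : ∃ a, cls a = g := Quot.exists_rep g

end Cx

/-! ### The covering complex and its complements -/

section Cells

variable {G : Type} [Group G] (P : FinPres G) (S : Subgroup G)

/-- The element of `G` which a word represents. -/
def FinPres.wv (w : List (P.X × Bool)) : G := FreeGroup.lift P.val (FreeGroup.mk w)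

/-- The cells of `Cayley_2(G,S)`, the covering of the presentation complex of `P` belonging to `S`:
a vertex for every right coset `v = S g`, an edge `(v,x)` from `v` to `v x` for every generator `x`,
and a 2-cell `(v,r)` for every relator `r`, whose boundary is the closed path from `v` which reads
the word `r`. -/
inductive Cell : Type
  | vert (v : RCoset S)
  | edge (v : RCoset S) (x : P.X)
  | face (v : RCoset S) (r : P.R)

/-- The incidences between the cells. The edge `(v,x)` has its source end at the vertex `v` and its
target end at `v x`. The 2-cell `(v,r)`, `r = a₁ ⋯ aₙ`, is a polygon with the corners `0, …, n`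
(the corners `0` and `n` coincide), the corner `i` lies at the vertex `v a₁ ⋯ aᵢ`, and with the
sides `0, …, n - 1`, the side `i` joins the corners `i` and `i + 1` and lies on the edge which the
letter `aᵢ₊₁` traverses. -/
inductive Inc : Type
  | src (v : RCoset S) (x : P.X)
  | tgt (v : RCoset S) (x : P.X)
  | corner (v : RCoset S) (r : P.R) (i : Fin (r.1.length + 1))
  | side (v : RCoset S) (r : P.R) (i : Fin r.1.length)

variable {S}

/-- The vertex at the `i`-th corner of the 2-cell `(v,w)`. -/
def cornerVert (v : RCoset S) (w : List (P.X × Bool)) (i : ℕ) : RCoset S :=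
  v.mul (P.wv (w.take i))

/-- The start vertex of the edge that is traversed from `u` by the letter `a`: it is `u` if the
letter is a generator, and `u x⁻¹` if the letter is `x⁻¹`. -/
def startVert (u : RCoset S) (a : P.X × Bool) : RCoset S :=
  if a.2 then u else u.mul (P.val a.1)⁻¹

variable (S)

/-- The bigger cell of an incidence. -/
def big : Inc P S → Cell P S
  | .src v x => .edge v x
  | .tgt v x => .edge v x
  | .corner v r _ => .face v r
  | .side v r _ => .face v r

/-- The smaller cell of an incidence. -/
def small : Inc P S → Cell P S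
  | .src v _ => .vert v
  | .tgt v x => .vert (v.mul (P.val x))
  | .corner v r i => .vert (cornerVert P v r.1 i)
  | .side v r i => .edge (startVert P (cornerVert P v r.1 i) (r.1.get i)) (r.1.get i).1

/-- `Tri a b c`: the incidences `a` (a side of a 2-cell, on the edge `e`), `b` (an end of the edge
`e`) and `c` (the corresponding corner of the 2-cell) form a triangle of the barycentric
subdivision. -/
inductive Tri : Inc P S → Inc P S → Inc P S → Prop
  | pos_src (v : RCoset S) (r : P.R) (i : Fin r.1.length) (h : (r.1.get i).2 = true) :
      Tri (.side v r i) (.src (startVert P (cornerVert P v r.1 i) (r.1.get i)) (r.1.get i).1)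
        (.corner v r i.castSucc)
  | pos_tgt (v : RCoset S) (r : P.R) (i : Fin r.1.length) (h : (r.1.get i).2 = true) :
      Tri (.side v r i) (.tgt (startVert P (cornerVert P v r.1 i) (r.1.get i)) (r.1.get i).1)
        (.corner v r i.succ)
  | neg_src (v : RCoset S) (r : P.R) (i : Fin r.1.length) (h : (r.1.get i).2 = false) :
      Tri (.side v r i) (.src (startVert P (cornerVert P v r.1 i) (r.1.get i)) (r.1.get i).1)
        (.corner v r i.succ)
  | neg_tgt (v : RCoset S) (r : P.R) (i : Fin r.1.length) (h : (r.1.get i).2 = false) :
      Tri (.side v r i) (.tgt (startVert P (cornerVert P v r.1 i) (r.1.get i)) (r.1.get i).1)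
        (.corner v r i.castSucc)

/-- A subcomplex: a set of cells which contains the boundary cells of its cells. -/
def IsSubcomplex (C : Set (Cell P S)) : Prop := ∀ i : Inc P S, big P S i ∈ C → small P S i ∈ C

/-- The complement of the subcomplex `C`: the nodes are (the barycentres of) the cells, the arcs are
the incidences between cells outside `C`, and the triangles of the barycentric subdivision outside
`C` bound discs; the corners `0` and `n` of a 2-cell are the same corner. The subspace
`Cayley_2(G,S) ∖ C` deformation retracts onto this complex. -/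
abbrev compl (C : Set (Cell P S)) : Cx where
  N := Cell P S
  A := {i : Inc P S // small P S i ∉ C}
  s := fun i => big P S i.1
  t := fun i => small P S i.1
  rel := {w | (∃ a b c : {i : Inc P S // small P S i ∉ C},
        Tri P S a.1 b.1 c.1 ∧ w = [(a, true), (b, true), (c, false)]) ∨
      (∃ (v : RCoset S) (r : P.R) (a b : {i : Inc P S // small P S i ∉ C}),
        a.1 = .corner v r 0 ∧ b.1 = .corner v r (Fin.last _) ∧ w = [(a, true), (b, false)])}

/-- The subgroup `S` is tame in `G` (computed with the finite presentation `P` of `G`): for every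
finite subcomplex `C` of `Cayley_2(G,S)`, every connected component of `Cayley_2(G,S) ∖ C` has a
finitely generated fundamental group. (Every component contains the barycentre of a cell `p`
outside `C`.) -/
def FinPres.Tame : Prop :=
  ∀ C : Set (Cell P S), C.Finite → IsSubcomplex P S C → ∀ p : Cell P S, p ∉ C →
    Group.FG ((compl P S C).Pi1 p)

end Cells

end Tame222b14
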