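import Pool.Agent.Lib.MP_222b14_al.HReps
import Pool.Agent.Lib.MP_222b14_al.Defs

/-!
# Finite presentability
-/

namespace Tame222b14

/-- A retract of a finitely presented group is finitely presented. -/
theorem retract_fp {G : Type} [Group G] [Group.IsFinitelyPresented G] (L : Subgroup G)
    (ρ : G →* G) (h1 : ∀ g, ρ g ∈ L) (h2 : ∀ g ∈ L, ρ g = g) (T : Set G) (hT : T.Finite)
    (hgen : Subgroup.closure T = ⊤) : Group.IsFinitelyPresented L := by
  apply Group.IsFinitelyPresented.of_surjective (ρ.codRestrict L h1)
  · rintro ⟨g, hg⟩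
    exact ⟨g, Subtype.ext (h2 g hg)⟩
  · refine ⟨(fun g => g * (ρ g)⁻¹) '' T, hT.image _, ?_⟩
    apply le_antisymm
    · apply Subgroup.normalClosure_le_normal
      rintro _ ⟨g, _, rfl⟩
      rw [SetLike.mem_coe, MonoidHom.mem_ker]
      apply Subtype.ext
      show ρ (g * (ρ g)⁻¹) = 1
      rw [map_mul, map_inv, h2 (ρ g) (h1 g), mul_inv_cancel]
    · intro g hg
      have hg' : ρ g = 1 := congrArg Subtype.val (MonoidHom.mem_ker.1 hg)
      let N : Subgroup G := Subgroup.normalClosure ((fun g => g * (ρ g)⁻¹) '' T)
      have hle : Subgroup.closure T ≤ (QuotientGroup.mk' N).eqLocus ((QuotientGroup.mk' N).comp ρ)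
          := by
        rw [Subgroup.closure_le]
        intro t ht
        show QuotientGroup.mk' N t = QuotientGroup.mk' N (ρ t)
        have h3 : t * (ρ t)⁻¹ ∈ N := Subgroup.subset_normalClosure ⟨t, ht, rfl⟩
        rw [← mul_inv_eq_one, ← map_inv, ← map_mul, ← MonoidHom.mem_ker, QuotientGroup.ker_mk']
        exact h3
      rw [hgen] at hle
      have h4 : QuotientGroup.mk' N g = QuotientGroup.mk' N (ρ g) := hle (Subgroup.mem_top g)
      rw [hg', map_one, ← MonoidHom.mem_ker, QuotientGroup.ker_mk'] at h4
      exact h4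

theorem fp_gens (G : Type) [Group G] [hG : Group.IsFinitelyPresented G] :
    ∃ T : Set G, T.Finite ∧ Subgroup.closure T = ⊤ := by
  obtain ⟨n, φ, hφ, _⟩ := hG.out
  refine ⟨φ '' (Set.range FreeGroup.of), (Set.finite_range _).image _, ?_⟩
  rw [← MonoidHom.map_closure, FreeGroup.closure_range_of, ← MonoidHom.range_eq_map,
    MonoidHom.range_eq_top.2 hφ]

/-- The direct product of two finitely presented groups is finitely presented. -/
theorem prod_fp (G K : Type) [Group G] [Group K] [Group.IsFinitelyPresented G]
    [Group.IsFinitelyPresented K] : Group.IsFinitelyPresented (G × K) := by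
  obtain ⟨T, hT, hTg⟩ := fp_gens G
  obtain ⟨U, hU, hUg⟩ := fp_gens K
  apply Group.IsFinitelyPresented.of_surjective (Monoid.Coprod.toProd : Monoid.Coprod G K →* G × K)
  · rintro ⟨g, k⟩
    exact ⟨Monoid.Coprod.inl g * Monoid.Coprod.inr k, by simp⟩
  · let c : G × K → Monoid.Coprod G K := fun p =>
      Monoid.Coprod.inl p.1 * Monoid.Coprod.inr p.2 * (Monoid.Coprod.inl p.1)⁻¹
        * (Monoid.Coprod.inr p.2)⁻¹
    refine ⟨c '' (T ×ˢ U), (hT.prod hU).image _, ?_⟩
    apply le_antisymm
    · apply Subgroup.normalClosure_le_normal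
      rintro _ ⟨p, _, rfl⟩
      rw [SetLike.mem_coe, MonoidHom.mem_ker]
      have h0 : Monoid.Coprod.toProd (c p) = p * (p.1⁻¹, 1) * (1, p.2⁻¹) := by simp [c]
      rw [h0]
      exact Prod.ext (by simp) (by simp)
    · intro x hx
      let N : Subgroup (Monoid.Coprod G K) := Subgroup.normalClosure (c '' (T ×ˢ U))
      let π := QuotientGroup.mk' N
      have hTU : ∀ g ∈ T, ∀ k ∈ U,
          Commute (π (Monoid.Coprod.inl g)) (π (Monoid.Coprod.inr k)) := by
        intro g hg k hk
        have h3 : c (g, k) ∈ N := Subgroup.subset_normalClosure ⟨(g, k), ⟨hg, hk⟩, rfl⟩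
        have h4 : π (c (g, k)) = 1 := by
          rw [← MonoidHom.mem_ker, QuotientGroup.ker_mk']
          exact h3
        have h5 : π (Monoid.Coprod.inl g) * π (Monoid.Coprod.inr k)
            * (π (Monoid.Coprod.inl g))⁻¹ * (π (Monoid.Coprod.inr k))⁻¹ = 1 := by
          rw [← h4]
          simp [c]
        show _ * _ = _ * _
        rw [mul_inv_eq_one, mul_inv_eq_iff_eq_mul] at h5
        exact h5
      have hTK : ∀ g ∈ T, ∀ k : K,
          Commute (π (Monoid.Coprod.inl g)) (π (Monoid.Coprod.inr k)) := by
        intro g hg k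
        have hle : Subgroup.closure U
            ≤ (Subgroup.centralizer {π (Monoid.Coprod.inl g)}).comap
              (π.comp Monoid.Coprod.inr) := by
          rw [Subgroup.closure_le]
          intro k hk
          show π (Monoid.Coprod.inr k) ∈ Subgroup.centralizer {π (Monoid.Coprod.inl g)}
          rw [Subgroup.mem_centralizer_singleton_iff]
          exact (hTU g hg k hk).symm
        rw [hUg] at hle
        have h6 : π (Monoid.Coprod.inr k) ∈ Subgroup.centralizer {π (Monoid.Coprod.inl g)} :=
          hle (Subgroup.mem_top k)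
        rw [Subgroup.mem_centralizer_singleton_iff] at h6
        exact (show Commute (π (Monoid.Coprod.inr k)) (π (Monoid.Coprod.inl g)) from h6).symm
      have hGK : ∀ (g : G) (k : K),
          Commute (π (Monoid.Coprod.inl g)) (π (Monoid.Coprod.inr k)) := by
        intro g k
        have hle : Subgroup.closure T
            ≤ (Subgroup.centralizer {π (Monoid.Coprod.inr k)}).comap
              (π.comp Monoid.Coprod.inl) := by
          rw [Subgroup.closure_le]
          intro g hg
          show π (Monoid.Coprod.inl g) ∈ Subgroup.centralizer {π (Monoid.Coprod.inr k)}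
          rw [Subgroup.mem_centralizer_singleton_iff]
          exact hTK g hg k
        rw [hTg] at hle
        have h6 : π (Monoid.Coprod.inl g) ∈ Subgroup.centralizer {π (Monoid.Coprod.inr k)} :=
          hle (Subgroup.mem_top g)
        rw [Subgroup.mem_centralizer_singleton_iff] at h6
        exact h6
      let σ : G × K →* Monoid.Coprod G K ⧸ N :=
        MonoidHom.noncommCoprod (π.comp Monoid.Coprod.inl) (π.comp Monoid.Coprod.inr) hGK
      have hσ : σ.comp Monoid.Coprod.toProd = π := by
        apply Monoid.Coprod.hom_ext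
        · ext g
          simp [σ]
        · ext k
          simp [σ]
      have h7 : π x = 1 := by
        rw [← hσ, MonoidHom.comp_apply, MonoidHom.mem_ker.1 hx, map_one]
      rw [← MonoidHom.mem_ker, QuotientGroup.ker_mk'] at h7
      exact h7

/-- A finitely presented group has a finite presentation. -/
theorem exists_finPres (G : Type) [Group G] [hG : Group.IsFinitelyPresented G] :
    Nonempty (FinPres G) := by
  obtain ⟨n, φ, hφ, R, hR, hker⟩ := hG.out
  have hlift : FreeGroup.lift (fun k => φ (FreeGroup.of k)) = φ := by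
    apply FreeGroup.ext_hom
    intro k
    simp
  refine ⟨{ X := Fin n
            R := FreeGroup.toWord '' R
            val := fun k => φ (FreeGroup.of k)
            finX := inferInstance
            finR := hR.image _
            surj := by rw [hlift]; exact hφ
            ker := ?_ }⟩
  rw [hlift, ← hker]
  congr 1
  rw [Set.image_image]
  have h1 : (fun x : FreeGroup (Fin n) => FreeGroup.mk x.toWord) = id := by
    funext x
    exact FreeGroup.mk_toWord
  rw [h1, Set.image_id]

instance Hg_fp : Group.IsFinitelyPresented Hg := inferInstance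

theorem Ls_fp : Group.IsFinitelyPresented Ls :=
  retract_fp Ls rho rho_mem rho_fix (Set.range gn) (Set.finite_range _)
    (PresentedGroup.closure_range_of _)

theorem Ls_fg : Ls.FG := by
  refine ⟨(Set.toFinite {gn .l, gn .y, gn .f, gn .h, gn .w}).toFinset, ?_⟩
  rw [Set.Finite.coe_toFinset]
  rfl

theorem fg_map {G K : Type} [Group G] [Group K] (L : Subgroup G) (h : L.FG) (f : G →* K) :
    (L.map f).FG := by
  obtain ⟨T, rfl⟩ := h
  refine ⟨(T.finite_toSet.image f).toFinset, ?_⟩
  rw [Set.Finite.coe_toFinset, ← MonoidHom.map_closure]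

end Tame222b14
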