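import Mathlib

/-!
# The free group on `l, m, q_k` and four copies of `FreeGroup ℤ` in it
-/

namespace Tame222b14

/-- The letters of the base group. -/
inductive Lt : Type
  | l : Lt
  | m : Lt
  | q (k : ℤ) : Lt

/-- The base group. -/
abbrev NZ : Type := FreeGroup Lt

/-- The generators. -/
def ql : NZ := FreeGroup.of Lt.l
/-- The generators. -/
def qm : NZ := FreeGroup.of Lt.m
/-- The generators. -/
def qq (k : ℤ) : NZ := FreeGroup.of (Lt.q k)

/-- `k ↦ q_k m q_k⁻¹` -/
def iA : FreeGroup ℤ →* NZ := FreeGroup.lift (fun k => qq k * qm * (qq k)⁻¹)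
/-- `k ↦ q_k` -/
def iB : FreeGroup ℤ →* NZ := FreeGroup.lift (fun k => qq k)
/-- `k ↦ q_k l q_k⁻¹` -/
def jA : FreeGroup ℤ →* NZ := FreeGroup.lift (fun k => qq k * ql * (qq k)⁻¹)
/-- `k ↦ q_{k-1}` -/
def jB : FreeGroup ℤ →* NZ := FreeGroup.lift (fun k => qq (k - 1))

@[simp] theorem iA_of (k : ℤ) : iA (FreeGroup.of k) = qq k * qm * (qq k)⁻¹ := by simp [iA]
@[simp] theorem iB_of (k : ℤ) : iB (FreeGroup.of k) = qq k := by simp [iB]
@[simp] theorem jA_of (k : ℤ) : jA (FreeGroup.of k) = qq k * ql * (qq k)⁻¹ := by simp [jA]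
@[simp] theorem jB_of (k : ℤ) : jB (FreeGroup.of k) = qq (k - 1) := by simp [jB]

/-! ### Injectivity -/

/-- The shift action of `FreeGroup ℤ` on `FreeGroup (FreeGroup ℤ)`. -/
def shiftAct : FreeGroup ℤ →* MulAut (FreeGroup (FreeGroup ℤ)) where
  toFun g := FreeGroup.freeGroupCongr (Equiv.mulLeft g)
  map_one' := by
    ext x
    induction x using FreeGroup.induction_on <;> simp_all
  map_mul' := by
    intro g h
    ext x
    induction x using FreeGroup.induction_on <;> simp_all [mul_assoc]

/-- The homomorphism which sends `l` and `m` to the letter `1` of `FreeGroup (FreeGroup ℤ)` and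
`q_k` to `k`. -/
def toSD : NZ →* (FreeGroup (FreeGroup ℤ)) ⋊[shiftAct] FreeGroup ℤ :=
  FreeGroup.lift (fun x => match x with
    | .q k => SemidirectProduct.inr (FreeGroup.of k)
    | .l => SemidirectProduct.inl (FreeGroup.of 1)
    | .m => SemidirectProduct.inl (FreeGroup.of 1))

theorem toSD_q (k : ℤ) : toSD (qq k) = SemidirectProduct.inr (FreeGroup.of k) := by
  simp [toSD, qq]
theorem toSD_l : toSD ql = SemidirectProduct.inl (FreeGroup.of 1) := by
  simp [toSD, ql]
theorem toSD_m : toSD qm = SemidirectProduct.inl (FreeGroup.of 1) := by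
  simp [toSD, qm]

theorem shift_conj (k : ℤ) :
    (SemidirectProduct.inr (FreeGroup.of k) : (FreeGroup (FreeGroup ℤ)) ⋊[shiftAct] FreeGroup ℤ)
      * SemidirectProduct.inl (FreeGroup.of 1) * (SemidirectProduct.inr (FreeGroup.of k))⁻¹
      = SemidirectProduct.inl (FreeGroup.of (FreeGroup.of k)) := by
  have h1 := SemidirectProduct.inl_aut (φ := shiftAct) (FreeGroup.of k) (FreeGroup.of 1)
  have h2 : shiftAct (FreeGroup.of k) (FreeGroup.of 1) = FreeGroup.of (FreeGroup.of k) := by
    simp [shiftAct]
  rw [h2] at h1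
  rw [h1]
  simp

theorem toSD_iA (w : FreeGroup ℤ) :
    toSD (iA w) = SemidirectProduct.inl (FreeGroup.map FreeGroup.of w) := by
  have h : toSD.comp iA = SemidirectProduct.inl.comp (FreeGroup.map FreeGroup.of) := by
    apply FreeGroup.ext_hom
    intro k
    simp only [MonoidHom.comp_apply, iA_of, map_mul, map_inv, toSD_q, toSD_m, FreeGroup.map.of]
    exact shift_conj k
  exact DFunLike.congr_fun h w

theorem toSD_jA (w : FreeGroup ℤ) :
    toSD (jA w) = SemidirectProduct.inl (FreeGroup.map FreeGroup.of w) := by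
  have h : toSD.comp jA = SemidirectProduct.inl.comp (FreeGroup.map FreeGroup.of) := by
    apply FreeGroup.ext_hom
    intro k
    simp only [MonoidHom.comp_apply, jA_of, map_mul, map_inv, toSD_q, toSD_l, FreeGroup.map.of]
    exact shift_conj k
  exact DFunLike.congr_fun h w

theorem iA_injective : Function.Injective iA := by
  intro u v h
  have h1 := congrArg toSD h
  rw [toSD_iA, toSD_iA] at h1
  exact FreeGroup.map_injective FreeGroup.of_injective (SemidirectProduct.inl_injective h1)

theorem jA_injective : Function.Injective jA := by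
  intro u v h
  have h1 := congrArg toSD h
  rw [toSD_jA, toSD_jA] at h1
  exact FreeGroup.map_injective FreeGroup.of_injective (SemidirectProduct.inl_injective h1)

theorem iB_injective : Function.Injective iB := by
  have h : iB = FreeGroup.map Lt.q := by
    apply FreeGroup.ext_hom
    intro k
    simp [qq]
  rw [h]
  apply FreeGroup.map_injective
  intro a b hab
  injection hab

theorem jB_injective : Function.Injective jB := by
  have h : jB = FreeGroup.map (fun k => Lt.q (k - 1)) := by
    apply FreeGroup.ext_hom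
    intro k
    simp [qq]
  rw [h]
  apply FreeGroup.map_injective
  intro a b hab
  have h1 : a - 1 = b - 1 := by injection hab
  omega

/-! ### The subgroups `W_K` and `P_K` -/

/-- The subgroup of `FreeGroup ℤ` generated by the letters `k ≤ K`. -/
def WK (K : ℤ) : Subgroup (FreeGroup ℤ) := Subgroup.closure (FreeGroup.of '' {k | k ≤ K})

/-- The subgroup generated by `l`, `m`, `q_k` for `k ≤ K` and `q_{K+1} l q_{K+1}⁻¹`. -/
def PK (K : ℤ) : Subgroup NZ :=
  Subgroup.closure ({ql, qm, qq (K + 1) * ql * (qq (K + 1))⁻¹} ∪ qq '' {k | k ≤ K})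

theorem ql_mem (K : ℤ) : ql ∈ PK K := Subgroup.subset_closure (Or.inl (Or.inl rfl))
theorem qm_mem (K : ℤ) : qm ∈ PK K := Subgroup.subset_closure (Or.inl (Or.inr (Or.inl rfl)))
theorem qlc_mem (K : ℤ) : qq (K + 1) * ql * (qq (K + 1))⁻¹ ∈ PK K :=
  Subgroup.subset_closure (Or.inl (Or.inr (Or.inr rfl)))
theorem qq_mem {K k : ℤ} (h : k ≤ K) : qq k ∈ PK K :=
  Subgroup.subset_closure (Or.inr ⟨k, h, rfl⟩)

/-- Truncation of `FreeGroup ℤ` at `K`. -/
def trW (K : ℤ) : FreeGroup ℤ →* FreeGroup ℤ := FreeGroup.lift (fun k => FreeGroup.of (min k K))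

theorem trW_mem (K : ℤ) (w : FreeGroup ℤ) : trW K w ∈ WK K := by
  induction w using FreeGroup.induction_on with
  | C1 => simpa using (WK K).one_mem
  | of k =>
    simp only [trW, FreeGroup.lift_apply_of]
    exact Subgroup.subset_closure ⟨min k K, (min_le_right k K : min k K ≤ K), rfl⟩
  | inv_of k h => rw [map_inv]; exact (WK K).inv_mem h
  | mul a b ha hb => rw [map_mul]; exact (WK K).mul_mem ha hb

/-- The endomorphism of `NZ` with given values of `l` and `m` which truncates the `q_k` at `K`. -/
def trN (u v : NZ) (K : ℤ) : NZ →* NZ :=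
  FreeGroup.lift (fun x => match x with
    | .q k => qq (min k K)
    | .l => u
    | .m => v)

@[simp] theorem trN_q (u v : NZ) (K k : ℤ) : trN u v K (qq k) = qq (min k K) := by
  simp [trN, qq]
@[simp] theorem trN_l (u v : NZ) (K : ℤ) : trN u v K ql = u := by
  simp [trN, ql]
@[simp] theorem trN_m (u v : NZ) (K : ℤ) : trN u v K qm = v := by
  simp [trN, qm]

/-- The endomorphism of `NZ` with given values of `l` and `m`. -/
def kN (u v : NZ) : NZ →* NZ :=
  FreeGroup.lift (fun x => match x with
    | .q k => qq k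
    | .l => u
    | .m => v)

@[simp] theorem kN_q (u v : NZ) (k : ℤ) : kN u v (qq k) = qq k := by
  simp [kN, qq]
@[simp] theorem kN_l (u v : NZ) : kN u v ql = u := by
  simp [kN, ql]
@[simp] theorem kN_m (u v : NZ) : kN u v qm = v := by
  simp [kN, qm]

/-- The general argument: if `κ` fixes `i w` and maps `P_K` into a subgroup on which `θ` is the
identity, and `θ (i w) = i (trW K' w)`, then `i w ∈ P_K` implies `w ∈ W_{K'}`. -/
theorem mem_W_of (i : FreeGroup ℤ →* NZ) (hi : Function.Injective i) (κ θ : NZ →* NZ) (K K' : ℤ)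
    (hκ : ∀ w, κ (i w) = i w) (hθ : ∀ w, θ (i w) = i (trW K' w))
    (hfix : ∀ g ∈ PK K, θ (κ g) = κ g) (w : FreeGroup ℤ) (hw : i w ∈ PK K) : w ∈ WK K' := by
  have h1 := hfix _ hw
  rw [hκ, hθ] at h1
  have h2 := hi h1
  rw [← h2]
  exact trW_mem K' w

theorem hom_eq_on_PK (K : ℤ) (f g : NZ →* NZ) (hl : f ql = g ql) (hm : f qm = g qm)
    (hq : ∀ k ≤ K, f (qq k) = g (qq k))
    (hc : f (qq (K + 1) * ql * (qq (K + 1))⁻¹) = g (qq (K + 1) * ql * (qq (K + 1))⁻¹))
    (x : NZ) (hx : x ∈ PK K) : f x = g x := by
  have h1 : PK K ≤ f.eqLocus g := by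
    unfold PK
    rw [Subgroup.closure_le]
    rintro y ((rfl | rfl | rfl) | ⟨k, hk, rfl⟩)
    · exact hl
    · exact hm
    · exact hc
    · exact hq k hk
  exact h1 hx

theorem iA_mem_iff (K : ℤ) (w : FreeGroup ℤ) : iA w ∈ PK K ↔ w ∈ WK K := by
  constructor
  · apply mem_W_of iA iA_injective (kN 1 qm) (trN ql qm K) K K
    · intro w
      have h : (kN 1 qm).comp iA = iA := by
        apply FreeGroup.ext_hom
        intro k
        simp
      exact DFunLike.congr_fun h w
    · intro w
      have h : (trN ql qm K).comp iA = iA.comp (trW K) := by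
        apply FreeGroup.ext_hom
        intro k
        simp [trW]
      exact DFunLike.congr_fun h w
    · intro g hg
      have h := hom_eq_on_PK K ((trN ql qm K).comp (kN 1 qm)) (kN 1 qm) (by simp) (by simp)
        (by intro k hk; simp [min_eq_left hk]) (by simp) g hg
      exact h
  · intro hw
    have h1 : WK K ≤ (PK K).comap iA := by
      unfold WK
      rw [Subgroup.closure_le]
      rintro _ ⟨k, hk, rfl⟩
      show iA (FreeGroup.of k) ∈ PK K
      rw [iA_of]
      exact (PK K).mul_mem ((PK K).mul_mem (qq_mem hk) (qm_mem K)) ((PK K).inv_mem (qq_mem hk))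
    exact h1 hw

theorem iB_mem_iff (K : ℤ) (w : FreeGroup ℤ) : iB w ∈ PK K ↔ w ∈ WK K := by
  constructor
  · apply mem_W_of iB iB_injective (kN 1 1) (trN ql qm K) K K
    · intro w
      have h : (kN 1 1).comp iB = iB := by
        apply FreeGroup.ext_hom
        intro k
        simp
      exact DFunLike.congr_fun h w
    · intro w
      have h : (trN ql qm K).comp iB = iB.comp (trW K) := by
        apply FreeGroup.ext_hom
        intro k
        simp [trW]
      exact DFunLike.congr_fun h w
    · intro g hg
      have h := hom_eq_on_PK K ((trN ql qm K).comp (kN 1 1)) (kN 1 1) (by simp) (by simp)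
        (by intro k hk; simp [min_eq_left hk]) (by simp) g hg
      exact h
  · intro hw
    have h1 : WK K ≤ (PK K).comap iB := by
      unfold WK
      rw [Subgroup.closure_le]
      rintro _ ⟨k, hk, rfl⟩
      show iB (FreeGroup.of k) ∈ PK K
      rw [iB_of]
      exact qq_mem hk
    exact h1 hw

theorem jA_mem_iff (K : ℤ) (w : FreeGroup ℤ) : jA w ∈ PK K ↔ w ∈ WK (K + 1) := by
  constructor
  · apply mem_W_of jA jA_injective (kN ql 1) (trN ql qm (K + 1)) K (K + 1)
    · intro w
      have h : (kN ql 1).comp jA = jA := by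
        apply FreeGroup.ext_hom
        intro k
        simp
      exact DFunLike.congr_fun h w
    · intro w
      have h : (trN ql qm (K + 1)).comp jA = jA.comp (trW (K + 1)) := by
        apply FreeGroup.ext_hom
        intro k
        simp [trW]
      exact DFunLike.congr_fun h w
    · intro g hg
      have h := hom_eq_on_PK K ((trN ql qm (K + 1)).comp (kN ql 1)) (kN ql 1) (by simp) (by simp)
        (by intro k hk; simp [min_eq_left (le_trans hk (by omega : K ≤ K + 1))]) (by simp) g hg
      exact h
  · intro hw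
    have h1 : WK (K + 1) ≤ (PK K).comap jA := by
      unfold WK
      rw [Subgroup.closure_le]
      rintro _ ⟨k, hk, rfl⟩
      show jA (FreeGroup.of k) ∈ PK K
      rw [jA_of]
      have hk' : k ≤ K + 1 := hk
      rcases eq_or_lt_of_le hk' with h | h
      · rw [h]
        exact qlc_mem K
      · have h2 : k ≤ K := by omega
        exact (PK K).mul_mem ((PK K).mul_mem (qq_mem h2) (ql_mem K)) ((PK K).inv_mem (qq_mem h2))
    exact h1 hw

theorem jB_mem_iff (K : ℤ) (w : FreeGroup ℤ) : jB w ∈ PK K ↔ w ∈ WK (K + 1) := by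
  constructor
  · apply mem_W_of jB jB_injective (kN 1 1) (trN ql qm K) K (K + 1)
    · intro w
      have h : (kN 1 1).comp jB = jB := by
        apply FreeGroup.ext_hom
        intro k
        simp
      exact DFunLike.congr_fun h w
    · intro w
      have h : (trN ql qm K).comp jB = jB.comp (trW (K + 1)) := by
        apply FreeGroup.ext_hom
        intro k
        have h1 : min (k - 1) K = min k (K + 1) - 1 := by
          rcases le_total k (K + 1) with h | h
          · rw [min_eq_left h, min_eq_left (by omega)]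
          · rw [min_eq_right h, min_eq_right (by omega)]
            omega
        simp [trW, h1]
      exact DFunLike.congr_fun h w
    · intro g hg
      have h := hom_eq_on_PK K ((trN ql qm K).comp (kN 1 1)) (kN 1 1) (by simp) (by simp)
        (by intro k hk; simp [min_eq_left hk]) (by simp) g hg
      exact h
  · intro hw
    have h1 : WK (K + 1) ≤ (PK K).comap jB := by
      unfold WK
      rw [Subgroup.closure_le]
      rintro _ ⟨k, hk, rfl⟩
      show jB (FreeGroup.of k) ∈ PK K
      rw [jB_of]
      have hk' : k ≤ K + 1 := hk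
      exact qq_mem (by omega)
    exact h1 hw

theorem qq_not_mem (K : ℤ) : qq (K + 1) ∉ PK K := by
  intro h
  have h1 := hom_eq_on_PK K ((trN ql qm K).comp (kN 1 1)) (kN 1 1) (by simp) (by simp)
        (by intro k hk; simp [min_eq_left hk]) (by simp) _ h
  have h2 : qq K = qq (K + 1) := by simpa using h1
  have h3 := FreeGroup.of_injective h2
  have h4 : K = K + 1 := by injection h3
  omega

end Tame222b14
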