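import Pool.Agent.Lib.MP_222b14_al.Hol

/-!
# Gauging a flat labelling into a finitely generated subgroup
-/

namespace Tame222b14

section Gauge

variable {G : Type} [Group G] {S : Subgroup G} {X : Type} {Γ : Type} [Group Γ]

/-- `S g = S` for `g ∈ S`. -/
theorem RCoset.base_mul {g : G} (hg : g ∈ S) : (RCoset.mk S 1).mul g = RCoset.mk S 1 := by
  rw [RCoset.mk_mul, RCoset.mk_eq_mk]
  simpa using hg

theorem RCoset.mem_of_base_mul {g : G} (hg : (RCoset.mk S 1).mul g = RCoset.mk S 1) : g ∈ S := by
  rw [RCoset.mk_mul, RCoset.mk_eq_mk] at hg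
  simpa using hg

theorem RCoset.base_mul_iff {g : G} : (RCoset.mk S 1).mul g = RCoset.mk S 1 ↔ g ∈ S :=
  ⟨RCoset.mem_of_base_mul, RCoset.base_mul⟩

theorem RCoset.exists_mul (v : RCoset S) : ∃ g : G, (RCoset.mk S 1).mul g = v := by
  obtain ⟨g, rfl⟩ := RCoset.exists_rep v
  exact ⟨g, by simp⟩

/-- The holonomy of a closed path at the base vertex, for a flat labelling, lies in the subgroup
generated by the holonomies of the generators of `S`. -/
theorem hol_base_mem (val : X → G) (hsurj : Function.Surjective (FreeGroup.lift val))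
    (E : RCoset S → X → Γ)
    (hflat : ∀ g, FreeGroup.lift val g = 1 → ∀ v, holF val E v g = 1)
    (D : Set (FreeGroup X)) (hD : S = Subgroup.closure ((FreeGroup.lift val) '' D))
    (g : FreeGroup X) (hg : FreeGroup.lift val g ∈ S) :
    holF val E (RCoset.mk S 1) g
      ∈ Subgroup.closure ((fun g => holF val E (RCoset.mk S 1) g) '' D) := by
  -- the holonomy depends only on the value
  have hdep : ∀ a b : FreeGroup X, FreeGroup.lift val a = FreeGroup.lift val b →
      ∀ v, holF val E v a = holF val E v b := by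
    intro a b hab v
    have h1 : a = b * (b⁻¹ * a) := by group
    rw [h1, holF_mul, hflat (b⁻¹ * a) (by simp [hab]), mul_one]
  have key : ∀ s ∈ Subgroup.closure ((FreeGroup.lift val) '' D), ∀ g : FreeGroup X,
      FreeGroup.lift val g = s → holF val E (RCoset.mk S 1) g
        ∈ Subgroup.closure ((fun g => holF val E (RCoset.mk S 1) g) '' D) := by
    intro s hs
    induction hs using Subgroup.closure_induction with
    | mem s hs =>
      obtain ⟨d, hd, rfl⟩ := hs
      intro g hg
      rw [hdep g d hg]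
      exact Subgroup.subset_closure ⟨d, hd, rfl⟩
    | one =>
      intro g hg
      rw [hflat g hg]
      exact Subgroup.one_mem _
    | mul s s' hs hs' ih ih' =>
      intro g hg
      obtain ⟨a, ha⟩ := hsurj s
      obtain ⟨b, hb⟩ := hsurj s'
      rw [hdep g (a * b) (by rw [hg, map_mul, ha, hb]), holF_mul, ha,
        RCoset.base_mul (hD ▸ hs : s ∈ S)]
      exact Subgroup.mul_mem _ (ih a ha) (ih' b hb)
    | inv s hs ih =>
      intro g hg
      obtain ⟨a, ha⟩ := hsurj s
      rw [hdep g a⁻¹ (by rw [hg, map_inv, ha]), holF_inv, ha,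
        RCoset.base_mul (S.inv_mem (hD ▸ hs : s ∈ S))]
      exact Subgroup.inv_mem _ (ih a ha)
  exact key _ (hD ▸ hg) g rfl

/-- Every flat labelling can be gauged into the subgroup generated by the holonomies of the
generators of `S`. -/
theorem gauge_of_flat (val : X → G) (hsurj : Function.Surjective (FreeGroup.lift val))
    (E : RCoset S → X → Γ)
    (hflat : ∀ g, FreeGroup.lift val g = 1 → ∀ v, holF val E v g = 1)
    (D : Set (FreeGroup X)) (hD : S = Subgroup.closure ((FreeGroup.lift val) '' D)) :
    ∃ A : RCoset S → Γ, A (RCoset.mk S 1) = 1 ∧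
      ∀ v x, A v * E v x * (A (v.mul (val x)))⁻¹
        ∈ Subgroup.closure ((fun g => holF val E (RCoset.mk S 1) g) '' D) := by
  classical
  have hex : ∀ v : RCoset S, ∃ g : FreeGroup X, (RCoset.mk S 1).mul (FreeGroup.lift val g) = v := by
    intro v
    obtain ⟨g, hg⟩ := RCoset.exists_mul v
    obtain ⟨a, ha⟩ := hsurj g
    exact ⟨a, by rw [ha, hg]⟩
  choose c hc using hex
  let c' : RCoset S → FreeGroup X := fun v => if v = RCoset.mk S 1 then 1 else c v
  have hc' : ∀ v, (RCoset.mk S 1).mul (FreeGroup.lift val (c' v)) = v := by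
    intro v
    by_cases h : v = RCoset.mk S 1
    · simp [c', h]
    · simp [c', h, hc]
  refine ⟨fun v => holF val E (RCoset.mk S 1) (c' v), by simp [c'], fun v x => ?_⟩
  have h1 : holF val E (RCoset.mk S 1) (c' v * FreeGroup.of x * (c' (v.mul (val x)))⁻¹)
      = holF val E (RCoset.mk S 1) (c' v) * E v x
        * (holF val E (RCoset.mk S 1) (c' (v.mul (val x))))⁻¹ := by
    rw [holF_mul, holF_mul, hc', holF_of, holF_inv]
    congr 2
    congr 1
    rw [map_mul, ← RCoset.mul_mul, hc', FreeGroup.lift_apply_of]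
    have h2 := congrArg (fun u : RCoset S => u.mul (FreeGroup.lift val (c' (v.mul (val x))))⁻¹)
      (hc' (v.mul (val x)))
    simp only [RCoset.mul_mul_inv] at h2
    exact h2.symm
  rw [← h1]
  apply hol_base_mem val hsurj E hflat D hD
  apply RCoset.mem_of_base_mul
  rw [map_mul, map_mul, ← RCoset.mul_mul, ← RCoset.mul_mul, hc', FreeGroup.lift_apply_of, map_inv]
  have h2 := congrArg (fun u : RCoset S => u.mul (FreeGroup.lift val (c' (v.mul (val x))))⁻¹)
    (hc' (v.mul (val x)))
  simp only [RCoset.mul_mul_inv] at h2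
  exact h2.symm

end Gauge

end Tame222b14
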