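import Pool.Agent.Lib.MP_222b14_al.Gauge

/-!
# Gauging an almost flat labelling when `G` has a central element `t` with `z t = 1`, `S ≤ ker z`
-/

namespace Tame222b14

section GaugeT

variable {G : Type} [Group G] {S : Subgroup G} {X : Type} {Γ : Type} [Group Γ]

/-- The height of a coset, for a homomorphism `z` which is trivial on `S`. -/
def height (S : Subgroup G) (z : G →* Multiplicative ℤ) (hSz : S ≤ z.ker) (v : RCoset S) : ℤ :=
  Quotient.lift (s := QuotientGroup.rightRel S) (fun g => Multiplicative.toAdd (z g)) (by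
    intro a b hab
    have h1 : b * a⁻¹ ∈ S := QuotientGroup.rightRel_apply.1 hab
    have h2 : z (b * a⁻¹) = 1 := hSz h1
    have h3 : z a = z b := by
      rw [map_mul, map_inv] at h2
      exact (mul_inv_eq_one.1 h2).symm
    simp [h3]) v

theorem height_mk (z : G →* Multiplicative ℤ) (hSz : S ≤ z.ker) (g : G) :
    height S z hSz (RCoset.mk S g) = Multiplicative.toAdd (z g) := rfl

theorem height_mul (z : G →* Multiplicative ℤ) (hSz : S ≤ z.ker) (v : RCoset S) (g : G) :
    height S z hSz (v.mul g) = height S z hSz v + Multiplicative.toAdd (z g) := by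
  obtain ⟨h, rfl⟩ := RCoset.exists_rep v
  rw [RCoset.mk_mul, height_mk, height_mk, map_mul, toAdd_mul]

theorem gauge_of_central (hS : S.FG) (z : G →* Multiplicative ℤ) (t : G)
    (ht : ∀ g, g * t = t * g) (hzt : z t = Multiplicative.ofAdd 1) (hSz : S ≤ z.ker) [Finite X]
    (val : X → G) (hsurj : Function.Surjective (FreeGroup.lift val)) (E : RCoset S → X → Γ)
    (hfin : ∀ g, FreeGroup.lift val g = 1 → {v | holF val E v g ≠ 1}.Finite) :
    ∃ A : RCoset S → Γ, ∃ F : Set Γ, F.Finite ∧
      ∀ v x, A v * E v x * (A (v.mul (val x)))⁻¹ ∈ Subgroup.closure F := by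
  classical
  obtain ⟨wt, hwt⟩ := hsurj t
  -- central powers
  have htz : ∀ (g : G) (k : ℤ), g * t ^ k = t ^ k * g := by
    intro g k
    have h1 : Commute g t := ht g
    exact (h1.zpow_right k)
  have htn : ∀ (g : G) (k : ℕ), g * t ^ k = t ^ k * g := by
    intro g k
    have h1 : Commute g t := ht g
    exact (h1.pow_right k)
  let zz : RCoset S → ℤ := height S z hSz
  have hzzt : ∀ (v : RCoset S) (k : ℤ), zz (v.mul (t ^ k)) = zz v + k := by
    intro v k
    show height S z hSz (v.mul (t ^ k)) = height S z hSz v + k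
    rw [height_mul, map_zpow, hzt]
    simp
  have hzzn : ∀ (v : RCoset S) (k : ℕ), zz (v.mul (t ^ k)) = zz v + k := by
    intro v k
    have := hzzt v k
    simpa using this
  have hzz1 : ∀ v : RCoset S, zz (v.mul t) = zz v + 1 := by
    intro v
    have := hzzt v 1
    simpa using this
  let D : RCoset S → Γ := fun v => holF val E v wt
  let Tg : RCoset S → Γ := fun v => holF val E (v.mul (t ^ (-(zz v)))) (wt ^ (zz v))
  have hTg : ∀ v : RCoset S, Tg (v.mul t) = Tg v * D v := by
    intro v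
    show holF val E ((v.mul t).mul (t ^ (-(zz (v.mul t))))) (wt ^ (zz (v.mul t)))
      = holF val E (v.mul (t ^ (-(zz v)))) (wt ^ (zz v)) * holF val E v wt
    rw [hzz1, RCoset.mul_mul, zpow_add, zpow_one, holF_mul]
    have e1 : t * t ^ (-(zz v + 1)) = t ^ (-(zz v)) := by
      rw [← zpow_one_add]
      congr 1
      ring
    have e2 : (v.mul (t ^ (-(zz v)))).mul (FreeGroup.lift val (wt ^ (zz v))) = v := by
      rw [map_zpow, hwt, RCoset.mul_mul, ← zpow_add]
      simp
    rw [e1, e2]
  let Eh : RCoset S → X → Γ := fun v x => Tg v * E v x * (Tg (v.mul (val x)))⁻¹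
  let B : Set (RCoset S) :=
    ⋃ x : X, {v | holF val E v (wt * FreeGroup.of x * wt⁻¹ * (FreeGroup.of x)⁻¹) ≠ 1}
  have hBfin : B.Finite := by
    apply Set.finite_iUnion
    intro x
    apply hfin
    simp only [map_mul, map_inv, hwt, FreeGroup.lift_apply_of]
    rw [← ht (val x)]
    group
  have hconst1 : ∀ (v : RCoset S) (x : X), v ∉ B → Eh (v.mul t) x = Eh v x := by
    intro v x hv
    have h1 : holF val E v (wt * FreeGroup.of x * wt⁻¹ * (FreeGroup.of x)⁻¹) = 1 := by
      by_contra hcon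
      exact hv (Set.mem_iUnion.2 ⟨x, hcon⟩)
    have hc : (v.mul t).mul (val x) = (v.mul (val x)).mul t := by
      rw [RCoset.mul_mul, RCoset.mul_mul, ht]
    have h2 : D v * E (v.mul t) x * (D (v.mul (val x)))⁻¹ * (E v x)⁻¹ = 1 := by
      rw [← h1, holF_mul, holF_mul, holF_mul, holF_inv, holF_inv]
      simp only [holF_of, map_mul, map_inv, hwt, FreeGroup.lift_apply_of, ← RCoset.mul_mul, hc,
        RCoset.mul_mul_inv]
      rfl
    show Tg (v.mul t) * E (v.mul t) x * (Tg ((v.mul t).mul (val x)))⁻¹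
      = Tg v * E v x * (Tg (v.mul (val x)))⁻¹
    rw [hc, hTg, hTg]
    have h3 : D v * E (v.mul t) x * (D (v.mul (val x)))⁻¹ = E v x := mul_inv_eq_one.1 h2
    rw [← h3]
    group
  -- columns leave every finite set
  have hleave : ∀ (C : Set (RCoset S)), C.Finite → ∀ v : RCoset S,
      ∃ N : ℕ, ∀ n ≥ N, v.mul (t ^ n) ∉ C := by
    intro C hC v
    have hinj : Function.Injective (fun n : ℕ => v.mul (t ^ n)) := by
      intro n m hnm
      have h1 := congrArg zz hnm
      simp only [hzzn] at h1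
      omega
    have h2 : {n : ℕ | v.mul (t ^ n) ∈ C}.Finite := hC.preimage hinj.injOn
    obtain ⟨N, hN⟩ := h2.bddAbove
    refine ⟨N + 1, fun n hn hmem => ?_⟩
    have := hN hmem
    omega
  -- the top values
  have hex : ∀ (v : RCoset S) (x : X), ∃ γ : Γ, ∃ N : ℕ, ∀ n ≥ N, Eh (v.mul (t ^ n)) x = γ := by
    intro v x
    obtain ⟨N, hN⟩ := hleave B hBfin v
    refine ⟨Eh (v.mul (t ^ N)) x, N, fun n hn => ?_⟩
    induction n, hn using Nat.le_induction with
    | base => rfl
    | succ n hn ih =>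
      rw [pow_succ, ← RCoset.mul_mul, hconst1 _ x (hN n hn), ih]
  choose einf heinf using hex
  have huniq : ∀ (v : RCoset S) (x : X) (γ : Γ), (∃ N : ℕ, ∀ n ≥ N, Eh (v.mul (t ^ n)) x = γ) → einf v x = γ := by
    intro v x γ hγ
    obtain ⟨N, hN⟩ := hγ
    obtain ⟨M, hM⟩ := heinf v x
    rw [← hN (max N M) (le_max_left _ _), ← hM (max N M) (le_max_right _ _)]
  have hinf1 : ∀ (v : RCoset S) (x : X), einf (v.mul t) x = einf v x := by
    intro v x
    apply huniq
    obtain ⟨M, hM⟩ := heinf v x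
    refine ⟨M, fun n hn => ?_⟩
    rw [RCoset.mul_mul, ← pow_succ']
    exact hM (n + 1) (by omega)
  have hinfz : ∀ (k : ℤ) (v : RCoset S) (x : X), einf (v.mul (t ^ k)) x = einf v x := by
    intro k
    induction k using Int.induction_on with
    | zero => intro v x; simp
    | succ n ih =>
      intro v x
      rw [zpow_add, zpow_one, ← RCoset.mul_mul, hinf1, ih]
    | pred n ih =>
      intro v x
      have h1 := hinf1 (v.mul (t ^ (-(n : ℤ) - 1))) x
      rw [RCoset.mul_mul, ← zpow_add_one, sub_add_cancel, ih] at h1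
      exact h1.symm
  -- the bigger subgroup
  have hnorm : (Subgroup.zpowers t).Normal := by
    refine ⟨?_⟩
    rintro n ⟨k, rfl⟩ g
    refine ⟨k, ?_⟩
    show t ^ k = g * t ^ k * g⁻¹
    rw [htz g k]
    group
  let S' : Subgroup G := S ⊔ Subgroup.zpowers t
  have hS'rep : ∀ g h : G, RCoset.mk S' g = RCoset.mk S' h →
      ∃ k : ℤ, RCoset.mk S h = (RCoset.mk S g).mul (t ^ k) := by
    intro g h hgh
    rw [RCoset.mk_eq_mk] at hgh
    obtain ⟨s, hs, u, ⟨k, rfl⟩, hsu⟩ := Subgroup.mem_sup_of_normal_right.1 hgh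
    refine ⟨k, ?_⟩
    rw [RCoset.mk_mul, RCoset.mk_eq_mk]
    have e1 : g * t ^ k * h⁻¹ = s⁻¹ := by
      have e2 : h = s * t ^ k * g := by
        rw [show s * t ^ k = h * g⁻¹ from hsu]
        group
      rw [e2, htz g k]
      group
    rw [e1]
    exact S.inv_mem hs
  let pr : RCoset S → RCoset S' := fun v => RCoset.mk S' (Classical.choose (RCoset.exists_rep v))
  have hle : S ≤ S' := le_sup_left
  have htS' : ∀ k : ℤ, t ^ k ∈ S' := fun k => (le_sup_right : Subgroup.zpowers t ≤ S') ⟨k, rfl⟩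
  have hpr : ∀ g : G, pr (RCoset.mk S g) = RCoset.mk S' g := by
    intro g
    have h1 := Classical.choose_spec (RCoset.exists_rep (RCoset.mk S g))
    rw [RCoset.mk_eq_mk] at h1
    show RCoset.mk S' _ = _
    rw [RCoset.mk_eq_mk]
    exact hle h1
  have hprmul : ∀ (v : RCoset S) (g : G), pr (v.mul g) = (pr v).mul g := by
    intro v g
    obtain ⟨h, rfl⟩ := RCoset.exists_rep v
    rw [RCoset.mk_mul, hpr, hpr, RCoset.mk_mul]
  have hprt : ∀ (v : RCoset S) (k : ℤ), pr (v.mul (t ^ k)) = pr v := by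
    intro v k
    obtain ⟨h, rfl⟩ := RCoset.exists_rep v
    rw [RCoset.mk_mul, hpr, hpr, RCoset.mk_eq_mk]
    have e1 : h * (h * t ^ k)⁻¹ = t ^ (-k) := by
      rw [htz h k]
      group
    rw [e1]
    exact htS' _
  let eb : RCoset S' → X → Γ := fun v x =>
    einf (RCoset.mk S (Classical.choose (RCoset.exists_rep v))) x
  have heb : ∀ (v : RCoset S) (x : X), eb (pr v) x = einf v x := by
    intro v x
    obtain ⟨h, rfl⟩ := RCoset.exists_rep v
    have h1 := Classical.choose_spec (RCoset.exists_rep (pr (RCoset.mk S h)))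
    rw [hpr] at h1
    obtain ⟨k, hk⟩ := hS'rep _ _ h1.symm
    show einf (RCoset.mk S (Classical.choose (RCoset.exists_rep (pr (RCoset.mk S h))))) x = _
    rw [hpr, hk, hinfz]
  -- holonomy of `eb`
  have hhol : ∀ (w : List (X × Bool)) (v : RCoset S), ∃ N : ℕ, ∀ n ≥ N,
      hol val Eh (v.mul (t ^ n)) w = hol val eb (pr v) w := by
    intro w
    induction w with
    | nil => intro v; exact ⟨0, fun n _ => rfl⟩
    | cons e w ih =>
      intro v
      rcases e with ⟨x, b⟩
      cases b
      · obtain ⟨N, hN⟩ := ih (v.mul (val x)⁻¹)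
        obtain ⟨M, hM⟩ := heinf (v.mul (val x)⁻¹) x
        refine ⟨max N M, fun n hn => ?_⟩
        rw [hol_cons_false, hol_cons_false, ← hprmul, heb,
          ← hN n (le_trans (le_max_left _ _) hn), ← hM n (le_trans (le_max_right _ _) hn),
          RCoset.mul_mul, RCoset.mul_mul, htn]
      · obtain ⟨N, hN⟩ := ih (v.mul (val x))
        obtain ⟨M, hM⟩ := heinf v x
        refine ⟨max N M, fun n hn => ?_⟩
        rw [hol_cons_true, hol_cons_true, ← hprmul, heb,
          ← hN n (le_trans (le_max_left _ _) hn), ← hM n (le_trans (le_max_right _ _) hn),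
          RCoset.mul_mul, RCoset.mul_mul, htn]
  have hprsurj : ∀ v' : RCoset S', ∃ v, pr v = v' := by
    intro v'
    obtain ⟨h, rfl⟩ := RCoset.exists_rep v'
    exact ⟨RCoset.mk S h, hpr h⟩
  have hflat : ∀ g, FreeGroup.lift val g = 1 → ∀ v', holF val eb v' g = 1 := by
    intro g hg v'
    obtain ⟨v, rfl⟩ := hprsurj v'
    have hgm : FreeGroup.mk g.toWord = g := FreeGroup.mk_toWord
    obtain ⟨N, hN⟩ := hhol g.toWord v
    obtain ⟨M, hM⟩ := hleave _ (hfin g hg) v
    have h1 := hN (max N M) (le_max_left _ _)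
    have h2 := hM (max N M) (le_max_right _ _)
    have h3 : holF val E (v.mul (t ^ (max N M))) g = 1 := by
      by_contra hcon
      exact h2 hcon
    rw [← holF_mk val eb, ← holF_mk val Eh, hgm] at h1
    rw [← h1]
    have h4 := holF_gauge val E Tg (v.mul (t ^ (max N M))) g
    show holF val (fun v x => Tg v * E v x * (Tg (v.mul (val x)))⁻¹) _ _ = 1
    rw [h4, h3, hg]
    simp
  -- generators of `S'`
  obtain ⟨T, hT⟩ := hS
  choose lf hlf using hsurj
  let Dg : Set (FreeGroup X) := (lf '' (T : Set G)) ∪ {wt}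
  have hDfin : Dg.Finite := (T.finite_toSet.image lf).union (Set.finite_singleton wt)
  have hDg : S' = Subgroup.closure ((FreeGroup.lift val) '' Dg) := by
    have e1 : (FreeGroup.lift val) '' Dg = (T : Set G) ∪ {t} := by
      rw [Set.image_union, Set.image_singleton, hwt, ← Set.image_comp]
      congr 1
      have e2 : (⇑(FreeGroup.lift val) ∘ lf) = id := by
        funext g
        exact hlf g
      rw [e2, Set.image_id]
    rw [e1, Subgroup.closure_union, hT, ← Subgroup.zpowers_eq_closure]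
  obtain ⟨Ab, hAb1, hAb⟩ := gauge_of_flat val (fun g => ⟨lf g, hlf g⟩) eb hflat Dg hDg
  let F0 : Set Γ := (fun g => holF val eb (RCoset.mk S' 1) g) '' Dg
  let F1 : Set Γ := ⋃ x : X, (fun v => Ab (pr v) * Eh v x * (Ab (pr (v.mul (val x))))⁻¹) '' B
  refine ⟨fun v => Ab (pr v) * Tg v, F0 ∪ F1, (hDfin.image _).union
    (Set.finite_iUnion fun x => hBfin.image _), fun v x => ?_⟩
  have e1 : Ab (pr v) * Tg v * E v x * (Ab (pr (v.mul (val x))) * Tg (v.mul (val x)))⁻¹
      = Ab (pr v) * Eh v x * (Ab (pr (v.mul (val x))))⁻¹ := by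
    show _ = Ab (pr v) * (Tg v * E v x * (Tg (v.mul (val x)))⁻¹) * (Ab (pr (v.mul (val x))))⁻¹
    group
  show Ab (pr v) * Tg v * E v x * (Ab (pr (v.mul (val x))) * Tg (v.mul (val x)))⁻¹ ∈ _
  rw [e1]
  by_cases h : einf v x = Eh v x
  · rw [← h, ← heb, hprmul]
    exact Subgroup.closure_mono Set.subset_union_left (hAb (pr v) x)
  · have h5 : ∃ n : ℕ, Eh (v.mul (t ^ n)) x = Eh v x ∧ v.mul (t ^ n) ∈ B := by
      by_contra hcon
      push Not at hcon
      apply h
      apply huniq
      refine ⟨0, fun n _ => ?_⟩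
      induction n with
      | zero => simp
      | succ n ih =>
        rw [pow_succ, ← RCoset.mul_mul, hconst1 _ x (hcon n (ih (Nat.zero_le _))),
          ih (Nat.zero_le _)]
    obtain ⟨n, hn1, hn2⟩ := h5
    apply Subgroup.subset_closure
    right
    refine Set.mem_iUnion.2 ⟨x, v.mul (t ^ n), hn2, ?_⟩
    have e2 : pr (v.mul (t ^ n)) = pr v := by
      have := hprt v n
      simpa using this
    have e3 : pr ((v.mul (t ^ n)).mul (val x)) = pr (v.mul (val x)) := by
      rw [hprmul, e2, hprmul]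
    simp only
    rw [e2, e3, hn1]

end GaugeT

end Tame222b14
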