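import Mathlib

/-!
# The group `H`
-/

namespace Tame222b14

/-- The generators of `H`. -/
inductive Gn : Type
  | x | y | a | b | l | f | h | w
  deriving DecidableEq

instance : Finite Gn := by
  have h : (Set.univ : Set Gn) ⊆ {.x, .y, .a, .b, .l, .f, .h, .w} := by
    intro g _
    cases g <;> simp
  exact Set.finite_univ_iff.1 ((Set.toFinite _).subset h)

/-- The names of the relators of `H`. -/
inductive Rl : Type
  | ax | bx | ay | b2 | wy | al | bl | wl | fb | ha | wf | wh | fy | hy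
  deriving DecidableEq

instance : Finite Rl := by
  have h : (Set.univ : Set Rl) ⊆
      {.ax, .bx, .ay, .b2, .wy, .al, .bl, .wl, .fb, .ha, .wf, .wh, .fy, .hy} := by
    intro g _
    cases g <;> simp
  exact Set.finite_univ_iff.1 ((Set.toFinite _).subset h)

open FreeGroup in
/-- The relators of `H`. -/
def rel : Rl → FreeGroup Gn
  | .ax => of .a * of .x * (of .a)⁻¹ * (of .x)⁻¹
  | .bx => of .b * of .x * (of .b)⁻¹ * (of .x)⁻¹
  | .ay => of .a * of .y * (of .a)⁻¹ * of .x * (of .y)⁻¹ * (of .x)⁻¹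
  | .b2 => of .b * of .y * (of .b)⁻¹ * of .x * (of .y)⁻¹ * (of .x)⁻¹
  | .wy => of .w * of .y * (of .w)⁻¹ * of .x * (of .y)⁻¹ * (of .x)⁻¹
  | .al => of .a * of .l * (of .a)⁻¹ * (of .l)⁻¹
  | .bl => of .b * of .l * (of .b)⁻¹ * (of .l)⁻¹
  | .wl => of .w * of .l * (of .w)⁻¹ * (of .l)⁻¹
  | .fb => of .f * of .b * (of .f)⁻¹ * (of .x)⁻¹
  | .ha => of .h * of .a * (of .h)⁻¹ * (of .x)⁻¹
  | .wf => of .w * of .f * (of .w)⁻¹ * (of .f)⁻¹
  | .wh => of .w * of .h * (of .w)⁻¹ * (of .h)⁻¹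
  | .fy => of .f * of .y * of .l * (of .y)⁻¹ * (of .f)⁻¹ * (of .y)⁻¹
  | .hy => of .h * of .y * of .l * (of .y)⁻¹ * (of .h)⁻¹ * (of .x)⁻¹ * (of .y)⁻¹ * of .x

/-- The group `H`. -/
abbrev Hg : Type := PresentedGroup (Set.range rel)

/-- The generators, as elements of `H`. -/
def gn (g : Gn) : Hg := PresentedGroup.of g

theorem gn_surj : Function.Surjective (FreeGroup.lift gn) := by
  intro g
  induction g using PresentedGroup.induction_on with
  | _ z =>
    refine ⟨z, ?_⟩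
    have : FreeGroup.lift gn = PresentedGroup.mk (Set.range rel) := by
      apply FreeGroup.ext_hom
      intro k
      simp [gn, PresentedGroup.of]
    rw [this]

theorem lift_gn : FreeGroup.lift gn = PresentedGroup.mk (Set.range rel) := by
  apply FreeGroup.ext_hom
  intro k
  simp [gn, PresentedGroup.of]

theorem lift_rel (r : Rl) : FreeGroup.lift gn (rel r) = 1 := by
  rw [lift_gn]
  exact PresentedGroup.one_of_mem ⟨r, rfl⟩

theorem ker_lift : (FreeGroup.lift gn).ker = Subgroup.normalClosure (Set.range rel) := by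
  rw [lift_gn]
  exact QuotientGroup.ker_mk' _

/-! ### The relations -/

theorem rel_ax : gn .a * gn .x * (gn .a)⁻¹ = gn .x := by
  have := lift_rel .ax
  simpa [rel, mul_inv_eq_one] using this
theorem rel_bx : gn .b * gn .x * (gn .b)⁻¹ = gn .x := by
  have := lift_rel .bx
  simpa [rel, mul_inv_eq_one] using this
theorem rel_ay : gn .a * gn .y * (gn .a)⁻¹ = gn .x * gn .y * (gn .x)⁻¹ := by
  have := lift_rel .ay
  simp only [rel, map_mul, map_inv, FreeGroup.lift_apply_of] at this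
  rw [mul_inv_eq_one, mul_inv_eq_iff_eq_mul] at this
  rw [← this]
  group
theorem rel_by : gn .b * gn .y * (gn .b)⁻¹ = gn .x * gn .y * (gn .x)⁻¹ := by
  have := lift_rel .b2
  simp only [rel, map_mul, map_inv, FreeGroup.lift_apply_of] at this
  rw [mul_inv_eq_one, mul_inv_eq_iff_eq_mul] at this
  rw [← this]
  group
theorem rel_wy : gn .w * gn .y * (gn .w)⁻¹ = gn .x * gn .y * (gn .x)⁻¹ := by
  have := lift_rel .wy
  simp only [rel, map_mul, map_inv, FreeGroup.lift_apply_of] at this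
  rw [mul_inv_eq_one, mul_inv_eq_iff_eq_mul] at this
  rw [← this]
  group
theorem rel_al : gn .a * gn .l * (gn .a)⁻¹ = gn .l := by
  have := lift_rel .al
  simpa [rel, mul_inv_eq_one] using this
theorem rel_bl : gn .b * gn .l * (gn .b)⁻¹ = gn .l := by
  have := lift_rel .bl
  simpa [rel, mul_inv_eq_one] using this
theorem rel_wl : gn .w * gn .l * (gn .w)⁻¹ = gn .l := by
  have := lift_rel .wl
  simpa [rel, mul_inv_eq_one] using this
theorem rel_fb : gn .f * gn .b * (gn .f)⁻¹ = gn .x := by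
  have := lift_rel .fb
  simpa [rel, mul_inv_eq_one] using this
theorem rel_ha : gn .h * gn .a * (gn .h)⁻¹ = gn .x := by
  have := lift_rel .ha
  simpa [rel, mul_inv_eq_one] using this
theorem rel_wf : gn .w * gn .f * (gn .w)⁻¹ = gn .f := by
  have := lift_rel .wf
  simpa [rel, mul_inv_eq_one] using this
theorem rel_wh : gn .w * gn .h * (gn .w)⁻¹ = gn .h := by
  have := lift_rel .wh
  simpa [rel, mul_inv_eq_one] using this
theorem rel_fy : gn .f * (gn .y * gn .l * (gn .y)⁻¹) * (gn .f)⁻¹ = gn .y := by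
  have := lift_rel .fy
  simp only [rel, map_mul, map_inv, FreeGroup.lift_apply_of] at this
  rw [mul_inv_eq_one] at this
  refine Eq.trans ?_ this
  group
theorem rel_hy : gn .h * (gn .y * gn .l * (gn .y)⁻¹) * (gn .h)⁻¹
    = (gn .x)⁻¹ * gn .y * gn .x := by
  have := lift_rel .hy
  simp only [rel, map_mul, map_inv, FreeGroup.lift_apply_of] at this
  have h2 : gn .h * (gn .y * gn .l * (gn .y)⁻¹) * (gn .h)⁻¹
      * ((gn .x)⁻¹ * gn .y * gn .x)⁻¹ = 1 := by
    rw [← this]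
    group
  exact mul_inv_eq_one.1 h2

/-! ### The shifts -/

/-- `p_n = x^n y x^{-n}` -/
def pn (n : ℤ) : Hg := gn .x ^ n * gn .y * (gn .x ^ n)⁻¹

theorem pn_zero : pn 0 = gn .y := by simp [pn]

theorem pn_add (k n : ℤ) : gn .x ^ k * pn n * (gn .x ^ k)⁻¹ = pn (k + n) := by
  unfold pn
  rw [zpow_add]
  group

theorem x_pn (n : ℤ) : gn .x * pn n * (gn .x)⁻¹ = pn (n + 1) := by
  have := pn_add 1 n
  rw [zpow_one, add_comm] at this
  exact this

theorem x_pn_inv (n : ℤ) : (gn .x)⁻¹ * pn n * gn .x = pn (n - 1) := by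
  have := pn_add (-1) n
  rw [zpow_neg, zpow_one, inv_inv] at this
  rw [this]
  congr 1
  ring

/-- An element which commutes with `x` and maps `y` to `p_1` shifts all `p_n`. -/
theorem shift_of_commute (c : Hg) (h1 : c * gn .x * c⁻¹ = gn .x)
    (h2 : c * gn .y * c⁻¹ = gn .x * gn .y * (gn .x)⁻¹) (n : ℤ) : c * pn n * c⁻¹ = pn (n + 1) := by
  have h3 : c * gn .x ^ n * c⁻¹ = gn .x ^ n := by
    rw [← conj_zpow, h1]
  calc c * pn n * c⁻¹ = (c * gn .x ^ n * c⁻¹) * (c * gn .y * c⁻¹) * (c * gn .x ^ n * c⁻¹)⁻¹ := by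
        unfold pn
        group
    _ = gn .x ^ n * (gn .x * gn .y * (gn .x)⁻¹) * (gn .x ^ n)⁻¹ := by rw [h3, h2]
    _ = pn (n + 1) := by
        unfold pn
        rw [zpow_add]
        group

theorem a_pn (n : ℤ) : gn .a * pn n * (gn .a)⁻¹ = pn (n + 1) :=
  shift_of_commute _ rel_ax rel_ay n

theorem b_pn (n : ℤ) : gn .b * pn n * (gn .b)⁻¹ = pn (n + 1) :=
  shift_of_commute _ rel_bx rel_by n

/-- Powers of a shift. -/
theorem shift_zpow (c : Hg) (h : ∀ n, c * pn n * c⁻¹ = pn (n + 1)) (k n : ℤ) :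
    c ^ k * pn n * (c ^ k)⁻¹ = pn (n + k) := by
  induction k using Int.induction_on generalizing n with
  | zero => simp
  | succ k ih =>
    have h1 : c ^ ((k : ℤ) + 1) * pn n * (c ^ ((k : ℤ) + 1))⁻¹
        = c ^ (k : ℤ) * (c * pn n * c⁻¹) * (c ^ (k : ℤ))⁻¹ := by
      rw [zpow_add_one]
      group
    rw [h1, h, ih]
    congr 1
    ring
  | pred k ih =>
    have h0 : c⁻¹ * pn n * c = pn (n - 1) := by
      have := h (n - 1)
      rw [sub_add_cancel] at this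
      rw [← this]
      group
    have h1 : c ^ (-(k : ℤ) - 1) * pn n * (c ^ (-(k : ℤ) - 1))⁻¹
        = c ^ (-(k : ℤ)) * (c⁻¹ * pn n * c) * (c ^ (-(k : ℤ)))⁻¹ := by
      rw [zpow_sub_one]
      group
    rw [h1, h0, ih]
    congr 1
    ring

theorem commute_zpow_conj (c z : Hg) (h : c * z * c⁻¹ = z) (k : ℤ) :
    c ^ k * z * (c ^ k)⁻¹ = z := by
  have h1 : Commute c z := by
    have : c * z = z * c := by
      rw [← mul_inv_eq_iff_eq_mul]
      exact h
    exact this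
  have h2 : Commute (c ^ k) z := h1.zpow_left k
  rw [h2.eq]
  group

theorem f_pn (n : ℤ) : gn .f * (pn n * gn .l * (pn n)⁻¹) * (gn .f)⁻¹ = pn n := by
  have hl := commute_zpow_conj _ _ rel_bl n
  have hb := shift_zpow _ b_pn n 0
  rw [pn_zero, zero_add] at hb
  have hfb : gn .f * gn .b ^ n * (gn .f)⁻¹ = gn .x ^ n := by
    rw [← conj_zpow, rel_fb]
  calc gn .f * (pn n * gn .l * (pn n)⁻¹) * (gn .f)⁻¹
      = gn .f * ((gn .b ^ n * gn .y * (gn .b ^ n)⁻¹) * (gn .b ^ n * gn .l * (gn .b ^ n)⁻¹)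
          * (gn .b ^ n * gn .y * (gn .b ^ n)⁻¹)⁻¹) * (gn .f)⁻¹ := by rw [hb, hl]
    _ = (gn .f * gn .b ^ n * (gn .f)⁻¹) * (gn .f * (gn .y * gn .l * (gn .y)⁻¹) * (gn .f)⁻¹)
          * (gn .f * gn .b ^ n * (gn .f)⁻¹)⁻¹ := by group
    _ = pn n := by rw [hfb, rel_fy]; rfl

theorem h_pn (n : ℤ) : gn .h * (pn n * gn .l * (pn n)⁻¹) * (gn .h)⁻¹ = pn (n - 1) := by
  have hl := commute_zpow_conj _ _ rel_al n
  have ha := shift_zpow _ a_pn n 0
  rw [pn_zero, zero_add] at ha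
  have hha : gn .h * gn .a ^ n * (gn .h)⁻¹ = gn .x ^ n := by
    rw [← conj_zpow, rel_ha]
  calc gn .h * (pn n * gn .l * (pn n)⁻¹) * (gn .h)⁻¹
      = gn .h * ((gn .a ^ n * gn .y * (gn .a ^ n)⁻¹) * (gn .a ^ n * gn .l * (gn .a ^ n)⁻¹)
          * (gn .a ^ n * gn .y * (gn .a ^ n)⁻¹)⁻¹) * (gn .h)⁻¹ := by rw [ha, hl]
    _ = (gn .h * gn .a ^ n * (gn .h)⁻¹) * (gn .h * (gn .y * gn .l * (gn .y)⁻¹) * (gn .h)⁻¹)
          * (gn .h * gn .a ^ n * (gn .h)⁻¹)⁻¹ := by group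
    _ = gn .x ^ n * ((gn .x)⁻¹ * gn .y * gn .x) * (gn .x ^ n)⁻¹ := by rw [hha, rel_hy]
    _ = pn (n - 1) := by
        unfold pn
        rw [zpow_sub_one]
        group

/-- `g = h f⁻¹` shifts down. -/
theorem g_pn (n : ℤ) : (gn .h * (gn .f)⁻¹) * pn n * (gn .h * (gn .f)⁻¹)⁻¹ = pn (n - 1) := by
  have h1 : (gn .f)⁻¹ * pn n * gn .f = pn n * gn .l * (pn n)⁻¹ := by
    have := f_pn n
    calc (gn .f)⁻¹ * pn n * gn .f
        = (gn .f)⁻¹ * (gn .f * (pn n * gn .l * (pn n)⁻¹) * (gn .f)⁻¹) * gn .f := by rw [this]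
      _ = pn n * gn .l * (pn n)⁻¹ := by group
  calc (gn .h * (gn .f)⁻¹) * pn n * (gn .h * (gn .f)⁻¹)⁻¹
      = gn .h * ((gn .f)⁻¹ * pn n * gn .f) * (gn .h)⁻¹ := by group
    _ = pn (n - 1) := by rw [h1, h_pn]

theorem ginv_pn (n : ℤ) :
    (gn .h * (gn .f)⁻¹)⁻¹ * pn n * ((gn .h * (gn .f)⁻¹)⁻¹)⁻¹ = pn (n + 1) := by
  have := g_pn (n + 1)
  rw [add_sub_cancel_right] at this
  rw [← this]
  group

/-- `w` shifts all `p_n` up. -/
theorem w_pn (n : ℤ) : gn .w * pn n * (gn .w)⁻¹ = pn (n + 1) := by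
  set c : Hg := (gn .h * (gn .f)⁻¹)⁻¹ with hc
  have hcs := shift_zpow c ginv_pn
  have hwc : gn .w * c * (gn .w)⁻¹ = c := by
    have h1 : gn .w * c * (gn .w)⁻¹
        = (gn .w * gn .f * (gn .w)⁻¹) * (gn .w * gn .h * (gn .w)⁻¹)⁻¹ := by
      rw [hc]
      group
    rw [h1, rel_wf, rel_wh, hc]
    group
  have hwcn : gn .w * c ^ n * (gn .w)⁻¹ = c ^ n := by
    rw [← conj_zpow, hwc]
  have h0 : gn .w * pn 0 * (gn .w)⁻¹ = pn 1 := by
    rw [pn_zero, rel_wy]
    unfold pn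
    rw [zpow_one]
  have h1 := hcs n 0
  rw [zero_add] at h1
  calc gn .w * pn n * (gn .w)⁻¹
      = (gn .w * c ^ n * (gn .w)⁻¹) * (gn .w * pn 0 * (gn .w)⁻¹)
          * (gn .w * c ^ n * (gn .w)⁻¹)⁻¹ := by
        rw [← h1]
        group
    _ = c ^ n * pn 1 * (c ^ n)⁻¹ := by rw [hwcn, h0]
    _ = pn (n + 1) := by
        rw [hcs]
        congr 1
        ring

/-! ### The subgroup `L` -/

/-- The subgroup `L`. -/
def Ls : Subgroup Hg := Subgroup.closure {gn .l, gn .y, gn .f, gn .h, gn .w}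

theorem l_mem : gn .l ∈ Ls := Subgroup.subset_closure (by simp)
theorem y_mem : gn .y ∈ Ls := Subgroup.subset_closure (by simp)
theorem f_mem : gn .f ∈ Ls := Subgroup.subset_closure (by simp)
theorem h_mem : gn .h ∈ Ls := Subgroup.subset_closure (by simp)
theorem w_mem : gn .w ∈ Ls := Subgroup.subset_closure (by simp)

theorem pn_mem (n : ℤ) : pn n ∈ Ls := by
  have h1 := shift_zpow _ w_pn n 0
  rw [zero_add, pn_zero] at h1
  rw [← h1]
  exact Ls.mul_mem (Ls.mul_mem (Ls.zpow_mem w_mem n) y_mem) (Ls.inv_mem (Ls.zpow_mem w_mem n))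

end Tame222b14
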