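import Pool.Agent.Lib.MP_222b14_al.HHt

/-!
# The labelling of `L \ H` with values in the group of labels
-/

namespace Tame222b14

section HFlat

variable {Γ : Type} [Group Γ] (l m f h : Γ) (q : ℤ → Γ) (ht : RCoset Ls → ℤ)

open Classical in
/-- The labelling. -/
noncomputable def lamE (v : RCoset Ls) : Gn → Γ
  | .x | .a | .b | .w => 1
  | .y => q (ht v)
  | .l => if v ∈ Cs then l else m
  | .f => if v.mul (gn .f) ∈ Cs then h else f
  | .h => if v.mul (gn .h) ∈ Cs then h else f

open Classical in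
omit [Group Γ] in
theorem ite_congr_iff {p p' : Prop} (hp : p ↔ p') (u v : Γ) :
    (if p then u else v) = (if p' then u else v) := by
  by_cases h1 : p
  · rw [if_pos h1, if_pos (hp.1 h1)]
  · rw [if_neg h1, if_neg (fun h2 => h1 (hp.2 h2))]

theorem rel_fix (r : Rl) (v : RCoset Ls) : v.mul (FreeGroup.lift gn (rel r)) = v := by
  rw [lift_rel, RCoset.mul_one]

theorem lam_flat (hf : ∀ k, f * (q k * m * (q k)⁻¹) * f⁻¹ = q k)
    (hh : ∀ k, h * (q k * l * (q k)⁻¹) * h⁻¹ = q (k - 1))
    (hht : ∀ v c, ht (v.mul (gn c)) = ht v + dh v c) (r : Rl) (v : RCoset Ls)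
    (h1 : v ≠ st) (h2 : v.mul (gn .a) ≠ st) (h3 : v.mul (gn .h) ≠ st)
    (h4 : (v.mul (gn .h)).mul (gn .a) ≠ st) :
    holF gn (lamE l m f h q ht) v (rel r) = 1 := by
  classical
  have hinv : ∀ v c, ht (v.mul (gn c)⁻¹) = ht v - dh (v.mul (gn c)⁻¹) c := by
    intro v c
    have := hht (v.mul (gn c)⁻¹) c
    rw [RCoset.mul_inv_mul] at this
    omega
  have hfix := rel_fix r v
  cases r <;>
    simp only [rel, holF_mul, holF_inv, holF_of, map_mul, map_inv, FreeGroup.lift_apply_of,
      ← RCoset.mul_mul, lamE, RCoset.mul_inv_mul] at hfix ⊢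
  case ax => simp
  case bx => simp
  case ay =>
    have e1 : ht (v.mul (gn .a)) = ht v + 1 := hht v .a
    have e2 : ht (((((v.mul (gn .a)).mul (gn .y)).mul (gn .a)⁻¹).mul (gn .x)).mul (gn .y)⁻¹)
        = ht v + 1 := by
      rw [hinv, hht, hinv, hht, hht]
      simp only [dh]
      ring
    rw [e1, e2]
    group
  case b2 =>
    have e1 : ht (v.mul (gn .b)) = ht v + 1 := hht v .b
    have e2 : ht (((((v.mul (gn .b)).mul (gn .y)).mul (gn .b)⁻¹).mul (gn .x)).mul (gn .y)⁻¹)
        = ht v + 1 := by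
      rw [hinv, hht, hinv, hht, hht]
      simp only [dh]
      ring
    rw [e1, e2]
    group
  case wy =>
    have e0 : dS (((v.mul (gn .w)).mul (gn .y)).mul (gn .w)⁻¹) = dS v := by
      apply dS_congr
      rw [mul_eq_st_iff _ _ (Ls.inv_mem w_mem), mul_eq_st_iff _ _ y_mem, mul_eq_st_iff _ _ w_mem]
    have e00 : dS v = 1 := by
      unfold dS
      rw [if_neg h1]
    have e1 : ht (v.mul (gn .w)) = ht v + 1 := by
      rw [hht]
      simp only [dh]
      rw [e00]
    have e2 : ht (((((v.mul (gn .w)).mul (gn .y)).mul (gn .w)⁻¹).mul (gn .x)).mul (gn .y)⁻¹)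
        = ht v + 1 := by
      rw [hinv, hht, hinv, hht, hht]
      simp only [dh]
      rw [e0]
      ring
    rw [e1, e2]
    group
  case al =>
    rw [hfix, ite_congr_iff (a_iff v h1 h2)]
    group
  case bl =>
    rw [hfix, ite_congr_iff (b_iff v)]
    group
  case wl =>
    rw [hfix, ite_congr_iff (w_iff v)]
    group
  case fb =>
    rw [ite_congr_iff (b_iff _)]
    group
  case ha =>
    rw [ite_congr_iff (a_iff (v.mul (gn .h)) h3 h4)]
    group
  case wf =>
    rw [ite_congr_iff (winv_iff _)]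
    group
  case wh =>
    rw [ite_congr_iff (winv_iff _)]
    group
  case fy =>
    have e1 : ht ((((v.mul (gn .f)).mul (gn .y)).mul (gn .l)).mul (gn .y)⁻¹)
        = ht (v.mul (gn .f)) := by
      rw [hinv, hht, hht]
      simp only [dh]
      ring
    have e2 : ((v.mul (gn .f)).mul (gn .y)) ∈ Cs ↔ v.mul (gn .f) ∈ Cs :=
      (yl_iff _ yl_y).1
    rw [hfix, e1, ite_congr_iff e2, ite_congr_iff (yly_iff (v.mul (gn .f))).1]
    have e3 : ht (v.mul (gn .f)) = ht v + dC (v.mul (gn .f)) := hht v .f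
    by_cases hc : v.mul (gn .f) ∈ Cs
    · simp only [hc, if_true]
      have e4 : dC (v.mul (gn .f)) = 1 := by
        unfold dC
        rw [if_pos hc]
      have e5 := hh (ht (v.mul (gn .f)))
      have e6 : ht (v.mul (gn .f)) - 1 = ht v := by omega
      rw [e6] at e5
      rw [← e5]
      group
    · simp only [hc, if_false]
      have e4 : dC (v.mul (gn .f)) = 0 := by
        unfold dC
        rw [if_neg hc]
      have e5 := hf (ht (v.mul (gn .f)))
      have e6 : ht (v.mul (gn .f)) = ht v := by omega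
      rw [e6] at e5 ⊢
      have e7 : f * q (ht v) * m * (q (ht v))⁻¹ * f⁻¹ = q (ht v) := by
        rw [← e5]
        simp only [e5]
        refine Eq.trans ?_ e5
        group
      rw [e7]
      group
  case hy =>
    have e1 : ht ((((v.mul (gn .h)).mul (gn .y)).mul (gn .l)).mul (gn .y)⁻¹)
        = ht (v.mul (gn .h)) := by
      rw [hinv, hht, hht]
      simp only [dh]
      ring
    have e2 : ((v.mul (gn .h)).mul (gn .y)) ∈ Cs ↔ v.mul (gn .h) ∈ Cs :=
      (yl_iff _ yl_y).1
    have e3 : ht (v.mul (gn .h)) = ht v - dN (v.mul (gn .h)) := hht v .h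
    have e8 : dN ((((v.mul (gn .h)).mul (gn .y)).mul (gn .l)).mul (gn .y)⁻¹)
        = dN (v.mul (gn .h)) := dN_congr (yly_iff _).2
    have e9 : ht (((((((v.mul (gn .h)).mul (gn .y)).mul (gn .l)).mul (gn .y)⁻¹).mul
        (gn .h)⁻¹).mul (gn .x)⁻¹).mul (gn .y)⁻¹) = ht v - 1 := by
      rw [hinv, hinv, hinv, e1]
      simp only [dh, RCoset.mul_inv_mul]
      rw [e8, e3]
      ring
    rw [e9, e1, ite_congr_iff e2, ite_congr_iff (yly_iff (v.mul (gn .h))).1]
    by_cases hc : v.mul (gn .h) ∈ Cs
    · simp only [hc, if_true]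
      have e4 : dN (v.mul (gn .h)) = 0 := by
        have hI : InC (v.mul (gn .h)) := Or.inl hc
        unfold dN
        rw [if_pos hI]
      have e5 := hh (ht (v.mul (gn .h)))
      have e6 : ht (v.mul (gn .h)) = ht v := by omega
      rw [e6] at e5 ⊢
      rw [← e5]
      group
    · simp only [hc, if_false]
      have e4 : dN (v.mul (gn .h)) = 1 := by
        unfold dN
        rw [if_neg]
        rintro (h5 | h5)
        · exact hc h5
        · exact h3 h5
      have e5 := hf (ht (v.mul (gn .h)))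
      have e6 : ht (v.mul (gn .h)) = ht v - 1 := by omega
      rw [e6] at e5 ⊢
      have e7 : f * q (ht v - 1) * m * (q (ht v - 1))⁻¹ * f⁻¹ = q (ht v - 1) := by
        refine Eq.trans ?_ e5
        group
      simp only [mul_one, inv_one]
      rw [e7]
      group

end HFlat

end Tame222b14
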