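import Pool.Agent.Lib.MP_222b14_al.HSet

/-!
# The height function on `L \ H`
-/

namespace Tame222b14

open Classical in
/-- Indicator of `Cs`. -/
noncomputable def dC (v : RCoset Ls) : ℤ := if v ∈ Cs then 1 else 0

open Classical in
/-- Indicator of `v ≠ *`. -/
noncomputable def dS (v : RCoset Ls) : ℤ := if v = st then 0 else 1

open Classical in
/-- Indicator of the complement of `Cs ∪ {*}`. -/
noncomputable def dN (v : RCoset Ls) : ℤ := if InC v then 0 else 1

theorem dC_congr {u v : RCoset Ls} (h : u ∈ Cs ↔ v ∈ Cs) : dC u = dC v := by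
  unfold dC
  by_cases h1 : v ∈ Cs
  · rw [if_pos h1, if_pos (h.2 h1)]
  · rw [if_neg h1, if_neg (fun h2 => h1 (h.1 h2))]

theorem dS_congr {u v : RCoset Ls} (h : u = st ↔ v = st) : dS u = dS v := by
  unfold dS
  by_cases h1 : v = st
  · rw [if_pos h1, if_pos (h.2 h1)]
  · rw [if_neg h1, if_neg (fun h2 => h1 (h.1 h2))]

theorem dN_congr {u v : RCoset Ls} (h : InC u ↔ InC v) : dN u = dN v := by
  unfold dN
  by_cases h1 : InC v
  · rw [if_pos h1, if_pos (h.2 h1)]
  · rw [if_neg h1, if_neg (fun h2 => h1 (h.1 h2))]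

/-- The increments of the height. -/
noncomputable def dh (v : RCoset Ls) : Gn → ℤ
  | .x | .a | .b => 1
  | .y | .l => 0
  | .w => dS v
  | .f => dC (v.mul (gn .f))
  | .h => -(dN (v.mul (gn .h)))

/-- The increments of the height, as an edge labelling. -/
noncomputable def htE (v : RCoset Ls) (c : Gn) : Multiplicative ℤ := Multiplicative.ofAdd (dh v c)

/-- The words in `y` and `l` which occur. -/
theorem yl_y : gn .y ∈ Subgroup.closure {gn .y, gn .l} := Subgroup.subset_closure (by simp)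
theorem yl_l : gn .l ∈ Subgroup.closure {gn .y, gn .l} := Subgroup.subset_closure (by simp)

theorem yly_iff (v : RCoset Ls) :
    ((((v.mul (gn .y)).mul (gn .l)).mul (gn .y)⁻¹) ∈ Cs ↔ v ∈ Cs) ∧
    (InC (((v.mul (gn .y)).mul (gn .l)).mul (gn .y)⁻¹) ↔ InC v) := by
  have h := yl_iff v (g := gn .y * gn .l * (gn .y)⁻¹)
    (Subgroup.mul_mem _ (Subgroup.mul_mem _ yl_y yl_l) (Subgroup.inv_mem _ yl_y))
  rwa [← RCoset.mul_mul, ← RCoset.mul_mul] at h

/-- Every relator has height `0` at every place. -/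
theorem htE_flat (r : Rl) (v : RCoset Ls) : holF gn htE v (rel r) = 1 := by
  apply Multiplicative.toAdd.injective
  cases r <;>
    simp only [rel, holF_mul, holF_inv, holF_of, map_mul, map_inv, FreeGroup.lift_apply_of,
      ← RCoset.mul_mul, htE, toAdd_mul, toAdd_inv, toAdd_ofAdd, toAdd_one, dh,
      RCoset.mul_inv_mul]
  case ax => ring
  case bx => ring
  case ay => ring
  case b2 => ring
  case al => ring
  case bl => ring
  case wy =>
    have h1 : dS (((v.mul (gn .w)).mul (gn .y)).mul (gn .w)⁻¹) = dS v := by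
      apply dS_congr
      rw [mul_eq_st_iff _ _ (Ls.inv_mem w_mem), mul_eq_st_iff _ _ y_mem, mul_eq_st_iff _ _ w_mem]
    rw [h1]
    ring
  case wl =>
    have h1 : dS (((v.mul (gn .w)).mul (gn .l)).mul (gn .w)⁻¹) = dS v := by
      apply dS_congr
      rw [mul_eq_st_iff _ _ (Ls.inv_mem w_mem), mul_eq_st_iff _ _ l_mem, mul_eq_st_iff _ _ w_mem]
    rw [h1]
    ring
  case fb =>
    have h1 : dC ((v.mul (gn .f)).mul (gn .b)) = dC (v.mul (gn .f)) := dC_congr (b_iff _)
    rw [h1]
    ring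
  case ha =>
    have h1 : dN ((v.mul (gn .h)).mul (gn .a)) = dN (v.mul (gn .h)) := dN_congr (a_InC_iff _)
    rw [h1]
    ring
  case wf =>
    have h1 : dS (((v.mul (gn .w)).mul (gn .f)).mul (gn .w)⁻¹) = dS v := by
      apply dS_congr
      rw [mul_eq_st_iff _ _ (Ls.inv_mem w_mem), mul_eq_st_iff _ _ f_mem, mul_eq_st_iff _ _ w_mem]
    have h2 : dC (((v.mul (gn .w)).mul (gn .f)).mul (gn .w)⁻¹)
        = dC ((v.mul (gn .w)).mul (gn .f)) := dC_congr (winv_iff _)
    rw [h1, h2]
    ring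
  case wh =>
    have h1 : dS (((v.mul (gn .w)).mul (gn .h)).mul (gn .w)⁻¹) = dS v := by
      apply dS_congr
      rw [mul_eq_st_iff _ _ (Ls.inv_mem w_mem), mul_eq_st_iff _ _ h_mem, mul_eq_st_iff _ _ w_mem]
    have h2 : dN (((v.mul (gn .w)).mul (gn .h)).mul (gn .w)⁻¹)
        = dN ((v.mul (gn .w)).mul (gn .h)) := dN_congr (winv_InC_iff _)
    rw [h1, h2]
    ring
  case fy =>
    have h1 : dC ((((v.mul (gn .f)).mul (gn .y)).mul (gn .l)).mul (gn .y)⁻¹)
        = dC (v.mul (gn .f)) := dC_congr (yly_iff _).1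
    rw [h1]
    ring
  case hy =>
    have h1 : dN ((((v.mul (gn .h)).mul (gn .y)).mul (gn .l)).mul (gn .y)⁻¹)
        = dN (v.mul (gn .h)) := dN_congr (yly_iff _).2
    rw [h1]
    ring

theorem htE_flat' (g : FreeGroup Gn) (hg : FreeGroup.lift gn g = 1) (v : RCoset Ls) :
    holF gn htE v g = 1 := by
  apply flat_of_rels gn htE (R := Set.range rel)
  · rintro _ ⟨r, rfl⟩
    exact ⟨lift_rel r, htE_flat r⟩
  · rw [← ker_lift]
    exact hg

/-- The height function. -/
theorem exists_height : ∃ ht : RCoset Ls → ℤ, ht st = 0 ∧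
    ∀ v c, ht (v.mul (gn c)) = ht v + dh v c := by
  let D : Set (FreeGroup Gn) := FreeGroup.of '' {.l, .y, .f, .h, .w}
  have hD : Ls = Subgroup.closure ((FreeGroup.lift gn) '' D) := by
    have h1 : (FreeGroup.lift gn) '' D = {gn .l, gn .y, gn .f, gn .h, gn .w} := by
      show (FreeGroup.lift gn) '' (FreeGroup.of '' {.l, .y, .f, .h, .w}) = _
      rw [Set.image_image]
      simp [Set.image_insert_eq]
    rw [h1]
    rfl
  obtain ⟨A, hA1, hA2⟩ := gauge_of_flat gn gn_surj htE htE_flat' D hD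
  have htriv : ∀ z ∈ Subgroup.closure ((fun g => holF gn htE (RCoset.mk Ls 1) g) '' D), z = 1 := by
    have hle : Subgroup.closure ((fun g => holF gn htE (RCoset.mk Ls 1) g) '' D) ≤ ⊥ := by
      rw [Subgroup.closure_le]
      rintro _ ⟨_, ⟨c, hc, rfl⟩, rfl⟩
      show holF gn htE st (FreeGroup.of c) = 1
      rw [holF_of]
      have hf : st.mul (gn .f) = st := RCoset.base_mul f_mem
      have hh : st.mul (gn .h) = st := RCoset.base_mul h_mem
      rcases hc with (rfl | rfl | rfl | rfl | rfl)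
      · rfl
      · rfl
      · simp [htE, dh, hf, dC, st_not_mem]
      · simp [htE, dh, hh, dN, InC]
      · simp [htE, dh, dS]
    intro z hz
    exact hle hz
  refine ⟨fun v => Multiplicative.toAdd (A v), ?_, ?_⟩
  · show Multiplicative.toAdd (A (RCoset.mk Ls 1)) = 0
    rw [hA1]
    rfl
  · intro v c
    have h1 := htriv _ (hA2 v c)
    have h2 : A (v.mul (gn c)) = A v * htE v c := (mul_inv_eq_one.1 h1).symm
    show Multiplicative.toAdd (A (v.mul (gn c))) = Multiplicative.toAdd (A v) + dh v c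
    rw [h2, toAdd_mul]
    rfl

end Tame222b14
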