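import Mathlib

/-!
# Subgroups of HNN extensions generated by a subgroup of the base and the stable letter
-/

namespace Tame222b14

open HNNExtension HNNExtension.NormalWord

section HNNSub

variable {G : Type} [Group G] {A B : Subgroup G} (φ : A ≃* B)

/-- An element of the HNN extension which is represented by a reduced word with entries in `P`. -/
def RedIn (P : Subgroup G) (z : HNNExtension G A B φ) : Prop :=
  ∃ w : ReducedWord G A B, w.head ∈ P ∧ (∀ e ∈ w.toList, e.2 ∈ P) ∧ w.prod φ = z

theorem redIn_t_mul (P : Subgroup G) (h1 : ∀ a : A, (a : G) ∈ P ↔ (φ a : G) ∈ P) (u : ℤˣ)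
    {z : HNNExtension G A B φ} (hz : RedIn φ P z) :
    RedIn φ P ((HNNExtension.t : HNNExtension G A B φ) ^ (u : ℤ) * z) := by
  obtain ⟨w, hw1, hw2, rfl⟩ := hz
  -- moving elements across the stable letter
  have hmove : ∀ (g : G), g ∈ toSubgroup A B u → g ∈ P → ∃ g' ∈ P,
      (HNNExtension.t : HNNExtension G A B φ) ^ (u : ℤ) * of g = of g' * t ^ (u : ℤ) := by
    intro g hg hgP
    rcases Int.units_eq_one_or u with rfl | rfl
    · refine ⟨φ ⟨g, hg⟩, (h1 ⟨g, hg⟩).1 hgP, ?_⟩
      have := t_mul_of (φ := φ) ⟨g, hg⟩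
      simpa using this
    · refine ⟨φ.symm ⟨g, hg⟩, (h1 (φ.symm ⟨g, hg⟩)).2 (by simpa using hgP), ?_⟩
      have := inv_t_mul_of (φ := φ) ⟨g, hg⟩
      simpa using this
  rcases w with ⟨g0, l, hl⟩
  by_cases hc : ∀ e ∈ l.head?, g0 ∈ toSubgroup A B u → u = e.1
  · refine ⟨⟨1, (u, g0) :: l, ?_⟩, P.one_mem, ?_, ?_⟩
    · refine List.isChain_cons.2 ⟨?_, hl⟩
      intro e he hg
      exact hc e he hg
    · intro e he
      rcases List.mem_cons.1 he with rfl | he
      · exact hw1
      · exact hw2 e he
    · simp [ReducedWord.prod, mul_assoc]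
  · push Not at hc
    obtain ⟨e, he, hg, hne⟩ := hc
    cases l with
    | nil => simp at he
    | cons e' l =>
      have he' : e' = e := by simpa using he
      subst he'
      have hu : e'.1 = -u := by
        rcases Int.units_eq_one_or u with rfl | rfl <;>
          rcases Int.units_eq_one_or e'.1 with h | h <;> simp_all
      obtain ⟨g', hg', hmv⟩ := hmove g0 hg hw1
      refine ⟨⟨g' * e'.2, l, (List.isChain_cons.1 hl).2⟩,
        P.mul_mem hg' (hw2 e' List.mem_cons_self), fun e he =>
          hw2 e (List.mem_cons_of_mem _ he), ?_⟩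
      simp only [ReducedWord.prod, List.map_cons, List.prod_cons, hu, map_mul]
      rw [← mul_assoc (t ^ (u : ℤ)) (of g0), hmv]
      simp [mul_assoc]

/-- If the isomorphism `φ` respects the subgroup `P` of the base, then the subgroup generated by
`P` and the stable letter meets the base in `P`. -/
theorem hnn_sub (P : Subgroup G) (h1 : ∀ a : A, (a : G) ∈ P ↔ (φ a : G) ∈ P) (g : G)
    (hg : (HNNExtension.of g : HNNExtension G A B φ) ∈ Subgroup.closure
      ((HNNExtension.of : G →* HNNExtension G A B φ) '' (P : Set G) ∪ {HNNExtension.t})) :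
    g ∈ P := by
  have key : ∀ z ∈ Subgroup.closure ((HNNExtension.of : G →* HNNExtension G A B φ) '' (P : Set G)
      ∪ {HNNExtension.t}), RedIn φ P z := by
    intro z hz
    have hof : ∀ p ∈ P, ∀ z, RedIn φ P z → RedIn φ P (of p * z) := by
      rintro p hp z ⟨w, hw1, hw2, rfl⟩
      refine ⟨⟨p * w.head, w.toList, w.chain⟩, P.mul_mem hp hw1, hw2, ?_⟩
      simp [ReducedWord.prod, mul_assoc]
    induction hz using Subgroup.closure_induction_left with
    | one =>
      exact ⟨⟨1, [], List.isChain_nil⟩, P.one_mem, by simp, by simp [ReducedWord.prod]⟩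
    | mul_left x hx y hy ih =>
      rcases hx with ⟨p, hp, rfl⟩ | hx
      · exact hof p hp y ih
      · rw [Set.mem_singleton_iff] at hx
        subst hx
        have := redIn_t_mul φ P h1 1 ih
        simpa using this
    | inv_mul_cancel x hx y hy ih =>
      rcases hx with ⟨p, hp, rfl⟩ | hx
      · rw [← map_inv]
        exact hof p⁻¹ (P.inv_mem hp) y ih
      · rw [Set.mem_singleton_iff] at hx
        subst hx
        have := redIn_t_mul φ P h1 (-1) ih
        simpa using this
  obtain ⟨w, hw1, hw2, hw3⟩ := key _ hg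
  have h2 : w.toList = [] := by
    apply ReducedWord.toList_eq_nil_of_mem_of_range φ w
    rw [hw3]
    exact ⟨g, rfl⟩
  have h3 : w.prod φ = of w.head := by
    simp [ReducedWord.prod, h2]
  rw [h3] at hw3
  have h4 := of_injective φ hw3
  rwa [← h4]

end HNNSub

end Tame222b14
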