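import Pool.Agent.Lib.MP_222b14_al.GroupH

/-!
# Homomorphisms from the group `H`
-/

namespace Tame222b14

/-- The universal property of `H`. -/
def homH {Q : Type} [Group Q] (f : Gn → Q) (hr : ∀ r : Rl, FreeGroup.lift f (rel r) = 1) :
    Hg →* Q :=
  PresentedGroup.toGroup (f := f) (rels := Set.range rel) (by
    rintro _ ⟨r, rfl⟩
    exact hr r)

theorem homH_gn {Q : Type} [Group Q] (f : Gn → Q) (hr : ∀ r : Rl, FreeGroup.lift f (rel r) = 1)
    (g : Gn) : homH f hr (gn g) = f g := PresentedGroup.toGroup.of _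

/-! ### The homomorphism `ν` -/

/-- The values of `ν`. -/
def nuv : Gn → Multiplicative ℤ
  | .x | .a | .b => Multiplicative.ofAdd 1
  | .y | .l | .f | .h | .w => 1

/-- `ν : H → ℤ`, `x, a, b ↦ 1`, and the other generators to `0`. -/
def nu : Hg →* Multiplicative ℤ := homH nuv (by
  intro r
  cases r <;> simp [rel, nuv])

theorem nu_gn (g : Gn) : nu (gn g) = nuv g := homH_gn _ _ _

theorem L_le_ker_nu : Ls ≤ nu.ker := by
  unfold Ls
  rw [Subgroup.closure_le]
  rintro s (rfl | rfl | rfl | rfl | rfl) <;>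
    exact nu_gn _

/-! ### The retraction `ρ` -/

/-- The values of `ρ`. -/
def rhov : Gn → Hg
  | .x | .a | .b | .w => gn .w
  | .y => gn .y
  | .l => gn .l
  | .f => gn .f
  | .h => gn .h

/-- The retraction of `H` onto `L`. -/
def rho : Hg →* Hg := homH rhov (by
  intro r
  cases r
  case ax => simp [rel, rhov]
  case bx => simp [rel, rhov]
  case ay => simp [rel, rhov]
  case b2 => simp [rel, rhov]
  case wy => simp [rel, rhov]
  case al => simp [rel, rhov, rel_wl]
  case bl => simp [rel, rhov, rel_wl]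
  case wl => simp [rel, rhov, rel_wl]
  case fb =>
    simp only [rel, map_mul, map_inv, FreeGroup.lift_apply_of, rhov]
    have h1 : gn .f * gn .w * (gn .f)⁻¹ = gn .w := by
      have h2 := rel_wf
      rw [mul_inv_eq_iff_eq_mul] at h2
      rw [← h2]
      group
    rw [h1, mul_inv_cancel]
  case ha =>
    simp only [rel, map_mul, map_inv, FreeGroup.lift_apply_of, rhov]
    have h1 : gn .h * gn .w * (gn .h)⁻¹ = gn .w := by
      have h2 := rel_wh
      rw [mul_inv_eq_iff_eq_mul] at h2
      rw [← h2]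
      group
    rw [h1, mul_inv_cancel]
  case wf =>
    simp only [rel, map_mul, map_inv, FreeGroup.lift_apply_of, rhov]
    rw [rel_wf, mul_inv_cancel]
  case wh =>
    simp only [rel, map_mul, map_inv, FreeGroup.lift_apply_of, rhov]
    rw [rel_wh, mul_inv_cancel]
  case fy =>
    simp only [rel, map_mul, map_inv, FreeGroup.lift_apply_of, rhov]
    have h1 := rel_fy
    have h2 : gn .f * gn .y * gn .l * (gn .y)⁻¹ * (gn .f)⁻¹
        = gn .f * (gn .y * gn .l * (gn .y)⁻¹) * (gn .f)⁻¹ := by group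
    rw [h2, h1, mul_inv_cancel]
  case hy =>
    simp only [rel, map_mul, map_inv, FreeGroup.lift_apply_of, rhov]
    have h1 := rel_hy
    have h3 : (gn .x)⁻¹ * gn .y * gn .x = (gn .w)⁻¹ * gn .y * gn .w := by
      have h4 := w_pn (-1)
      have h5 := x_pn_inv 0
      rw [pn_zero] at h5
      rw [h5, zero_sub]
      rw [neg_add_cancel, pn_zero] at h4
      rw [← h4]
      group
    have h2 : gn .h * gn .y * gn .l * (gn .y)⁻¹ * (gn .h)⁻¹ * (gn .w)⁻¹ * (gn .y)⁻¹ * gn .w
        = gn .h * (gn .y * gn .l * (gn .y)⁻¹) * (gn .h)⁻¹ * ((gn .w)⁻¹ * gn .y * gn .w)⁻¹ := by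
      group
    rw [h2, h1, h3, mul_inv_cancel])

theorem rho_gn (g : Gn) : rho (gn g) = rhov g := homH_gn _ _ _

theorem rho_mem (g : Hg) : rho g ∈ Ls := by
  have h1 : ∀ z : FreeGroup Gn, rho (FreeGroup.lift gn z) ∈ Ls := by
    intro z
    induction z using FreeGroup.induction_on with
    | C1 => simp
    | of g =>
      rw [FreeGroup.lift_apply_of, rho_gn]
      cases g
      · exact w_mem
      · exact y_mem
      · exact w_mem
      · exact w_mem
      · exact l_mem
      · exact f_mem
      · exact h_mem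
      · exact w_mem
    | inv_of g h => rw [map_inv, map_inv]; exact Ls.inv_mem h
    | mul a b ha hb => rw [map_mul, map_mul]; exact Ls.mul_mem ha hb
  obtain ⟨z, rfl⟩ := gn_surj g
  exact h1 z

theorem rho_fix (g : Hg) (hg : g ∈ Ls) : rho g = g := by
  have h1 : Ls ≤ rho.eqLocus (MonoidHom.id Hg) := by
    unfold Ls
    rw [Subgroup.closure_le]
    rintro s (rfl | rfl | rfl | rfl | rfl) <;>
      exact rho_gn _
  exact h1 hg

/-! ### The permutation representation -/

/-- Three letters. -/
inductive Al : Type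
  | al | be | om
  deriving DecidableEq

/-- The free group on three letters. -/
abbrev F3 : Type := FreeGroup Al

/-- The letters. -/
def fal : F3 := FreeGroup.of .al
/-- The letters. -/
def fbe : F3 := FreeGroup.of .be
/-- The letters. -/
def fom : F3 := FreeGroup.of .om

/-- The automorphism which exchanges `al` and `be`. -/
def tau : F3 ≃* F3 := FreeGroup.freeGroupCongr (Equiv.swap .al .be)

theorem tau_al : tau fal = fbe := by simp [tau, fal, fbe]
theorem tau_be : tau fbe = fal := by simp [tau, fal, fbe]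
theorem tau_om : tau fom = fom := by
  simp [tau, fom, Equiv.swap_apply_of_ne_of_ne]

theorem tau_tau (u : F3) : tau (tau u) = u := by
  have h : (tau.toMonoidHom.comp tau.toMonoidHom) = MonoidHom.id F3 := by
    apply FreeGroup.ext_hom
    intro k
    simp [tau]
  exact DFunLike.congr_fun h u

/-- The permutations. -/
def perm : Gn → Equiv.Perm (F3 × F3)
  | .x => Equiv.prodCongr (Equiv.mulLeft fal) (Equiv.refl _)
  | .a => Equiv.prodCongr (Equiv.refl _) (Equiv.mulLeft fal)
  | .b => Equiv.prodCongr (Equiv.refl _) (Equiv.mulLeft fbe)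
  | .w => Equiv.prodCongr (Equiv.mulLeft fom) (Equiv.mulLeft fom)
  | .h => Equiv.prodComm _ _
  | .f =>
    { toFun := fun p => (tau p.2, tau p.1)
      invFun := fun p => (tau p.2, tau p.1)
      left_inv := fun p => by simp [tau_tau]
      right_inv := fun p => by simp [tau_tau] }
  | .y => 1
  | .l => 1

@[simp] theorem perm_x (p : F3 × F3) : perm .x p = (fal * p.1, p.2) := rfl
@[simp] theorem perm_a (p : F3 × F3) : perm .a p = (p.1, fal * p.2) := rfl
@[simp] theorem perm_b (p : F3 × F3) : perm .b p = (p.1, fbe * p.2) := rfl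
@[simp] theorem perm_w (p : F3 × F3) : perm .w p = (fom * p.1, fom * p.2) := rfl
@[simp] theorem perm_h (p : F3 × F3) : perm .h p = (p.2, p.1) := rfl
@[simp] theorem perm_f (p : F3 × F3) : perm .f p = (tau p.2, tau p.1) := rfl
@[simp] theorem perm_y : perm .y = 1 := rfl
@[simp] theorem perm_l : perm .l = 1 := rfl

theorem perm_comm {s t : Equiv.Perm (F3 × F3)} {r : Equiv.Perm (F3 × F3)}
    (h : ∀ p, s (t p) = r (s p)) : s * t * s⁻¹ * r⁻¹ = 1 := by
  have h1 : s * t = r * s := by
    ext1 p
    exact h p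
  rw [h1]
  group

/-- The permutation representation of `H` on `F3 × F3`. -/
def Phi : Hg →* Equiv.Perm (F3 × F3) := homH perm (by
  intro r
  cases r
  case ax =>
    simp only [rel, map_mul, map_inv, FreeGroup.lift_apply_of]
    exact perm_comm (by intro p; simp)
  case bx =>
    simp only [rel, map_mul, map_inv, FreeGroup.lift_apply_of]
    exact perm_comm (by intro p; simp)
  case ay => simp [rel]
  case b2 => simp [rel]
  case wy => simp [rel]
  case al => simp [rel]
  case bl => simp [rel]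
  case wl => simp [rel]
  case fb =>
    simp only [rel, map_mul, map_inv, FreeGroup.lift_apply_of]
    exact perm_comm (by intro p; simp [tau_be])
  case ha =>
    simp only [rel, map_mul, map_inv, FreeGroup.lift_apply_of]
    exact perm_comm (by intro p; simp)
  case wf =>
    simp only [rel, map_mul, map_inv, FreeGroup.lift_apply_of]
    exact perm_comm (by intro p; simp [tau_om])
  case wh =>
    simp only [rel, map_mul, map_inv, FreeGroup.lift_apply_of]
    exact perm_comm (by intro p; simp)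
  case fy => simp [rel]
  case hy => simp [rel])

theorem Phi_gn (g : Gn) : Phi (gn g) = perm g := homH_gn _ _ _

/-- The letters of `F3` as generators of `H`. -/
def evv : Al → Gn
  | .al => .a
  | .be => .b
  | .om => .w

/-- The homomorphism from `F3` to `H`. -/
def ev : F3 →* Hg := FreeGroup.lift (fun c => gn (evv c))

@[simp] theorem ev_of (c : Al) : ev (FreeGroup.of c) = gn (evv c) := by simp [ev]

theorem Phi_ev_snd (g : F3) : ∀ p : F3 × F3, (Phi (ev g) p).2 = g * p.2 := by
  induction g using FreeGroup.induction_on with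
  | C1 => intro p; simp
  | of c =>
    intro p
    rw [ev_of, Phi_gn]
    cases c
    · rfl
    · rfl
    · rfl
  | inv_of c h =>
    intro p
    have h1 := h ((Phi (ev (FreeGroup.of c)))⁻¹ p)
    have h2 : Phi (ev (FreeGroup.of c)) ((Phi (ev (FreeGroup.of c)))⁻¹ p) = p :=
      (Phi (ev (FreeGroup.of c))).apply_symm_apply p
    rw [h2] at h1
    rw [h1, map_inv, map_inv]
    group
  | mul a b ha hb =>
    intro p
    rw [map_mul, map_mul, Equiv.Perm.mul_apply, ha, hb, mul_assoc]

/-- `L` preserves the diagonal points `(ω^k, ω^k)`. -/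
theorem Phi_L (s : Hg) (hs : s ∈ Ls) :
    (∀ k : ℤ, ∃ j : ℤ, Phi s (fom ^ k, fom ^ k) = (fom ^ j, fom ^ j)) ∧
    (∀ k : ℤ, ∃ j : ℤ, (Phi s)⁻¹ (fom ^ k, fom ^ k) = (fom ^ j, fom ^ j)) := by
  have htau : ∀ k : ℤ, tau (fom ^ k) = fom ^ k := by
    intro k
    rw [map_zpow, tau_om]
  unfold Ls at hs
  induction hs using Subgroup.closure_induction with
  | mem s hs =>
    rcases hs with (rfl | rfl | rfl | rfl | rfl)
    · rw [Phi_gn]
      exact ⟨fun k => ⟨k, rfl⟩, fun k => ⟨k, rfl⟩⟩
    · rw [Phi_gn]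
      exact ⟨fun k => ⟨k, rfl⟩, fun k => ⟨k, rfl⟩⟩
    · rw [Phi_gn]
      refine ⟨fun k => ⟨k, by simp [htau]⟩, fun k => ⟨k, ?_⟩⟩
      rw [Equiv.Perm.inv_eq_iff_eq]
      simp [htau]
    · rw [Phi_gn]
      refine ⟨fun k => ⟨k, by simp⟩, fun k => ⟨k, ?_⟩⟩
      rw [Equiv.Perm.inv_eq_iff_eq]
      simp
    · rw [Phi_gn]
      refine ⟨fun k => ⟨k + 1, ?_⟩, fun k => ⟨k - 1, ?_⟩⟩
      · rw [perm_w, zpow_add_one]
        have : fom * fom ^ k = fom ^ k * fom := by group
        simp [this]
      · rw [Equiv.Perm.inv_eq_iff_eq, perm_w]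
        have : fom * fom ^ (k - 1) = fom ^ k := by group
        simp [this]
  | one => exact ⟨fun k => ⟨k, by simp⟩, fun k => ⟨k, by simp⟩⟩
  | mul s t _ _ hs ht =>
    constructor
    · intro k
      obtain ⟨j, hj⟩ := ht.1 k
      obtain ⟨i, hi⟩ := hs.1 j
      exact ⟨i, by rw [map_mul, Equiv.Perm.mul_apply, hj, hi]⟩
    · intro k
      obtain ⟨j, hj⟩ := hs.2 k
      obtain ⟨i, hi⟩ := ht.2 j
      exact ⟨i, by rw [map_mul, mul_inv_rev, Equiv.Perm.mul_apply, hj, hi]⟩
  | inv s _ hs =>
    rw [map_inv, inv_inv]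
    exact ⟨hs.2, hs.1⟩

/-- If `ev g ∈ L` then `g` is a power of `ω`. -/
theorem pow_of_ev_mem (g : F3) (h : ev g ∈ Ls) : ∃ j : ℤ, g = fom ^ j := by
  obtain ⟨j, hj⟩ := (Phi_L _ h).1 0
  refine ⟨j, ?_⟩
  have h1 := Phi_ev_snd g (fom ^ (0 : ℤ), fom ^ (0 : ℤ))
  rw [hj] at h1
  simpa using h1.symm

end Tame222b14
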