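import Pool.Agent.Lib.MP_222b14_al.HReps
import Pool.Agent.Lib.MP_222b14_al.Gauge

/-!
# The set `Cs` of cosets
-/

namespace Tame222b14

/-- The reduced word of `g` ends with `α` or `α⁻¹`. -/
def Ends (g : F3) : Prop := ∃ u b, g.toWord = u ++ [(Al.al, b)]

theorem ends_mul (c : Al) (e : Bool) (g : F3) (hg : Ends g) :
    Ends (FreeGroup.mk [(c, e)] * g) ∨ (c = .al ∧ FreeGroup.mk [(c, e)] * g = 1) := by
  obtain ⟨u, b, hu⟩ := hg
  have h1 : (FreeGroup.mk [(c, e)] * g).toWord = FreeGroup.reduce ((c, e) :: g.toWord) := by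
    conv_lhs => rw [← FreeGroup.mk_toWord (x := g)]
    rw [FreeGroup.mul_mk, FreeGroup.toWord_mk]
    rfl
  rw [FreeGroup.reduce.cons, FreeGroup.reduce_toWord, hu] at h1
  cases u with
  | nil =>
    simp only [List.nil_append] at h1
    by_cases hc : c = Al.al ∧ e = !b
    · right
      refine ⟨hc.1, ?_⟩
      rw [if_pos hc] at h1
      exact FreeGroup.toWord_eq_nil_iff.1 h1
    · left
      rw [if_neg hc] at h1
      exact ⟨[(c, e)], b, h1⟩
  | cons hd tl =>
    left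
    simp only [List.cons_append] at h1
    by_cases hc : c = hd.1 ∧ e = !hd.2
    · rw [if_pos hc] at h1
      exact ⟨tl, b, h1⟩
    · rw [if_neg hc] at h1
      exact ⟨(c, e) :: hd :: tl, b, h1⟩

theorem not_ends_pow (j : ℤ) : ¬ Ends (fom ^ j) := by
  rintro ⟨u, b, hu⟩
  have hmem : (Al.al, b) ∈ (fom ^ j).toWord := by
    rw [hu]
    simp
  rcases Int.eq_nat_or_neg j with ⟨n, rfl | rfl⟩
  · rw [zpow_natCast, fom, FreeGroup.toWord_of_pow] at hmem
    have := List.eq_of_mem_replicate hmem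
    simp at this
  · rw [zpow_neg, zpow_natCast, FreeGroup.toWord_inv, fom, FreeGroup.toWord_of_pow] at hmem
    simp [FreeGroup.invRev] at hmem

/-- The base coset. -/
def st : RCoset Ls := RCoset.mk Ls 1

/-- The set of the cosets `* ev(g)⁻¹` with `g` ending in `α^{±1}`. -/
def Cs : Set (RCoset Ls) := {v | ∃ g, Ends g ∧ v = st.mul (ev g)⁻¹}

theorem Cs_mul (c : Al) {v : RCoset Ls} (hv : v ∈ Cs) :
    v.mul (gn (evv c)) ∈ Cs ∨ (c = .al ∧ v.mul (gn (evv c)) = st) := by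
  obtain ⟨g, hg, rfl⟩ := hv
  have h1 : (st.mul (ev g)⁻¹).mul (gn (evv c))
      = st.mul (ev (FreeGroup.mk [(c, false)] * g))⁻¹ := by
    have h2 : (FreeGroup.mk [(c, false)] : F3) = (FreeGroup.of c)⁻¹ := by
      rw [FreeGroup.of, FreeGroup.inv_mk]
      rfl
    rw [RCoset.mul_mul, h2, map_mul, map_inv, ev_of, mul_inv_rev, inv_inv]
  rw [h1]
  rcases ends_mul c false g hg with h | ⟨h, h'⟩
  · exact Or.inl ⟨_, h, rfl⟩
  · right
    refine ⟨h, ?_⟩
    rw [h', map_one, inv_one, RCoset.mul_one]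

theorem Cs_mul_inv (c : Al) {v : RCoset Ls} (hv : v ∈ Cs) :
    v.mul (gn (evv c))⁻¹ ∈ Cs ∨ (c = .al ∧ v.mul (gn (evv c))⁻¹ = st) := by
  obtain ⟨g, hg, rfl⟩ := hv
  have h1 : (st.mul (ev g)⁻¹).mul (gn (evv c))⁻¹
      = st.mul (ev (FreeGroup.mk [(c, true)] * g))⁻¹ := by
    have h2 : (FreeGroup.mk [(c, true)] : F3) = FreeGroup.of c := rfl
    rw [RCoset.mul_mul, h2, map_mul, ev_of, mul_inv_rev]
  rw [h1]
  rcases ends_mul c true g hg with h | ⟨h, h'⟩
  · exact Or.inl ⟨_, h, rfl⟩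
  · right
    refine ⟨h, ?_⟩
    rw [h', map_one, inv_one, RCoset.mul_one]

/-- `v` is in `Cs` or the base coset. -/
def InC (v : RCoset Ls) : Prop := v ∈ Cs ∨ v = st

theorem b_iff (v : RCoset Ls) : v.mul (gn .b) ∈ Cs ↔ v ∈ Cs := by
  constructor
  · intro h
    rcases Cs_mul_inv .be h with h1 | ⟨h1, _⟩
    · simpa [evv] using h1
    · cases h1
  · intro h
    rcases Cs_mul .be h with h1 | ⟨h1, _⟩
    · exact h1
    · cases h1

theorem w_iff (v : RCoset Ls) : v.mul (gn .w) ∈ Cs ↔ v ∈ Cs := by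
  constructor
  · intro h
    rcases Cs_mul_inv .om h with h1 | ⟨h1, _⟩
    · simpa [evv] using h1
    · cases h1
  · intro h
    rcases Cs_mul .om h with h1 | ⟨h1, _⟩
    · exact h1
    · cases h1

theorem winv_iff (v : RCoset Ls) : v.mul (gn .w)⁻¹ ∈ Cs ↔ v ∈ Cs := by
  have := w_iff (v.mul (gn .w)⁻¹)
  rw [RCoset.mul_inv_mul] at this
  exact this.symm

theorem st_a_mem : st.mul (gn .a) ∈ Cs := by
  refine ⟨(FreeGroup.of Al.al)⁻¹, ⟨[], false, ?_⟩, ?_⟩
  · rw [FreeGroup.toWord_inv, FreeGroup.toWord_of]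
    rfl
  · rw [map_inv, ev_of, inv_inv]
    rfl

theorem st_ainv_mem : st.mul (gn .a)⁻¹ ∈ Cs := by
  refine ⟨FreeGroup.of Al.al, ⟨[], true, ?_⟩, ?_⟩
  · rw [FreeGroup.toWord_of]
    rfl
  · rw [ev_of]
    rfl

theorem a_InC {v : RCoset Ls} (h : InC v) : InC (v.mul (gn .a)) := by
  rcases h with h | rfl
  · rcases Cs_mul .al h with h1 | ⟨_, h1⟩
    · exact Or.inl h1
    · exact Or.inr h1
  · exact Or.inl st_a_mem

theorem ainv_InC {v : RCoset Ls} (h : InC v) : InC (v.mul (gn .a)⁻¹) := by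
  rcases h with h | rfl
  · rcases Cs_mul_inv .al h with h1 | ⟨_, h1⟩
    · exact Or.inl h1
    · exact Or.inr h1
  · exact Or.inl st_ainv_mem

theorem a_InC_iff (v : RCoset Ls) : InC (v.mul (gn .a)) ↔ InC v := by
  constructor
  · intro h
    have := ainv_InC h
    rwa [RCoset.mul_mul_inv] at this
  · exact a_InC

/-- The base coset is not in `Cs`. -/
theorem st_not_mem : st ∉ Cs := by
  rintro ⟨g, hg, h⟩
  have h1 : (ev g)⁻¹ ∈ Ls := RCoset.mem_of_base_mul h.symm
  have h2 : ev g ∈ Ls := by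
    have := Ls.inv_mem h1
    rwa [inv_inv] at this
  obtain ⟨j, hj⟩ := pow_of_ev_mem g h2
  rw [hj] at hg
  exact not_ends_pow j hg

theorem a_iff (v : RCoset Ls) (h1 : v ≠ st) (h2 : v.mul (gn .a) ≠ st) :
    v.mul (gn .a) ∈ Cs ↔ v ∈ Cs := by
  have := a_InC_iff v
  constructor
  · intro h
    rcases this.1 (Or.inl h) with h3 | h3
    · exact h3
    · exact absurd h3 h1
  · intro h
    rcases this.2 (Or.inl h) with h3 | h3
    · exact h3
    · exact absurd h3 h2

/-! ### Elements of `L` at the base coset -/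

theorem mul_eq_st_iff (v : RCoset Ls) (g : Hg) (hg : g ∈ Ls) : v.mul g = st ↔ v = st := by
  have h1 : st.mul g⁻¹ = st := RCoset.base_mul (Ls.inv_mem hg)
  have h2 : st.mul g = st := RCoset.base_mul hg
  constructor
  · intro h
    have := congrArg (fun u : RCoset Ls => u.mul g⁻¹) h
    simpa [h1] using this
  · rintro rfl
    exact h2

theorem w_InC_iff (v : RCoset Ls) : InC (v.mul (gn .w)) ↔ InC v := by
  unfold InC
  rw [w_iff, mul_eq_st_iff v _ w_mem]

theorem winv_InC_iff (v : RCoset Ls) : InC (v.mul (gn .w)⁻¹) ↔ InC v := by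
  unfold InC
  rw [winv_iff, mul_eq_st_iff v _ (Ls.inv_mem w_mem)]

/-! ### The points of `Cs` are fixed by `y` and `l` -/

theorem ev_conj (g : F3) : ∃ k : ℤ, (∀ n, ev g * pn n * (ev g)⁻¹ = pn (n + k)) ∧
    ev g * gn .l * (ev g)⁻¹ = gn .l := by
  have hof : ∀ c : Al, (∀ n, gn (evv c) * pn n * (gn (evv c))⁻¹ = pn (n + 1)) ∧
      gn (evv c) * gn .l * (gn (evv c))⁻¹ = gn .l := by
    intro c
    cases c
    · exact ⟨a_pn, rel_al⟩
    · exact ⟨b_pn, rel_bl⟩
    · exact ⟨w_pn, rel_wl⟩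
  induction g using FreeGroup.induction_on with
  | C1 => exact ⟨0, by simp⟩
  | of c =>
    rw [ev_of]
    exact ⟨1, hof c⟩
  | inv_of c _ =>
    rw [map_inv, ev_of]
    refine ⟨-1, ?_, ?_⟩
    · intro n
      have := (hof c).1 (n + -1)
      rw [neg_add_cancel_right] at this
      rw [← this]
      group
    · have := (hof c).2
      rw [mul_inv_eq_iff_eq_mul] at this
      rw [inv_inv, mul_assoc, ← this]
      group
  | mul a b ha hb =>
    obtain ⟨k, hk1, hk2⟩ := ha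
    obtain ⟨j, hj1, hj2⟩ := hb
    refine ⟨j + k, ?_, ?_⟩
    · intro n
      have : ev (a * b) * pn n * (ev (a * b))⁻¹
          = ev a * (ev b * pn n * (ev b)⁻¹) * (ev a)⁻¹ := by
        rw [map_mul]
        group
      rw [this, hj1, hk1, add_assoc]
    · have : ev (a * b) * gn .l * (ev (a * b))⁻¹
          = ev a * (ev b * gn .l * (ev b)⁻¹) * (ev a)⁻¹ := by
        rw [map_mul]
        group
      rw [this, hj2, hk2]

theorem fix_of_conj {h g : Hg} (hg : h * g * h⁻¹ ∈ Ls) : (st.mul h).mul g = st.mul h := by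
  have h1 : (st.mul h).mul g = (st.mul (h * g * h⁻¹)).mul h := by
    rw [RCoset.mul_mul, RCoset.mul_mul]
    congr 1
    group
  rw [h1]
  congr 1
  exact RCoset.base_mul hg

theorem Cs_fix {v : RCoset Ls} (hv : InC v) : v.mul (gn .y) = v ∧ v.mul (gn .l) = v := by
  rcases hv with ⟨g, _, rfl⟩ | rfl
  · obtain ⟨k, h1, h2⟩ := ev_conj g⁻¹
    rw [map_inv] at h1 h2
    constructor
    · apply fix_of_conj
      rw [← pn_zero, h1]
      exact pn_mem _
    · apply fix_of_conj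
      rw [h2]
      exact l_mem
  · exact ⟨RCoset.base_mul y_mem, RCoset.base_mul l_mem⟩

theorem InC_fix {v : RCoset Ls} (hv : InC v) {g : Hg}
    (hg : g ∈ Subgroup.closure {gn .y, gn .l}) : v.mul g = v := by
  induction hg using Subgroup.closure_induction with
  | mem s hs =>
    rcases hs with rfl | rfl
    · exact (Cs_fix hv).1
    · exact (Cs_fix hv).2
  | one => simp
  | mul s t _ _ hs ht => rw [← RCoset.mul_mul, hs, ht]
  | inv s _ hs =>
    have := congrArg (fun u : RCoset Ls => u.mul s⁻¹) hs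
    simpa using this.symm

theorem yl_iff (v : RCoset Ls) {g : Hg} (hg : g ∈ Subgroup.closure {gn .y, gn .l}) :
    (v.mul g ∈ Cs ↔ v ∈ Cs) ∧ (InC (v.mul g) ↔ InC v) := by
  have hg' : g⁻¹ ∈ Subgroup.closure {gn .y, gn .l} := Subgroup.inv_mem _ hg
  have hback : InC (v.mul g) → v.mul g = v := by
    intro h
    have h1 := InC_fix h hg'
    rw [RCoset.mul_mul_inv] at h1
    exact h1.symm
  refine ⟨⟨fun h => ?_, fun h => ?_⟩, ⟨fun h => ?_, fun h => ?_⟩⟩
  · rw [← hback (Or.inl h)]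
    exact h
  · rw [InC_fix (Or.inl h) hg]
    exact h
  · rw [← hback h]
    exact h
  · rw [InC_fix h hg]
    exact h

end Tame222b14
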