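import Pool.Agent.Lib.MP_222b14_al.Defs

/-!
# Holonomy of an edge labelling

`E : RCoset S → X → Γ` labels the edge from `v` to `v x` by `E v x`. `hol val E v w` is the product
of the labels along the path which starts at `v` and reads the word `w`; `holF val E v g` is the
same for an element `g` of the free group.
-/

namespace Tame222b14

section Hol

variable {G : Type} [Group G] {S : Subgroup G} {X : Type} {Γ : Type} [Group Γ]

/-- The value of a word. -/
def wval (val : X → G) (w : List (X × Bool)) : G := FreeGroup.lift val (FreeGroup.mk w)

@[simp] theorem wval_nil (val : X → G) : wval val [] = 1 := by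
  simp [wval]

@[simp] theorem wval_cons_true (val : X → G) (x : X) (w : List (X × Bool)) :
    wval val ((x, true) :: w) = val x * wval val w := by
  simp [wval]

@[simp] theorem wval_cons_false (val : X → G) (x : X) (w : List (X × Bool)) :
    wval val ((x, false) :: w) = (val x)⁻¹ * wval val w := by
  simp [wval]

theorem wval_append (val : X → G) (u w : List (X × Bool)) :
    wval val (u ++ w) = wval val u * wval val w := by
  simp [wval, ← FreeGroup.mul_mk]

/-- The holonomy of the path from `v` which reads the word `w`. -/
def hol (val : X → G) (E : RCoset S → X → Γ) : RCoset S → List (X × Bool) → Γ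
  | _, [] => 1
  | v, (x, true) :: w => E v x * hol val E (v.mul (val x)) w
  | v, (x, false) :: w => (E (v.mul (val x)⁻¹) x)⁻¹ * hol val E (v.mul (val x)⁻¹) w

variable (val : X → G) (E : RCoset S → X → Γ)

@[simp] theorem hol_nil (v : RCoset S) : hol val E v [] = 1 := rfl

@[simp] theorem hol_cons_true (v : RCoset S) (x : X) (w : List (X × Bool)) :
    hol val E v ((x, true) :: w) = E v x * hol val E (v.mul (val x)) w := rfl

@[simp] theorem hol_cons_false (v : RCoset S) (x : X) (w : List (X × Bool)) :
    hol val E v ((x, false) :: w)
      = (E (v.mul (val x)⁻¹) x)⁻¹ * hol val E (v.mul (val x)⁻¹) w := rfl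

theorem hol_append (v : RCoset S) (u w : List (X × Bool)) :
    hol val E v (u ++ w) = hol val E v u * hol val E (v.mul (wval val u)) w := by
  induction u generalizing v with
  | nil => simp
  | cons e u ih =>
    rcases e with ⟨x, b⟩
    cases b
    · simp [ih, RCoset.mul_mul, mul_assoc]
    · simp [ih, RCoset.mul_mul, mul_assoc]

theorem hol_cancel (v : RCoset S) (x : X) (b : Bool) (w : List (X × Bool)) :
    hol val E v ((x, b) :: (x, !b) :: w) = hol val E v w := by
  cases b <;> simp

theorem hol_step (v : RCoset S) {u w : List (X × Bool)} (h : FreeGroup.Red.Step u w) :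
    hol val E v u = hol val E v w := by
  cases h with
  | not => rw [hol_append, hol_append, hol_cancel]

/-- The holonomy of the path from `v` which reads the element `g` of the free group. -/
def holF (v : RCoset S) (g : FreeGroup X) : Γ :=
  Quot.liftOn g (fun w => hol val E v w) (fun _ _ h => hol_step val E v h)

@[simp] theorem holF_mk (v : RCoset S) (w : List (X × Bool)) :
    holF val E v (FreeGroup.mk w) = hol val E v w := rfl

@[simp] theorem holF_one (v : RCoset S) : holF val E v 1 = 1 := rfl

theorem holF_mul (v : RCoset S) (g h : FreeGroup X) :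
    holF val E v (g * h) = holF val E v g * holF val E (v.mul (FreeGroup.lift val g)) h := by
  induction g using Quot.inductionOn with
  | h u =>
    induction h using Quot.inductionOn with
    | h w => exact hol_append val E v u w

@[simp] theorem holF_of (v : RCoset S) (x : X) : holF val E v (FreeGroup.of x) = E v x := by
  show hol val E v [(x, true)] = _
  simp

theorem holF_inv (v : RCoset S) (g : FreeGroup X) :
    holF val E v g⁻¹ = (holF val E (v.mul (FreeGroup.lift val g)⁻¹) g)⁻¹ := by
  have h := holF_mul val E v g⁻¹ g
  rw [inv_mul_cancel, holF_one, map_inv] at h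
  exact eq_inv_of_mul_eq_one_left h.symm

/-- Conjugation: the holonomy of `k g k⁻¹` for `g` in the kernel. -/
theorem holF_conj (v : RCoset S) (g k : FreeGroup X) (hg : FreeGroup.lift val g = 1) :
    holF val E v (k * g * k⁻¹)
      = holF val E v k * holF val E (v.mul (FreeGroup.lift val k)) g * (holF val E v k)⁻¹ := by
  rw [holF_mul, holF_mul, holF_inv]
  simp [hg, RCoset.mul_mul]

/-- The bad lemma: if every relator has trivial holonomy at all but finitely many places, then so
has every element of the normal closure. -/
theorem bad_finite {R : Set (FreeGroup X)}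
    (hR : ∀ r ∈ R, FreeGroup.lift val r = 1 ∧ {v | holF val E v r ≠ 1}.Finite)
    {g : FreeGroup X} (hg : g ∈ Subgroup.normalClosure R) :
    FreeGroup.lift val g = 1 ∧ {v | holF val E v g ≠ 1}.Finite := by
  let N : Subgroup (FreeGroup X) :=
    { carrier := {g | FreeGroup.lift val g = 1 ∧ {v | holF val E v g ≠ 1}.Finite}
      one_mem' := by simp
      mul_mem' := by
        rintro a b ⟨ha, ha'⟩ ⟨hb, hb'⟩
        refine ⟨by simp [ha, hb], (ha'.union hb').subset ?_⟩
        intro v hv
        by_contra hcon
        simp only [Set.mem_union, Set.mem_ofPred_eq, not_or, not_not] at hcon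
        apply hv
        rw [holF_mul, ha, hcon.1]
        simp [hcon.2]
      inv_mem' := by
        rintro a ⟨ha, ha'⟩
        refine ⟨by simp [ha], ha'.subset ?_⟩
        intro v hv hcon
        apply hv
        rw [holF_inv, ha]
        simp [hcon] }
  have hN : N.Normal := by
    refine ⟨?_⟩
    rintro a ⟨ha, ha'⟩ k
    refine ⟨by simp [ha], ?_⟩
    refine (ha'.preimage (f := fun v => v.mul (FreeGroup.lift val k))
      ((RCoset.mul_injective _).injOn)).subset ?_
    intro v hv hcon
    apply hv
    rw [holF_conj val E v a k ha, hcon]
    simp
  have hle : Subgroup.normalClosure R ≤ N := Subgroup.normalClosure_le_normal (fun r hr => hR r hr)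
  exact hle hg

/-- If every relator has trivial holonomy everywhere, then so has every element of the normal
closure. -/
theorem flat_of_rels {R : Set (FreeGroup X)}
    (hR : ∀ r ∈ R, FreeGroup.lift val r = 1 ∧ ∀ v, holF val E v r = 1)
    {g : FreeGroup X} (hg : g ∈ Subgroup.normalClosure R) (v : RCoset S) :
    holF val E v g = 1 := by
  let N : Subgroup (FreeGroup X) :=
    { carrier := {g | FreeGroup.lift val g = 1 ∧ ∀ v, holF val E v g = 1}
      one_mem' := by simp
      mul_mem' := by
        rintro a b ⟨ha, ha'⟩ ⟨hb, hb'⟩
        refine ⟨by simp [ha, hb], fun v => ?_⟩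
        rw [holF_mul, ha, ha']
        simp [hb']
      inv_mem' := by
        rintro a ⟨ha, ha'⟩
        refine ⟨by simp [ha], fun v => ?_⟩
        rw [holF_inv, ha', inv_one] }
  have hN : N.Normal := by
    refine ⟨?_⟩
    rintro a ⟨ha, ha'⟩ k
    refine ⟨by simp [ha], fun v => ?_⟩
    rw [holF_conj val E v a k ha, ha']
    simp
  have hle : Subgroup.normalClosure R ≤ N := Subgroup.normalClosure_le_normal (fun r hr => hR r hr)
  exact (hle hg).2 v

/-- Changing the gauge: the holonomy of `A_v E(v,x) A_{vx}⁻¹`. -/
theorem hol_gauge (A : RCoset S → Γ) (v : RCoset S) (w : List (X × Bool)) :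
    hol val (fun v x => A v * E v x * (A (v.mul (val x)))⁻¹) v w
      = A v * hol val E v w * (A (v.mul (wval val w)))⁻¹ := by
  induction w generalizing v with
  | nil => simp
  | cons e w ih =>
    rcases e with ⟨x, b⟩
    cases b
    · simp only [hol_cons_false, ih, wval_cons_false, RCoset.mul_inv_mul]
      simp [RCoset.mul_mul, mul_assoc]
    · simp only [hol_cons_true, ih, wval_cons_true]
      simp [RCoset.mul_mul, mul_assoc]

theorem holF_gauge (A : RCoset S → Γ) (v : RCoset S) (g : FreeGroup X) :
    holF val (fun v x => A v * E v x * (A (v.mul (val x)))⁻¹) v g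
      = A v * holF val E v g * (A (v.mul (FreeGroup.lift val g)))⁻¹ := by
  induction g using Quot.inductionOn with
  | h w => exact hol_gauge val E A v w

/-- If all labels lie in a subgroup, then so does the holonomy. -/
theorem hol_mem (M : Subgroup Γ) (hM : ∀ v x, E v x ∈ M) (v : RCoset S) (w : List (X × Bool)) :
    hol val E v w ∈ M := by
  induction w generalizing v with
  | nil => exact M.one_mem
  | cons e w ih =>
    rcases e with ⟨x, b⟩
    cases b
    · exact M.mul_mem (M.inv_mem (hM _ _)) (ih _)
    · exact M.mul_mem (hM _ _) (ih _)

/-- Substitution: the labelling of a second generating set by the holonomies of words. -/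
theorem holF_subst {Y : Type} (val' : Y → G) (u : Y → FreeGroup X)
    (hu : ∀ y, FreeGroup.lift val (u y) = val' y) (v : RCoset S) (g : FreeGroup Y) :
    holF val' (fun v y => holF val E v (u y)) v g = holF val E v (FreeGroup.lift u g) := by
  have key : ∀ (w : List (Y × Bool)) (v : RCoset S),
      hol val' (fun v y => holF val E v (u y)) v w
        = holF val E v (FreeGroup.lift u (FreeGroup.mk w)) := by
    intro w
    induction w with
    | nil => intro v; rfl
    | cons e w ih =>
      intro v
      rcases e with ⟨x, b⟩
      have h1 : FreeGroup.lift u (FreeGroup.mk ((x, b) :: w))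
          = (cond b (u x) (u x)⁻¹) * FreeGroup.lift u (FreeGroup.mk w) := by
        simp
      rw [h1, holF_mul]
      cases b
      · simp only [hol_cons_false, ih, cond_false, map_inv, hu, holF_inv]
      · simp only [hol_cons_true, ih, cond_true, hu]
  induction g using Quot.inductionOn with
  | h w => exact key w v

end Hol

end Tame222b14
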