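import Pool.Agent.Lib.MP_222b14_al.HNNSub
import Pool.Agent.Lib.MP_222b14_al.FreeInt

/-!
# The group of labels

`M2` is generated by `l, m, f, h, q_k` (`k ∈ ℤ`) with the relations
`f (q_k m q_k⁻¹) f⁻¹ = q_k` and `h (q_k l q_k⁻¹) h⁻¹ = q_{k-1}`. It is a double HNN extension of the
free group on `l, m, q_k`.
-/

namespace Tame222b14

/-- The first isomorphism. -/
noncomputable def phi1 : iA.range ≃* iB.range :=
  (MonoidHom.ofInjective iA_injective).symm.trans (MonoidHom.ofInjective iB_injective)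

theorem phi1_apply (w : FreeGroup ℤ) : (phi1 ⟨iA w, ⟨w, rfl⟩⟩ : NZ) = iB w := by
  have h1 : (MonoidHom.ofInjective iA_injective).symm ⟨iA w, ⟨w, rfl⟩⟩ = w := by
    rw [MulEquiv.symm_apply_eq]
    rfl
  show ((MonoidHom.ofInjective iB_injective)
    ((MonoidHom.ofInjective iA_injective).symm ⟨iA w, ⟨w, rfl⟩⟩) : NZ) = iB w
  rw [h1]
  rfl

/-- The first HNN extension. -/
abbrev M1 : Type := HNNExtension NZ iA.range iB.range phi1

/-- The inclusion of the base. -/
noncomputable def e1 : NZ →* M1 := HNNExtension.of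

theorem e1_injective : Function.Injective e1 := HNNExtension.of_injective phi1

/-- The third embedding. -/
noncomputable def jA1 : FreeGroup ℤ →* M1 := e1.comp jA
/-- The fourth embedding. -/
noncomputable def jB1 : FreeGroup ℤ →* M1 := e1.comp jB

theorem jA1_injective : Function.Injective jA1 := e1_injective.comp jA_injective
theorem jB1_injective : Function.Injective jB1 := e1_injective.comp jB_injective

/-- The second isomorphism. -/
noncomputable def phi2 : jA1.range ≃* jB1.range :=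
  (MonoidHom.ofInjective jA1_injective).symm.trans (MonoidHom.ofInjective jB1_injective)

theorem phi2_apply (w : FreeGroup ℤ) : (phi2 ⟨jA1 w, ⟨w, rfl⟩⟩ : M1) = jB1 w := by
  have h1 : (MonoidHom.ofInjective jA1_injective).symm ⟨jA1 w, ⟨w, rfl⟩⟩ = w := by
    rw [MulEquiv.symm_apply_eq]
    rfl
  show ((MonoidHom.ofInjective jB1_injective)
    ((MonoidHom.ofInjective jA1_injective).symm ⟨jA1 w, ⟨w, rfl⟩⟩) : M1) = jB1 w
  rw [h1]
  rfl

/-- The second HNN extension. -/
abbrev M2 : Type := HNNExtension M1 jA1.range jB1.range phi2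

/-- The inclusion of the first HNN extension. -/
noncomputable def e2 : M1 →* M2 := HNNExtension.of

theorem e2_injective : Function.Injective e2 := HNNExtension.of_injective phi2

/-- The inclusion of the base. -/
noncomputable def emb : NZ →* M2 := e2.comp e1

/-- The stable letters. -/
noncomputable def f1 : M1 := HNNExtension.t
/-- The stable letters. -/
noncomputable def ff : M2 := e2 f1
/-- The stable letters. -/
noncomputable def hh : M2 := HNNExtension.t

theorem ff_conj (k : ℤ) : ff * emb (qq k * qm * (qq k)⁻¹) * ff⁻¹ = emb (qq k) := by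
  have h1 : f1 * e1 (iA (FreeGroup.of k)) * f1⁻¹ = e1 (iB (FreeGroup.of k)) := by
    have := HNNExtension.equiv_eq_conj (φ := phi1) ⟨iA (FreeGroup.of k), ⟨_, rfl⟩⟩
    rw [phi1_apply] at this
    exact this.symm
  rw [iA_of, iB_of] at h1
  have h2 := congrArg e2 h1
  simp only [map_mul, map_inv] at h2 ⊢
  exact h2

theorem hh_conj (k : ℤ) : hh * emb (qq k * ql * (qq k)⁻¹) * hh⁻¹ = emb (qq (k - 1)) := by
  have h1 : hh * e2 (jA1 (FreeGroup.of k)) * hh⁻¹ = e2 (jB1 (FreeGroup.of k)) := by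
    have := HNNExtension.equiv_eq_conj (φ := phi2) ⟨jA1 (FreeGroup.of k), ⟨_, rfl⟩⟩
    rw [phi2_apply] at this
    exact this.symm
  have h2 : jA1 (FreeGroup.of k) = e1 (qq k * ql * (qq k)⁻¹) := by
    show e1 (jA (FreeGroup.of k)) = _
    rw [jA_of]
  have h3 : jB1 (FreeGroup.of k) = e1 (qq (k - 1)) := by
    show e1 (jB (FreeGroup.of k)) = _
    rw [jB_of]
  rw [h2, h3] at h1
  exact h1

/-- The subgroup generated by `l, m, f, h` and `q_k` for `k ≤ K`. -/
noncomputable def MK (K : ℤ) : Subgroup M2 :=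
  Subgroup.closure ({emb ql, emb qm, ff, hh} ∪ (fun k => emb (qq k)) '' {k | k ≤ K})

theorem MK_mono {K L : ℤ} (h : K ≤ L) : MK K ≤ MK L := by
  apply Subgroup.closure_mono
  apply Set.union_subset_union_right
  apply Set.image_mono
  intro k hk
  exact le_trans hk h

theorem emb_q_not_mem (K : ℤ) : emb (qq (K + 1)) ∉ MK K := by
  intro hmem
  -- the intermediate subgroup
  let P' : Subgroup M1 := Subgroup.closure ((HNNExtension.of : NZ →* M1) '' (PK K : Set NZ)
    ∪ {HNNExtension.t})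
  have hP' : ∀ g : NZ, e1 g ∈ P' ↔ g ∈ PK K := by
    intro g
    constructor
    · intro hg
      refine hnn_sub phi1 (PK K) ?_ g hg
      rintro ⟨_, w, rfl⟩
      rw [phi1_apply, iA_mem_iff, iB_mem_iff]
    · intro hg
      exact Subgroup.subset_closure (Or.inl ⟨g, hg, rfl⟩)
  have h2 : ∀ z ∈ MK K, z ∈ Subgroup.closure ((HNNExtension.of : M1 →* M2) '' (P' : Set M1)
      ∪ {HNNExtension.t}) := by
    intro z hz
    have hle : MK K ≤ Subgroup.closure ((HNNExtension.of : M1 →* M2) '' (P' : Set M1)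
        ∪ {HNNExtension.t}) := by
      unfold MK
      rw [Subgroup.closure_le]
      rintro y ((rfl | rfl | rfl | rfl) | ⟨k, hk, rfl⟩)
      · exact Subgroup.subset_closure (Or.inl ⟨e1 ql, (hP' ql).2 (ql_mem K), rfl⟩)
      · exact Subgroup.subset_closure (Or.inl ⟨e1 qm, (hP' qm).2 (qm_mem K), rfl⟩)
      · exact Subgroup.subset_closure (Or.inl ⟨f1, Subgroup.subset_closure (Or.inr rfl), rfl⟩)
      · exact Subgroup.subset_closure (Or.inr rfl)
      · exact Subgroup.subset_closure (Or.inl ⟨e1 (qq k), (hP' _).2 (qq_mem hk), rfl⟩)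
    exact hle hz
  have h3 : e1 (qq (K + 1)) ∈ P' := by
    refine hnn_sub phi2 P' ?_ _ (h2 _ hmem)
    rintro ⟨_, w, rfl⟩
    rw [phi2_apply]
    show e1 (jA w) ∈ P' ↔ e1 (jB w) ∈ P'
    rw [hP', hP', jA_mem_iff, jB_mem_iff]
  exact qq_not_mem K ((hP' _).1 h3)

theorem MK_exhaust (z : M2) : ∃ K : ℕ, z ∈ MK K := by
  have hmul : ∀ x y : M2, (∃ K : ℕ, x ∈ MK K) → (∃ K : ℕ, y ∈ MK K) → ∃ K : ℕ, x * y ∈ MK K := by
    rintro x y ⟨K, hK⟩ ⟨L, hL⟩
    refine ⟨max K L, Subgroup.mul_mem _ (MK_mono ?_ hK) (MK_mono ?_ hL)⟩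
    · exact_mod_cast le_max_left K L
    · exact_mod_cast le_max_right K L
  have hinv : ∀ x : M2, (∃ K : ℕ, x ∈ MK K) → ∃ K : ℕ, x⁻¹ ∈ MK K := by
    rintro x ⟨K, hK⟩
    exact ⟨K, Subgroup.inv_mem _ hK⟩
  have hN : ∀ g : NZ, ∃ K : ℕ, emb g ∈ MK K := by
    intro g
    induction g using FreeGroup.induction_on with
    | C1 => exact ⟨0, by rw [map_one]; exact Subgroup.one_mem _⟩
    | of x =>
      cases x with
      | l => exact ⟨0, Subgroup.subset_closure (Or.inl (Or.inl rfl))⟩
      | m => exact ⟨0, Subgroup.subset_closure (Or.inl (Or.inr (Or.inl rfl)))⟩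
      | q k =>
        refine ⟨k.toNat, Subgroup.subset_closure (Or.inr ⟨k, ?_, rfl⟩)⟩
        exact Int.self_le_toNat k
    | inv_of x h => rw [map_inv]; exact hinv _ h
    | mul a b ha hb => rw [map_mul]; exact hmul _ _ ha hb
  have hM1 : ∀ g : M1, ∃ K : ℕ, e2 g ∈ MK K := by
    intro g
    induction g using HNNExtension.induction_on with
    | of g => exact hN g
    | t => exact ⟨0, Subgroup.subset_closure (Or.inl (Or.inr (Or.inr (Or.inl rfl))))⟩
    | mul x y hx hy => rw [map_mul]; exact hmul _ _ hx hy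
    | inv x hx => rw [map_inv]; exact hinv _ hx
  induction z using HNNExtension.induction_on with
  | of g => exact hM1 g
  | t => exact ⟨0, Subgroup.subset_closure (Or.inl (Or.inr (Or.inr (Or.inr rfl))))⟩
  | mul x y hx hy => exact hmul _ _ hx hy
  | inv x hx => exact hinv _ hx

/-- The group of labels and its properties. -/
theorem exists_label_group : ∃ (Γ : Type) (_ : Group Γ) (l m f h : Γ) (q : ℤ → Γ)
    (M : ℕ → Subgroup Γ),
    (∀ k, f * (q k * m * (q k)⁻¹) * f⁻¹ = q k) ∧
    (∀ k, h * (q k * l * (q k)⁻¹) * h⁻¹ = q (k - 1)) ∧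
    Monotone M ∧ (∀ γ, ∃ K, γ ∈ M K) ∧ ∀ K n : ℕ, K < n → q n ∉ M K := by
  refine ⟨M2, inferInstance, emb ql, emb qm, ff, hh, fun k => emb (qq k), fun K => MK K,
    ?_, ?_, ?_, ?_, ?_⟩
  · intro k
    simpa only [map_mul, map_inv] using ff_conj k
  · intro k
    simpa only [map_mul, map_inv] using hh_conj k
  · intro K L h
    exact MK_mono (by exact_mod_cast h)
  · exact MK_exhaust
  · intro K n h hmem
    have h1 : ((n : ℤ) - 1) + 1 = n := by ring
    apply emb_q_not_mem ((n : ℤ) - 1)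
    rw [h1]
    exact MK_mono (by omega) hmem

end Tame222b14
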