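import Pool.Agent.Lib.MP_222b14_al.Defs

/-!
# Flat labellings and edge path groups
-/

namespace Tame222b14

namespace Cx

variable {K : Cx} {Γ : Type} [Group Γ]

/-- The product of the labels along a list of arcs. -/
def lab (lam : K.A → Γ) (w : List (K.A × Bool)) : Γ :=
  (w.map (fun e => cond e.2 (lam e.1) (lam e.1)⁻¹)).prod

variable (lam : K.A → Γ)

@[simp] theorem lab_nil : lab lam [] = 1 := rfl

@[simp] theorem lab_cons (e : K.A × Bool) (w : List (K.A × Bool)) :
    lab lam (e :: w) = cond e.2 (lam e.1) (lam e.1)⁻¹ * lab lam w := by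
  simp [lab]

theorem lab_three (a b c : K.A) :
    lab lam [(a, true), (b, true), (c, false)] = lam a * lam b * (lam c)⁻¹ := by
  simp [lab, mul_assoc]

theorem lab_two (a b : K.A) : lab lam [(a, true), (b, false)] = lam a * (lam b)⁻¹ := by
  simp [lab]

theorem lab_append (u w : List (K.A × Bool)) :
    lab lam (u ++ w) = lab lam u * lab lam w := by
  simp [lab]

theorem lab_inv (w : List (K.A × Bool)) : lab lam (inv w) = (lab lam w)⁻¹ := by
  induction w with
  | nil => simp [inv]
  | cons e w ih =>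
    rcases e with ⟨a, b⟩
    have h1 : inv ((a, b) :: w) = inv w ++ [(a, !b)] := by simp [inv]
    rw [h1, lab_append, ih]
    cases b <;> simp

theorem lab_step (hflat : ∀ c ∈ K.rel, lab lam c = 1) {u w : List (K.A × Bool)}
    (h : K.Step u w) : lab lam u = lab lam w := by
  cases h with
  | cancel u v a b =>
    rw [lab_append, lab_append]
    cases b <;> simp
  | disc u v c hc => rw [lab_append, lab_append, hflat c hc, lab_append, mul_one]
  | disc_inv u v c hc =>
    rw [lab_append, lab_append, lab_inv, hflat c hc, lab_append, inv_one, mul_one]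

/-- A flat labelling defines a homomorphism on the edge path group. -/
def piHom (hflat : ∀ c ∈ K.rel, lab lam c = 1) (p : K.N) : K.Pi1 p →* Γ where
  toFun := Quot.lift (fun a => lab lam a.1) (fun _ _ h => lab_step lam hflat h)
  map_one' := rfl
  map_mul' := by
    rintro ⟨a⟩ ⟨b⟩
    exact lab_append lam a.1 b.1

theorem piHom_cls (hflat : ∀ c ∈ K.rel, lab lam c = 1) (p : K.N) (a : K.Loop p) :
    piHom lam hflat p (cls a) = lab lam a.1 := rfl

/-- The gauge transformation of a labelling, along a walk. -/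
theorem lab_gauge (T : K.N → Γ) {p q : K.N} {w : List (K.A × Bool)} (h : K.IsWalk p w q) :
    lab (fun a => T (K.s a) * lam a * (T (K.t a))⁻¹) w = T p * lab lam w * (T q)⁻¹ := by
  induction w generalizing p with
  | nil =>
    have h1 : p = q := h
    subst h1
    simp
  | cons e w ih =>
    rcases e with ⟨a, b⟩
    cases b
    · obtain ⟨h1, h2⟩ := h
      rw [lab_cons, ih h2, lab_cons, h1]
      simp [mul_assoc]
    · obtain ⟨h1, h2⟩ := h
      rw [lab_cons, ih h2, lab_cons, h1]
      simp [mul_assoc]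

theorem lab_mem (M : Subgroup Γ) (hM : ∀ a, lam a ∈ M) (w : List (K.A × Bool)) :
    lab lam w ∈ M := by
  induction w with
  | nil => exact M.one_mem
  | cons e w ih =>
    rcases e with ⟨a, b⟩
    rw [lab_cons]
    cases b
    · exact M.mul_mem (M.inv_mem (hM _)) ih
    · exact M.mul_mem (hM _) ih

/-- The class of a closed walk, given as a list. -/
def pc {p : K.N} (w : List (K.A × Bool)) (h : K.IsWalk p w p) : K.Pi1 p :=
  cls (⟨w, h⟩ : {w : List (K.A × Bool) // K.IsWalk p w p})

theorem pc_congr {p : K.N} {u w : List (K.A × Bool)} (e : u = w) (h : K.IsWalk p u p) :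
    pc u h = pc w (e ▸ h) := by
  subst e
  rfl

theorem pc_mul {p : K.N} {u w : List (K.A × Bool)} (hu : K.IsWalk p u p) (hw : K.IsWalk p w p) :
    pc u hu * pc w hw = pc (u ++ w) (isWalk_append.2 ⟨p, hu, hw⟩) := rfl

theorem pc_inv {p : K.N} {u : List (K.A × Bool)} (hu : K.IsWalk p u p) :
    (pc u hu)⁻¹ = pc (inv u) (isWalk_inv hu) := rfl

theorem pc_step {p : K.N} {u w : List (K.A × Bool)} (hu : K.IsWalk p u p) (hw : K.IsWalk p w p)
    (h : K.Step u w) : pc u hu = pc w hw := cls_step h

theorem pc_surj {p : K.N} (g : K.Pi1 p) : ∃ w, ∃ h : K.IsWalk p w p, pc w h = g := by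
  obtain ⟨⟨w, h⟩, rfl⟩ := cls_surj g
  exact ⟨w, h, rfl⟩

theorem pc_cancel {p : K.N} (u v w : List (K.A × Bool))
    (h : K.IsWalk p (u ++ w ++ inv w ++ v) p) (h' : K.IsWalk p (u ++ v) p) :
    pc (u ++ w ++ inv w ++ v) h = pc (u ++ v) h' := (cancel_inv u v w h).2

theorem pc_cancel' {p : K.N} (u v w : List (K.A × Bool))
    (h : K.IsWalk p (u ++ inv w ++ w ++ v) p) (h' : K.IsWalk p (u ++ v) p) :
    pc (u ++ inv w ++ w ++ v) h = pc (u ++ v) h' := (cancel_inv' u v w h).2

/-- Criterion for the finite generation of the edge path groups: every flat labelling can be gauged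
into a finitely generated subgroup. -/
theorem fg_of_gauge (hrel : ∀ c ∈ K.rel, ∃ n, K.IsWalk n c n)
    (hK : ∀ (Γ : Type) [Group Γ] (lam : K.A → Γ), (∀ c ∈ K.rel, lab lam c = 1) →
      ∃ T : K.N → Γ, ∃ F : Set Γ, F.Finite ∧
        ∀ a : K.A, T (K.s a) * lam a * (T (K.t a))⁻¹ ∈ Subgroup.closure F) (p : K.N) :
    Group.FG (K.Pi1 p) := by
  classical
  -- reachable nodes and chosen walks
  let R : K.N → Prop := fun n => ∃ w, K.IsWalk p w n
  let τ : K.N → List (K.A × Bool) := fun n => if n = p then [] else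
    if h : R n then Classical.choose h else []
  have hτp : τ p = [] := by simp [τ]
  have hτ : ∀ n, R n → K.IsWalk p (τ n) n := by
    intro n hn
    by_cases h : n = p
    · subst h
      rw [hτp]
      rfl
    · simp only [τ, h, if_false, hn, dif_pos]
      exact Classical.choose_spec hn
  -- the closed walk through a walk `u` from `n` to `m`
  have hloop : ∀ {n m : K.N} (u : List (K.A × Bool)), R n → K.IsWalk n u m →
      K.IsWalk p (τ n ++ u ++ inv (τ m)) p := by
    intro n m u hn hu
    have hm : R m := ⟨τ n ++ u, isWalk_append.2 ⟨n, hτ n hn, hu⟩⟩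
    exact isWalk_append.2 ⟨m, isWalk_append.2 ⟨n, hτ n hn, hu⟩, isWalk_inv (hτ m hm)⟩
  have hwa : ∀ a : K.A, K.IsWalk (K.s a) [(a, true)] (K.t a) := fun a => ⟨rfl, rfl⟩
  let lam : K.A → K.Pi1 p := fun a =>
    if h : R (K.s a) then pc (τ (K.s a) ++ [(a, true)] ++ inv (τ (K.t a))) (hloop _ h (hwa a))
    else 1
  -- the trivial closed walk
  have htriv : ∀ n (hn : R n) (h : K.IsWalk p (τ n ++ inv (τ n)) p),
      pc (τ n ++ inv (τ n)) h = 1 := by
    intro n hn h
    have h2 : K.IsWalk p ([] ++ τ n ++ inv (τ n) ++ []) p := by simpa using h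
    have h3 := pc_cancel [] [] (τ n) h2 rfl
    have h4 : pc (τ n ++ inv (τ n)) h = pc ([] ++ τ n ++ inv (τ n) ++ []) h2 :=
      pc_congr (by simp) h
    rw [h4, h3]
    rfl
  have aux : ∀ (n m k : K.N) (c u : List (K.A × Bool)) (hn : R n) (hk : R k)
      (hc : K.IsWalk n c k) (hu2 : K.IsWalk k u m) (hcu : K.IsWalk n (c ++ u) m),
      (pc (τ n ++ c ++ inv (τ k)) (hloop c hn hc))
        * pc (τ k ++ u ++ inv (τ m)) (hloop u hk hu2)
        = pc (τ n ++ (c ++ u) ++ inv (τ m)) (hloop (c ++ u) hn hcu) := by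
    intro n m k c u hn hk hc hu2 hcu
    rw [pc_mul]
    have h3 : K.IsWalk p ((τ n ++ c) ++ inv (τ k) ++ τ k ++ (u ++ inv (τ m))) p := by
      have := isWalk_append.2 ⟨p, hloop c hn hc, hloop u hk hu2⟩
      simpa using this
    have h4 : K.IsWalk p ((τ n ++ c) ++ (u ++ inv (τ m))) p := by
      have := hloop (c ++ u) hn hcu
      simpa using this
    have h5 := pc_cancel' (τ n ++ c) (u ++ inv (τ m)) (τ k) h3 h4
    rw [pc_congr (w := (τ n ++ c) ++ inv (τ k) ++ τ k ++ (u ++ inv (τ m))) (by simp), h5]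
    exact pc_congr (by simp) _
  -- the label of a walk
  have hlab : ∀ (u : List (K.A × Bool)) (n m : K.N) (hn : R n) (hu : K.IsWalk n u m),
      lab lam u = pc (τ n ++ u ++ inv (τ m)) (hloop u hn hu) := by
    intro u
    induction u with
    | nil =>
      intro n m hn hu
      have h1 : n = m := hu
      subst h1
      have h2 : K.IsWalk p (τ n ++ inv (τ n)) p := by simpa using hloop [] hn hu
      rw [lab_nil, ← htriv n hn h2]
      exact pc_congr (by simp) _
    | cons e u ih =>
      intro n m hn hu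
      rcases e with ⟨a, b⟩
      cases b
      · -- backwards
        obtain ⟨h1, h2⟩ := hu
        subst h1
        have hs : R (K.s a) := ⟨τ (K.t a) ++ [(a, false)],
          isWalk_append.2 ⟨_, hτ _ hn, rfl, rfl⟩⟩
        have hc : K.IsWalk (K.t a) [(a, false)] (K.s a) := ⟨rfl, rfl⟩
        have e2 : (lam a)⁻¹
            = pc (τ (K.t a) ++ [(a, false)] ++ inv (τ (K.s a))) (hloop _ hn hc) := by
          have e3 : lam a = pc (τ (K.s a) ++ [(a, true)] ++ inv (τ (K.t a)))
              (hloop _ hs (hwa a)) := by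
            simp only [lam, hs, dif_pos]
          rw [e3, pc_inv]
          exact pc_congr (by simp [inv, Function.comp_def]) _
        rw [lab_cons, ih _ m hs h2]
        simp only [cond_false]
        rw [e2]
        exact aux (K.t a) m (K.s a) [(a, false)] u hn hs hc h2 ⟨rfl, h2⟩
      · obtain ⟨h1, h2⟩ := hu
        subst h1
        have ht : R (K.t a) := ⟨τ (K.s a) ++ [(a, true)],
          isWalk_append.2 ⟨K.s a, hτ _ hn, rfl, rfl⟩⟩
        have e2 : lam a = pc (τ (K.s a) ++ [(a, true)] ++ inv (τ (K.t a)))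
            (hloop _ hn (hwa a)) := by
          simp only [lam, hn, dif_pos]
        rw [lab_cons, ih _ m ht h2]
        simp only [cond_true]
        rw [e2]
        exact aux (K.s a) m (K.t a) [(a, true)] u hn ht (hwa a) h2 ⟨rfl, h2⟩
  -- labels are trivial outside the component
  have hlab0 : ∀ (u : List (K.A × Bool)) (n m : K.N), ¬ R n → K.IsWalk n u m →
      lab lam u = 1 := by
    intro u
    induction u with
    | nil => intro n m _ _; rfl
    | cons e u ih =>
      intro n m hn hu
      rcases e with ⟨a, b⟩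
      cases b
      · obtain ⟨h1, h2⟩ := hu
        have hs : ¬ R (K.s a) := by
          rintro ⟨w, hw⟩
          exact hn ⟨w ++ [(a, true)], isWalk_append.2 ⟨K.s a, hw, rfl, h1.symm⟩⟩
        rw [lab_cons, ih _ m hs h2]
        simp [lam, hs]
      · obtain ⟨h1, h2⟩ := hu
        have hs : ¬ R (K.s a) := h1 ▸ hn
        have ht : ¬ R (K.t a) := by
          rintro ⟨w, hw⟩
          exact hn ⟨w ++ [(a, false)], isWalk_append.2 ⟨K.t a, hw, rfl, h1.symm⟩⟩
        rw [lab_cons, ih _ m ht h2]
        simp [lam, hs]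
  have hflat : ∀ c ∈ K.rel, lab lam c = 1 := by
    intro c hc
    obtain ⟨n, hn⟩ := hrel c hc
    by_cases hR : R n
    · rw [hlab c n n hR hn]
      have h1 : K.IsWalk p (τ n ++ inv (τ n)) p :=
        isWalk_append.2 ⟨n, hτ n hR, isWalk_inv (hτ n hR)⟩
      rw [pc_step _ h1 (Step.disc (K := K) (τ n) (inv (τ n)) c hc)]
      exact htriv n hR h1
    · exact hlab0 c n n hR hn
  obtain ⟨T, F, hF, hT⟩ := hK (K.Pi1 p) lam hflat
  -- conclusion
  have hcls : ∀ g : K.Pi1 p, g ∈ Subgroup.closure ((fun f => (T p)⁻¹ * f * T p) '' F) := by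
    intro g
    obtain ⟨u, hu, rfl⟩ := pc_surj g
    have hRp : R p := ⟨[], rfl⟩
    have h1 := hlab u p p hRp hu
    have h2 : pc (τ p ++ u ++ inv (τ p)) (hloop u hRp hu) = pc u hu :=
      pc_congr (by simp [hτp, inv]) _
    rw [h2] at h1
    have h3 := lab_gauge lam T hu
    have h4 := lab_mem (fun a => T (K.s a) * lam a * (T (K.t a))⁻¹) (Subgroup.closure F) hT u
    rw [h3, h1] at h4
    have h5 : ∀ γ ∈ Subgroup.closure F,
        (T p)⁻¹ * γ * T p ∈ Subgroup.closure ((fun f => (T p)⁻¹ * f * T p) '' F) := by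
      intro γ hγ
      have h6 : (MulAut.conj (T p)⁻¹).toMonoidHom γ
          ∈ (Subgroup.closure F).map (MulAut.conj (T p)⁻¹).toMonoidHom := ⟨γ, hγ, rfl⟩
      rw [MonoidHom.map_closure] at h6
      have h7 : (MulAut.conj (T p)⁻¹).toMonoidHom γ = (T p)⁻¹ * γ * T p := by simp
      rw [h7] at h6
      have h8 : ((MulAut.conj (T p)⁻¹).toMonoidHom : K.Pi1 p → K.Pi1 p) '' F
          = (fun f => (T p)⁻¹ * f * T p) '' F := by
        ext z
        simp
      rw [h8] at h6
      exact h6
    have h9 := h5 _ h4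
    have h10 : (T p)⁻¹ * (T p * pc u hu * (T p)⁻¹) * T p = pc u hu := by group
    rwa [h10] at h9
  refine ⟨⟨(hF.image (fun f => (T p)⁻¹ * f * T p)).toFinset, ?_⟩⟩
  rw [Set.Finite.coe_toFinset]
  exact Subgroup.eq_top_iff' _ |>.2 hcls

end Cx

end Tame222b14
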