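import Pool.Agent.Lib.MP_222b14_al.Comb
import Pool.Agent.Lib.MP_222b14_al.Pi1
import Pool.Agent.Lib.MP_222b14_al.Gauge

/-!
# A criterion for non-tameness
-/

namespace Tame222b14

section NonTame

variable {H : Type} [Group H] (P : FinPres H) {S : Subgroup H} {Γ : Type} [Group Γ]

/-- The labelling of the incidences which belongs to an edge labelling. -/
def incLab (E : RCoset S → P.X → Γ) : Inc P S → Γ
  | .src _ _ => 1
  | .tgt v x => E v x
  | .corner v r i => hol P.val E v (r.1.take i)
  | .side v r i =>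
      if (r.1.get i).2 = true then hol P.val E v (r.1.take i)
      else hol P.val E v (r.1.take (i.1 + 1))

theorem incLab_tri (E : RCoset S → P.X → Γ) {a b c : Inc P S} (h : Tri P S a b c) :
    incLab P E a * incLab P E b = incLab P E c := by
  cases h with
  | pos_src v r i h =>
    show (if (r.1.get i).2 = true then hol P.val E v (r.1.take i)
      else hol P.val E v (r.1.take (i.1 + 1))) * 1 = hol P.val E v (r.1.take i.1)
    rw [if_pos h, mul_one]
  | pos_tgt v r i h =>
    show (if (r.1.get i).2 = true then hol P.val E v (r.1.take i)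
      else hol P.val E v (r.1.take (i.1 + 1)))
        * E (startVert P (cornerVert P v r.1 i) (r.1.get i)) (r.1.get i).1
        = hol P.val E v (r.1.take (i.1 + 1))
    rw [if_pos h, startVert_pos P _ h, take_succ_get, hol_append]
    have h1 : r.1.get i = ((r.1.get i).1, true) := by rw [← h]
    have h2 : hol P.val E (v.mul (wval P.val (r.1.take i.1))) [r.1.get i]
        = E (cornerVert P v r.1 i) (r.1.get i).1 := by
      rw [h1, hol_cons_true, hol_nil, mul_one]
      rfl
    rw [h2]
  | neg_src v r i h =>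
    show (if (r.1.get i).2 = true then hol P.val E v (r.1.take i)
      else hol P.val E v (r.1.take (i.1 + 1))) * 1 = hol P.val E v (r.1.take (i.1 + 1))
    rw [if_neg (fun hc => Bool.false_ne_true (h.symm.trans hc)), mul_one]
  | neg_tgt v r i h =>
    show (if (r.1.get i).2 = true then hol P.val E v (r.1.take i)
      else hol P.val E v (r.1.take (i.1 + 1)))
        * E (startVert P (cornerVert P v r.1 i) (r.1.get i)) (r.1.get i).1
        = hol P.val E v (r.1.take i.1)
    rw [if_neg (fun hc => Bool.false_ne_true (h.symm.trans hc)), startVert_neg P _ h,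
      take_succ_get, hol_append]
    have h1 : r.1.get i = ((r.1.get i).1, false) := by rw [← h]
    have h2 : hol P.val E (v.mul (wval P.val (r.1.take i.1))) [r.1.get i]
        = (E ((cornerVert P v r.1 i).mul (P.val (r.1.get i).1)⁻¹) (r.1.get i).1)⁻¹ := by
      rw [h1, hol_cons_false, hol_nil, mul_one]
      rfl
    rw [h2]
    group

/-- The walk in the complement which reads a word. -/
theorem exists_walk (E : RCoset S → P.X → Γ) (C : Set (Cell P S)) :
    ∀ (w : List (P.X × Bool)) (v : RCoset S),
      (∀ j ≤ w.length, Cell.vert (P := P) (v.mul (wval P.val (w.take j))) ∉ C) →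
      ∃ W, (compl P S C).IsWalk (Cell.vert v) W (Cell.vert (v.mul (wval P.val w))) ∧
        Cx.lab (K := compl P S C) (fun a => incLab P E a.1) W = hol P.val E v w := by
  intro w
  induction w with
  | nil =>
    intro v _
    refine ⟨[], ?_, rfl⟩
    show Cell.vert v = Cell.vert (v.mul (wval P.val []))
    simp
  | cons e w ih =>
    intro v hv
    rcases e with ⟨x, b⟩
    have hv0 : Cell.vert (P := P) v ∉ C := by
      have := hv 0 (Nat.zero_le _)
      simpa using this
    cases b
    · -- negative letter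
      have hw : ∀ j ≤ w.length,
          Cell.vert (P := P) ((v.mul (P.val x)⁻¹).mul (wval P.val (w.take j))) ∉ C := by
        intro j hj
        have := hv (j + 1) (by simpa using hj)
        simpa [RCoset.mul_mul] using this
      obtain ⟨W, hW1, hW2⟩ := ih (v.mul (P.val x)⁻¹) hw
      have hu0 : Cell.vert (P := P) (v.mul (P.val x)⁻¹) ∉ C := by
        have := hw 0 (Nat.zero_le _)
        simpa using this
      have h1 : small P S (.tgt (v.mul (P.val x)⁻¹) x) ∉ C := by
        show Cell.vert ((v.mul (P.val x)⁻¹).mul (P.val x)) ∉ C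
        rw [RCoset.mul_inv_mul]
        exact hv0
      have h2 : small P S (.src (v.mul (P.val x)⁻¹) x) ∉ C := hu0
      refine ⟨(⟨.tgt (v.mul (P.val x)⁻¹) x, h1⟩, false)
        :: (⟨.src (v.mul (P.val x)⁻¹) x, h2⟩, true) :: W, ?_, ?_⟩
      · refine ⟨?_, rfl, ?_⟩
        · show Cell.vert v = Cell.vert ((v.mul (P.val x)⁻¹).mul (P.val x))
          rw [RCoset.mul_inv_mul]
        · have e1 : v.mul (wval P.val ((x, false) :: w))
              = (v.mul (P.val x)⁻¹).mul (wval P.val w) := by
            rw [wval_cons_false, RCoset.mul_mul]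
          rw [e1]
          exact hW1
      · refine (Cx.lab_cons (K := compl P S C) _ _ _).trans ?_
        refine (congrArg _ (Cx.lab_cons (K := compl P S C) _ _ _)).trans ?_
        rw [hW2, hol_cons_false]
        show (E (v.mul (P.val x)⁻¹) x)⁻¹ * (1 * _) = _
        rw [one_mul]
    · -- positive letter
      have hw : ∀ j ≤ w.length,
          Cell.vert (P := P) ((v.mul (P.val x)).mul (wval P.val (w.take j))) ∉ C := by
        intro j hj
        have := hv (j + 1) (by simpa using hj)
        simpa [RCoset.mul_mul] using this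
      obtain ⟨W, hW1, hW2⟩ := ih (v.mul (P.val x)) hw
      have hu0 : Cell.vert (P := P) (v.mul (P.val x)) ∉ C := by
        have := hw 0 (Nat.zero_le _)
        simpa using this
      have h1 : small P S (.tgt v x) ∉ C := hu0
      have h2 : small P S (.src v x) ∉ C := hv0
      refine ⟨(⟨.src v x, h2⟩, false) :: (⟨.tgt v x, h1⟩, true) :: W, ?_, ?_⟩
      · refine ⟨rfl, rfl, ?_⟩
        have e1 : v.mul (wval P.val ((x, true) :: w)) = (v.mul (P.val x)).mul (wval P.val w) := by
          rw [wval_cons_true, RCoset.mul_mul]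
        rw [e1]
        exact hW1
      · refine (Cx.lab_cons (K := compl P S C) _ _ _).trans ?_
        refine (congrArg _ (Cx.lab_cons (K := compl P S C) _ _ _)).trans ?_
        rw [hW2, hol_cons_true]
        show (1 : Γ)⁻¹ * (E v x * _) = _
        rw [inv_one, one_mul]

/-- A criterion for non-tameness: an edge labelling of `S \ H` (for any generating set) which is
flat up to finitely many places, with a ray of vertices along which the labels of closed edges do
not lie in a finitely generated subgroup. -/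
theorem not_tame_of_labelling {X0 : Type} (val0 : X0 → H)
    (hsurj : Function.Surjective (FreeGroup.lift val0)) (lam : RCoset S → X0 → Γ)
    (hfin : ∀ g, FreeGroup.lift val0 g = 1 → {v | holF val0 lam v g ≠ 1}.Finite)
    (x y : X0) (v : ℕ → RCoset S) (hinj : Function.Injective v)
    (hvx : ∀ n, (v n).mul (val0 x) = v (n + 1)) (hvy : ∀ n, (v n).mul (val0 y) = v n)
    (hx : ∀ n, lam (v n) x = 1) (M : ℕ → Subgroup Γ) (hmono : Monotone M)
    (hM : ∀ γ, ∃ K, γ ∈ M K) (hq : ∀ K n, K < n → lam (v n) y ∉ M K) : ¬ P.Tame S := by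
  classical
  intro htame
  -- transfer to the generators of `P`
  have hex : ∀ z : P.X, ∃ g : FreeGroup X0, FreeGroup.lift val0 g = P.val z := fun z => hsurj _
  choose u hu using hex
  let E : RCoset S → P.X → Γ := fun v z => holF val0 lam v (u z)
  have hEs : ∀ v g, holF P.val E v g = holF val0 lam v (FreeGroup.lift u g) :=
    fun v g => holF_subst val0 lam P.val u hu v g
  have hlift : ∀ g, FreeGroup.lift val0 (FreeGroup.lift u g) = FreeGroup.lift P.val g := by
    intro g
    have h1 : (FreeGroup.lift val0).comp (FreeGroup.lift u) = FreeGroup.lift P.val := by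
      apply FreeGroup.ext_hom
      intro z
      simp [hu]
    exact DFunLike.congr_fun h1 g
  let B : Set (RCoset S) := ⋃ r : P.R, {v | hol P.val E v r.1 ≠ 1}
  have hB : B.Finite := by
    have : Finite P.R := P.finR
    refine Set.finite_iUnion fun r => ?_
    have h1 := hfin (FreeGroup.lift u (FreeGroup.mk r.1)) (by rw [hlift]; exact P.lift_rel r.2)
    refine h1.subset fun v hv => ?_
    show holF val0 lam v (FreeGroup.lift u (FreeGroup.mk r.1)) ≠ 1
    rw [← hEs]
    exact hv
  let C : Set (Cell P S) := Cell.vert '' B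
  have hCfin : C.Finite := hB.image _
  have hCsub : IsSubcomplex P S C := by
    intro i hi
    cases i with
    | src v x =>
      obtain ⟨w, _, hw⟩ := hi
      have : Cell.vert w = Cell.edge (P := P) v x := hw
      cases this
    | tgt v x =>
      obtain ⟨w, _, hw⟩ := hi
      have : Cell.vert w = Cell.edge (P := P) v x := hw
      cases this
    | corner v r j =>
      obtain ⟨w, _, hw⟩ := hi
      have : Cell.vert w = Cell.face (P := P) v r := hw
      cases this
    | side v r j =>
      obtain ⟨w, _, hw⟩ := hi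
      have : Cell.vert w = Cell.face (P := P) v r := hw
      cases this
  have hCmem : ∀ w : RCoset S, Cell.vert (P := P) w ∈ C ↔ w ∈ B := by
    intro w
    constructor
    · rintro ⟨w', hw', h⟩
      have : w' = w := by injection h
      exact this ▸ hw'
    · intro hw
      exact ⟨w, hw, rfl⟩
  let Θ : (compl P S C).A → Γ := fun a => incLab P E a.1
  have hflat : ∀ c ∈ (compl P S C).rel, Cx.lab Θ c = 1 := by
    rintro w (⟨a, b, c, h, rfl⟩ | ⟨v, r, a, b, ha, hb, rfl⟩)
    · refine (Cx.lab_three (K := compl P S C) Θ a b c).trans ?_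
      exact mul_inv_eq_one.2 (incLab_tri P E h)
    · refine (Cx.lab_two (K := compl P S C) Θ a b).trans ?_
      apply mul_inv_eq_one.2
      show incLab P E a.1 = incLab P E b.1
      have ha2 := a.2
      rw [ha] at ha2 ⊢
      rw [hb]
      show hol P.val E v (r.1.take 0) = hol P.val E v (r.1.take r.1.length)
      rw [List.take_zero, List.take_length, hol_nil]
      have hvB : v ∉ B := by
        intro hcon
        apply ha2
        show Cell.vert (cornerVert P v r.1 0) ∈ C
        rw [cornerVert_zero]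
        exact (hCmem v).2 hcon
      by_contra hcon
      exact hvB (Set.mem_iUnion.2 ⟨r, fun h => hcon h.symm⟩)
  -- words for `x` and `y`
  obtain ⟨X', hX'⟩ := P.surj (val0 x)
  obtain ⟨Y', hY'⟩ := P.surj (val0 y)
  let kx : FreeGroup X0 := (FreeGroup.of x)⁻¹ * FreeGroup.lift u X'
  let ky : FreeGroup X0 := (FreeGroup.of y)⁻¹ * FreeGroup.lift u Y'
  have hkx : FreeGroup.lift val0 kx = 1 := by
    show FreeGroup.lift val0 ((FreeGroup.of x)⁻¹ * FreeGroup.lift u X') = 1
    rw [map_mul, hlift, hX', map_inv, FreeGroup.lift_apply_of, inv_mul_cancel]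
  have hky : FreeGroup.lift val0 ky = 1 := by
    show FreeGroup.lift val0 ((FreeGroup.of y)⁻¹ * FreeGroup.lift u Y') = 1
    rw [map_mul, hlift, hY', map_inv, FreeGroup.lift_apply_of, inv_mul_cancel]
  have hwx : wval P.val X'.toWord = val0 x := by
    unfold wval
    rw [FreeGroup.mk_toWord, hX']
  have hwy : wval P.val Y'.toWord = val0 y := by
    unfold wval
    rw [FreeGroup.mk_toWord, hY']
  -- finite sets are avoided
  have hav : ∀ (D : Set (RCoset S)), D.Finite → ∀ g : H,
      ∀ᶠ n in Filter.atTop, (v n).mul g ∉ D := by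
    intro D hD g
    have h1 : Function.Injective (fun n => (v n).mul g) := fun n m h =>
      hinj (RCoset.mul_injective g h)
    have h2 : {n | (v n).mul g ∈ D}.Finite := hD.preimage h1.injOn
    obtain ⟨N, hN⟩ := h2.bddAbove
    refine Filter.eventually_atTop.2 ⟨N + 1, fun n hn hmem => ?_⟩
    have := hN hmem
    omega
  have ev1 : ∀ᶠ n in Filter.atTop, hol P.val E (v n) X'.toWord = 1 := by
    filter_upwards [hav _ (hfin kx hkx) (val0 x)] with n hn
    have h1 : hol P.val E (v n) X'.toWord = holF P.val E (v n) X' := by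
      rw [← holF_mk, FreeGroup.mk_toWord]
    have h2 : FreeGroup.lift u X' = FreeGroup.of x * kx := by
      show _ = FreeGroup.of x * ((FreeGroup.of x)⁻¹ * FreeGroup.lift u X')
      group
    rw [h1, hEs, h2, holF_mul, holF_of, hx, one_mul, FreeGroup.lift_apply_of]
    by_contra hcon
    exact hn hcon
  have ev2 : ∀ᶠ n in Filter.atTop, hol P.val E (v n) Y'.toWord = lam (v n) y := by
    filter_upwards [hav _ (hfin ky hky) (val0 y)] with n hn
    have h1 : hol P.val E (v n) Y'.toWord = holF P.val E (v n) Y' := by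
      rw [← holF_mk, FreeGroup.mk_toWord]
    have h2 : FreeGroup.lift u Y' = FreeGroup.of y * ky := by
      show _ = FreeGroup.of y * ((FreeGroup.of y)⁻¹ * FreeGroup.lift u Y')
      group
    rw [h1, hEs, h2, holF_mul, holF_of, FreeGroup.lift_apply_of]
    have h3 : holF val0 lam ((v n).mul (val0 y)) ky = 1 := by
      by_contra hcon
      exact hn hcon
    rw [h3, mul_one]
  have ev3 : ∀ᶠ n in Filter.atTop, ∀ j : Fin (X'.toWord.length + 1),
      (v n).mul (wval P.val (X'.toWord.take j)) ∉ B :=
    Filter.eventually_all.2 fun j => hav B hB _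
  have ev4 : ∀ᶠ n in Filter.atTop, ∀ j : Fin (Y'.toWord.length + 1),
      (v n).mul (wval P.val (Y'.toWord.take j)) ∉ B :=
    Filter.eventually_all.2 fun j => hav B hB _
  obtain ⟨n1, hn1⟩ := Filter.eventually_atTop.1 (ev1.and (ev2.and (ev3.and ev4)))
  have hwalkx : ∀ n ≥ n1, ∃ W, (compl P S C).IsWalk (Cell.vert (v n)) W (Cell.vert (v (n + 1))) ∧
      Cx.lab Θ W = 1 := by
    intro n hn
    obtain ⟨h1, h2, h3, h4⟩ := hn1 n hn
    obtain ⟨W, hW1, hW2⟩ := exists_walk P E C X'.toWord (v n) (fun j hj hcon =>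
      h3 ⟨j, by omega⟩ ((hCmem _).1 hcon))
    rw [hwx, hvx] at hW1
    exact ⟨W, hW1, hW2.trans h1⟩
  have hwalky : ∀ n ≥ n1, ∃ W, (compl P S C).IsWalk (Cell.vert (v n)) W (Cell.vert (v n)) ∧
      Cx.lab Θ W = lam (v n) y := by
    intro n hn
    obtain ⟨h1, h2, h3, h4⟩ := hn1 n hn
    obtain ⟨W, hW1, hW2⟩ := exists_walk P E C Y'.toWord (v n) (fun j hj hcon =>
      h4 ⟨j, by omega⟩ ((hCmem _).1 hcon))
    rw [hwy, hvy] at hW1
    exact ⟨W, hW1, hW2.trans h2⟩
  have hwalk : ∀ k : ℕ, ∃ W,
      (compl P S C).IsWalk (Cell.vert (v n1)) W (Cell.vert (v (n1 + k))) ∧ Cx.lab Θ W = 1 := by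
    intro k
    induction k with
    | zero => exact ⟨[], rfl, rfl⟩
    | succ k ih =>
      obtain ⟨W, hW1, hW2⟩ := ih
      obtain ⟨W', hW1', hW2'⟩ := hwalkx (n1 + k) (by omega)
      refine ⟨W ++ W', Cx.isWalk_append.2 ⟨_, hW1, hW1'⟩, ?_⟩
      rw [Cx.lab_append, hW2, hW2', mul_one]
  -- the base point
  have hp : Cell.vert (v n1) ∉ C := by
    intro hcon
    have h3 := (hn1 n1 le_rfl).2.2.1 ⟨0, by omega⟩
    apply h3
    have := (hCmem _).1 hcon
    simpa using this
  have hFG : Group.FG ((compl P S C).Pi1 (Cell.vert (v n1))) :=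
    htame C hCfin hCsub (Cell.vert (v n1)) hp
  let φ := Cx.piHom (K := compl P S C) Θ hflat (Cell.vert (v n1))
  obtain ⟨⟨F, hF⟩⟩ := hFG
  have hK : ∃ K, ∀ f ∈ F, φ f ∈ M K := by
    choose k hk using hM
    refine ⟨F.sup (fun f => k (φ f)), fun f hf => ?_⟩
    exact hmono (Finset.le_sup (f := fun f => k (φ f)) hf) (hk (φ f))
  obtain ⟨K, hK⟩ := hK
  have hall : ∀ g, φ g ∈ M K := by
    intro g
    have h1 : Subgroup.closure (F : Set _) ≤ (M K).comap φ := by
      rw [Subgroup.closure_le]
      intro f hf
      exact hK f hf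
    rw [hF] at h1
    exact h1 (Subgroup.mem_top g)
  obtain ⟨W, hW1, hW2⟩ := hwalk (K + 1)
  obtain ⟨W', hW1', hW2'⟩ := hwalky (n1 + (K + 1)) (by omega)
  have hloop : (compl P S C).IsWalk (Cell.vert (v n1)) (W ++ W' ++ Cx.inv W)
      (Cell.vert (v n1)) :=
    Cx.isWalk_append.2 ⟨_, Cx.isWalk_append.2 ⟨_, hW1, hW1'⟩, Cx.isWalk_inv hW1⟩
  have h1 : φ (Cx.pc _ hloop) = lam (v (n1 + (K + 1))) y := by
    show Cx.lab Θ (W ++ W' ++ Cx.inv W) = _
    rw [Cx.lab_append, Cx.lab_append, Cx.lab_inv, hW2, hW2']
    simp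
  exact hq K (n1 + (K + 1)) (by omega) (h1 ▸ hall _)

end NonTame

end Tame222b14
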