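import Pool.Agent.Lib.MP_222b14_al.HFlat
import Pool.Agent.Lib.MP_222b14_al.NonTame
import Pool.Agent.Lib.MP_222b14_al.MZ
import Pool.Agent.Lib.MP_222b14_al.GaugeT

/-!
# `L` is not tame in `H`
-/

namespace Tame222b14

theorem L_not_tame (P : FinPres Hg) : ¬ P.Tame Ls := by
  obtain ⟨Γ, _, l, m, f, h, q, M, hf, hh, hmono, hM, hq⟩ := exists_label_group
  obtain ⟨ht, hst, hht⟩ := exists_height
  have hbadr : ∀ r : Rl, {v | holF gn (lamE l m f h q ht) v (rel r) ≠ 1}.Finite := by
    intro r
    have hfin : ∀ g : Hg, {v : RCoset Ls | v.mul g = st}.Finite := by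
      intro g
      apply Set.Subsingleton.finite
      intro v hv w hw
      exact RCoset.mul_injective g ((hv : v.mul g = st).trans (hw : w.mul g = st).symm)
    refine (((hfin 1).union (hfin (gn .a))).union ((hfin (gn .h)).union
      (hfin (gn .h * gn .a)))).subset ?_
    intro v hv
    by_contra hcon
    simp only [Set.mem_union, Set.mem_ofPred_eq, not_or, RCoset.mul_one] at hcon
    obtain ⟨⟨h1, h2⟩, h3, h4⟩ := hcon
    apply hv
    exact lam_flat l m f h q ht hf hh hht r v h1 h2 h3 (by rwa [RCoset.mul_mul])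
  have hfin : ∀ g, FreeGroup.lift gn g = 1 →
      {v | holF gn (lamE l m f h q ht) v g ≠ 1}.Finite := by
    intro g hg
    have hg' : g ∈ Subgroup.normalClosure (Set.range rel) := by
      rw [← ker_lift]
      exact hg
    refine (bad_finite gn (lamE l m f h q ht) ?_ hg').2
    rintro _ ⟨r, rfl⟩
    exact ⟨lift_rel r, hbadr r⟩
  have hhtn : ∀ n : ℕ, ht (st.mul (gn .x ^ n)) = n := by
    intro n
    induction n with
    | zero => simpa using hst
    | succ n ih =>
      rw [pow_succ, ← RCoset.mul_mul, hht, ih]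
      simp [dh]
  apply not_tame_of_labelling P gn gn_surj (lamE l m f h q ht) hfin .x .y
    (fun n => st.mul (gn .x ^ n)) ?_ ?_ ?_ ?_ M hmono hM ?_
  · intro a b hab
    have h1 := congrArg ht hab
    simp only [hhtn] at h1
    exact_mod_cast h1
  · intro n
    show (st.mul (gn .x ^ n)).mul (gn .x) = st.mul (gn .x ^ (n + 1))
    rw [RCoset.mul_mul, pow_succ]
  · intro n
    apply fix_of_conj
    have := pn_mem n
    simpa [pn] using this
  · intro n
    rfl
  · intro K n hKn
    show q (ht (st.mul (gn .x ^ n))) ∉ M K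
    rw [hhtn]
    exact hq K n hKn

end Tame222b14
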