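import Pool.Agent.Lib.MP_222b14_al.Comb
import Pool.Agent.Lib.MP_222b14_al.Pi1
import Pool.Agent.Lib.MP_222b14_al.GaugeT

/-!
# A criterion for tameness, and the tame part of the theorem
-/

namespace Tame222b14

section TameCrit

variable {G : Type} [Group G] (P : FinPres G) (S : Subgroup G)

/-- If every almost flat edge labelling of `S \ G` can be gauged into a finitely generated
subgroup, then `S` is tame in `G`. -/
theorem tame_of_gauge
    (h : ∀ (Γ : Type) [Group Γ] (E : RCoset S → P.X → Γ),
      (∀ r ∈ P.R, {v | hol P.val E v r ≠ 1}.Finite) →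
      ∃ A : RCoset S → Γ, ∃ F : Set Γ, F.Finite ∧
        ∀ v x, A v * E v x * (A (v.mul (P.val x)))⁻¹ ∈ Subgroup.closure F) : P.Tame S := by
  classical
  intro C hC hsub p hp
  apply Cx.fg_of_gauge (compl_rel_walk C)
  intro Γ _ lam hflat
  -- extended labels
  let lam' : Inc P S → Γ := fun i => if hi : small P S i ∉ C then lam ⟨i, hi⟩ else 1
  have hlam' : ∀ (i : Inc P S) (hi : small P S i ∉ C), lam' i = lam ⟨i, hi⟩ := by
    intro i hi
    simp only [lam', hi, not_false_eq_true, dif_pos]
  have htri : ∀ a b c : Inc P S, Tri P S a b c → small P S b ∉ C → lam' a * lam' b = lam' c := by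
    intro a b c hT hb
    obtain ⟨h1, h2, h3⟩ := tri_facts hT
    have hc : small P S c ∉ C := h3 ▸ hb
    have ha : small P S a ∉ C := by
      intro hcon
      exact hb (hsub b (h2 ▸ hcon))
    have h4 := hflat [(⟨a, ha⟩, true), (⟨b, hb⟩, true), (⟨c, hc⟩, false)]
      (Or.inl ⟨⟨a, ha⟩, ⟨b, hb⟩, ⟨c, hc⟩, hT, rfl⟩)
    rw [hlam' a ha, hlam' b hb, hlam' c hc]
    exact mul_inv_eq_one.1
      ((Cx.lab_three (K := compl P S C) lam ⟨a, ha⟩ ⟨b, hb⟩ ⟨c, hc⟩).symm.trans h4)
  have hends : ∀ (v : RCoset S) (r : P.R), Cell.vert v ∉ C →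
      lam' (.corner v r 0) = lam' (.corner v r (Fin.last _)) := by
    intro v r hv
    have e0 : small P S (.corner v r 0) = Cell.vert v := by
      show Cell.vert (cornerVert P v r.1 0) = _
      rw [cornerVert_zero]
    have e1 : small P S (.corner v r (Fin.last _)) = Cell.vert v := by
      show Cell.vert (cornerVert P v r.1 r.1.length) = _
      unfold cornerVert
      rw [List.take_length, P.wv_rel r.2]
      simp
    have h0 : small P S (.corner v r 0) ∉ C := e0 ▸ hv
    have h1 : small P S (.corner v r (Fin.last _)) ∉ C := e1 ▸ hv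
    have h4 := hflat [(⟨_, h0⟩, true), (⟨_, h1⟩, false)]
      (Or.inr ⟨v, r, ⟨_, h0⟩, ⟨_, h1⟩, rfl, rfl, rfl⟩)
    rw [hlam' _ h0, hlam' _ h1]
    exact mul_inv_eq_one.1
      ((Cx.lab_two (K := compl P S C) lam ⟨_, h0⟩ ⟨_, h1⟩).symm.trans h4)
  -- the edge labelling
  let E : RCoset S → P.X → Γ := fun v x =>
    if Cell.vert v ∉ C ∧ Cell.vert (v.mul (P.val x)) ∉ C then
      (lam' (.src v x))⁻¹ * lam' (.tgt v x) else 1
  have hE : ∀ (v : RCoset S) (x : P.X), Cell.vert v ∉ C → Cell.vert (v.mul (P.val x)) ∉ C →
      E v x = (lam' (.src v x))⁻¹ * lam' (.tgt v x) := by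
    intro v x h1 h2
    simp only [E, h1, h2, not_false_eq_true, and_self, if_true]
  -- holonomy along the boundary of a good face
  have hcorner : ∀ (v : RCoset S) (r : P.R),
      (∀ j : ℕ, j ≤ r.1.length → Cell.vert (cornerVert P v r.1 j) ∉ C) →
      ∀ (j : ℕ) (hj : j < r.1.length + 1),
      hol P.val E v (r.1.take j) = (lam' (.corner v r 0))⁻¹ * lam' (.corner v r ⟨j, hj⟩) := by
    intro v r hgood j
    induction j with
    | zero =>
      intro hj
      rw [List.take_zero, hol_nil]
      have e1 : (⟨0, hj⟩ : Fin (r.1.length + 1)) = 0 := rfl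
      rw [e1, inv_mul_cancel]
    | succ j ih =>
      intro hj
      have hjl : j < r.1.length := by omega
      have ih' := ih (by omega)
      have hg1 := hgood j (by omega)
      have hg2 := hgood (j + 1) (by omega)
      let i : Fin r.1.length := ⟨j, hjl⟩
      have et : r.1.take (j + 1) = r.1.take j ++ [r.1.get i] := take_succ_get r.1 i
      rw [et, hol_append, ih']
      have ecv : (v.mul (wval P.val (r.1.take j))) = cornerVert P v r.1 j := rfl
      rw [ecv]
      rcases hb : (r.1.get i).2 with _ | _
      · -- negative letter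
        have eget : r.1.get i = ((r.1.get i).1, false) := by rw [← hb]
        have esv : startVert P (cornerVert P v r.1 j) (r.1.get i)
            = (cornerVert P v r.1 j).mul (P.val (r.1.get i).1)⁻¹ := startVert_neg P _ hb
        have es : cornerVert P v r.1 (j + 1)
            = (cornerVert P v r.1 j).mul (P.val (r.1.get i).1)⁻¹ := cornerVert_succ_neg P v r.1 i hb
        have t1 := htri _ _ _ (Tri.neg_src v r i hb) (by
          show Cell.vert (startVert P (cornerVert P v r.1 j) (r.1.get i)) ∉ C
          rw [esv, ← es]; exact hg2)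
        have t2 := htri _ _ _ (Tri.neg_tgt v r i hb) (by
          show Cell.vert ((startVert P (cornerVert P v r.1 j) (r.1.get i)).mul _) ∉ C
          rw [esv, RCoset.mul_inv_mul]; exact hg1)
        have hEv : E ((cornerVert P v r.1 j).mul (P.val (r.1.get i).1)⁻¹) (r.1.get i).1
            = (lam' (.src (startVert P (cornerVert P v r.1 j) (r.1.get i)) (r.1.get i).1))⁻¹
              * lam' (.tgt (startVert P (cornerVert P v r.1 j) (r.1.get i)) (r.1.get i).1) := by
          rw [hE _ _ (by rw [← es]; exact hg2) (by rw [RCoset.mul_inv_mul]; exact hg1), esv]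
        rw [eget, hol_cons_false, hol_nil, mul_one]
        rw [show (((r.1.get i).1, false) : P.X × Bool).1 = (r.1.get i).1 from rfl] at *
        rw [hEv]
        have t1' : lam' (.corner v r ⟨j + 1, hj⟩) = lam' (.side v r i)
            * lam' (.src (startVert P (cornerVert P v r.1 j) (r.1.get i)) (r.1.get i).1) :=
          t1.symm
        have t2' : lam' (.corner v r ⟨j, by omega⟩) = lam' (.side v r i)
            * lam' (.tgt (startVert P (cornerVert P v r.1 j) (r.1.get i)) (r.1.get i).1) :=
          t2.symm
        rw [t1', t2']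
        group
      · -- positive letter
        have eget : r.1.get i = ((r.1.get i).1, true) := by rw [← hb]
        have esv : startVert P (cornerVert P v r.1 j) (r.1.get i) = cornerVert P v r.1 j :=
          startVert_pos P _ hb
        have es : cornerVert P v r.1 (j + 1)
            = (cornerVert P v r.1 j).mul (P.val (r.1.get i).1) := cornerVert_succ_pos P v r.1 i hb
        have t1 := htri _ _ _ (Tri.pos_src v r i hb) (by
          show Cell.vert (startVert P (cornerVert P v r.1 j) (r.1.get i)) ∉ C
          rw [esv]; exact hg1)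
        have t2 := htri _ _ _ (Tri.pos_tgt v r i hb) (by
          show Cell.vert ((startVert P (cornerVert P v r.1 j) (r.1.get i)).mul _) ∉ C
          rw [esv, ← es]; exact hg2)
        have hEv : E (cornerVert P v r.1 j) (r.1.get i).1
            = (lam' (.src (startVert P (cornerVert P v r.1 j) (r.1.get i)) (r.1.get i).1))⁻¹
              * lam' (.tgt (startVert P (cornerVert P v r.1 j) (r.1.get i)) (r.1.get i).1) := by
          rw [hE _ _ hg1 (by rw [← es]; exact hg2), esv]
        rw [eget, hol_cons_true, hol_nil, mul_one]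
        rw [hEv]
        have t1' : lam' (.corner v r ⟨j, by omega⟩) = lam' (.side v r i)
            * lam' (.src (startVert P (cornerVert P v r.1 j) (r.1.get i)) (r.1.get i).1) :=
          t1.symm
        have t2' : lam' (.corner v r ⟨j + 1, hj⟩) = lam' (.side v r i)
            * lam' (.tgt (startVert P (cornerVert P v r.1 j) (r.1.get i)) (r.1.get i).1) :=
          t2.symm
        rw [t1', t2']
        group
  -- the bad base vertices
  have hpre : ∀ g : G, {v : RCoset S | Cell.vert (P := P) (v.mul g) ∈ C}.Finite := by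
    intro g
    refine hC.preimage (f := fun v : RCoset S => Cell.vert (P := P) (v.mul g)) ?_
    intro v _ w _ hvw
    have : v.mul g = w.mul g := by injection hvw
    exact RCoset.mul_injective g this
  let B : Set (RCoset S) := {v | Cell.vert (P := P) v ∈ C} ∪
    ⋃ r : P.R, ⋃ j : Fin (r.1.length + 1), {v | Cell.vert (cornerVert P v r.1 j) ∈ C}
  have hB : B.Finite := by
    have : Finite P.R := P.finR
    refine Set.Finite.union ?_ ?_
    · have := hpre 1
      simpa using this
    · exact Set.finite_iUnion fun r => Set.finite_iUnion fun j => hpre _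
  have hBgood : ∀ v, v ∉ B → Cell.vert v ∉ C ∧ ∀ (r : P.R) (j : ℕ), j ≤ r.1.length →
      Cell.vert (cornerVert P v r.1 j) ∉ C := by
    intro v hv
    refine ⟨fun hcon => hv (Or.inl hcon), fun r j hj hcon => hv (Or.inr ?_)⟩
    exact Set.mem_iUnion.2 ⟨r, Set.mem_iUnion.2 ⟨⟨j, by omega⟩, hcon⟩⟩
  have hbad : ∀ r ∈ P.R, {v | hol P.val E v r ≠ 1}.Finite := by
    intro r hr
    refine hB.subset fun v hv => ?_
    by_contra hcon
    obtain ⟨h1, h2⟩ := hBgood v hcon
    apply hv
    have h3 := hcorner v ⟨r, hr⟩ (h2 ⟨r, hr⟩) r.length (by simp)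
    rw [List.take_length] at h3
    rw [h3]
    have h4 := hends v ⟨r, hr⟩ h1
    rw [h4]
    exact inv_mul_cancel _
  obtain ⟨A, F, hF, hA⟩ := h Γ E hbad
  -- the gauge
  let T : Cell P S → Γ := fun c => match c with
    | .vert v => A v
    | .edge v x => if Cell.vert v ∉ C then A v * (lam' (.src v x))⁻¹ else 1
    | .face v r => if Cell.vert v ∉ C then A v * (lam' (.corner v r 0))⁻¹ else 1
  let val' : Inc P S → Γ := fun i => T (big P S i) * lam' i * (T (small P S i))⁻¹
  refine ⟨T, F ∪ val' '' {i | base i ∈ B}, hF.union ((finite_base hB).image _), ?_⟩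
  rintro ⟨i, hi⟩
  have hval : T ((compl P S C).s ⟨i, hi⟩) * lam ⟨i, hi⟩ * (T ((compl P S C).t ⟨i, hi⟩))⁻¹
      = val' i := by
    show T (big P S i) * lam ⟨i, hi⟩ * (T (small P S i))⁻¹ = _
    rw [← hlam' i hi]
  rw [hval]
  by_cases hbi : base i ∈ B
  · exact Subgroup.subset_closure (Or.inr ⟨i, hbi, rfl⟩)
  apply Subgroup.closure_mono Set.subset_union_left
  have hG : ∀ (v : RCoset S) (w : List (P.X × Bool)),
      A v * hol P.val E v w * (A (v.mul (wval P.val w)))⁻¹ ∈ Subgroup.closure F := by
    intro v w
    rw [← hol_gauge]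
    exact hol_mem P.val _ (Subgroup.closure F) hA v w
  cases i with
  | src v x =>
    have hv : Cell.vert v ∉ C := hi
    have e1 : val' (.src v x) = 1 := by
      show T (.edge v x) * lam' (.src v x) * (T (.vert v))⁻¹ = 1
      simp only [T, hv, not_false_eq_true, if_true]
      group
    rw [e1]
    exact Subgroup.one_mem _
  | tgt v x =>
    have hv := (hBgood v hbi).1
    have hvx : Cell.vert (v.mul (P.val x)) ∉ C := hi
    have e1 : val' (.tgt v x) = A v * E v x * (A (v.mul (P.val x)))⁻¹ := by
      show T (.edge v x) * lam' (.tgt v x) * (T (.vert (v.mul (P.val x))))⁻¹ = _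
      rw [hE v x hv hvx]
      simp only [T, hv, not_false_eq_true, if_true]
      group
    rw [e1]
    exact hA v x
  | corner v r j =>
    obtain ⟨hv, hg⟩ := hBgood v hbi
    have h1 := hcorner v r (hg r) j.1 j.2
    have e1 : val' (.corner v r j)
        = A v * hol P.val E v (r.1.take j.1) * (A (v.mul (wval P.val (r.1.take j.1))))⁻¹ := by
      show T (.face v r) * lam' (.corner v r j) * (T (.vert (cornerVert P v r.1 j)))⁻¹ = _
      rw [h1]
      simp only [T, hv, not_false_eq_true, if_true]
      show A v * (lam' (.corner v r 0))⁻¹ * lam' (.corner v r j)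
        * (A (v.mul (wval P.val (r.1.take j.1))))⁻¹ = _
      group
    rw [e1]
    exact hG v _
  | side v r j =>
    obtain ⟨hv, hg⟩ := hBgood v hbi
    rcases hb : (r.1.get j).2 with _ | _
    · -- negative letter
      have esv : startVert P (cornerVert P v r.1 j) (r.1.get j)
          = cornerVert P v r.1 (j.1 + 1) := by
        rw [startVert_neg P _ hb, cornerVert_succ_neg P v r.1 j hb]
      have hu : Cell.vert (startVert P (cornerVert P v r.1 j) (r.1.get j)) ∉ C := by
        rw [esv]
        exact hg r (j.1 + 1) (by omega)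
      have t1 := htri _ _ _ (Tri.neg_src v r j hb) hu
      have h1 := hcorner v r (hg r) (j.1 + 1) (by omega)
      have e1 : val' (.side v r j) = A v * hol P.val E v (r.1.take (j.1 + 1))
          * (A (v.mul (wval P.val (r.1.take (j.1 + 1)))))⁻¹ := by
        show T (.face v r) * lam' (.side v r j)
          * (T (.edge (startVert P (cornerVert P v r.1 j) (r.1.get j)) (r.1.get j).1))⁻¹ = _
        rw [h1]
        have t1' : lam' (.corner v r ⟨j.1 + 1, by omega⟩) = lam' (.side v r j)
            * lam' (.src (startVert P (cornerVert P v r.1 j) (r.1.get j)) (r.1.get j).1) :=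
          t1.symm
        rw [t1']
        simp only [T, hv, hu, not_false_eq_true, if_true]
        have e2 : v.mul (wval P.val (r.1.take (j.1 + 1)))
            = startVert P (cornerVert P v r.1 j) (r.1.get j) := esv.symm
        rw [e2]
        group
      rw [e1]
      exact hG v _
    · -- positive letter
      have esv : startVert P (cornerVert P v r.1 j) (r.1.get j) = cornerVert P v r.1 j.1 :=
        startVert_pos P _ hb
      have hu : Cell.vert (startVert P (cornerVert P v r.1 j) (r.1.get j)) ∉ C := by
        rw [esv]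
        exact hg r j.1 (by omega)
      have t1 := htri _ _ _ (Tri.pos_src v r j hb) hu
      have h1 := hcorner v r (hg r) j.1 (by omega)
      have e1 : val' (.side v r j) = A v * hol P.val E v (r.1.take j.1)
          * (A (v.mul (wval P.val (r.1.take j.1))))⁻¹ := by
        show T (.face v r) * lam' (.side v r j)
          * (T (.edge (startVert P (cornerVert P v r.1 j) (r.1.get j)) (r.1.get j).1))⁻¹ = _
        rw [h1]
        have t1' : lam' (.corner v r ⟨j.1, by omega⟩) = lam' (.side v r j)
            * lam' (.src (startVert P (cornerVert P v r.1 j) (r.1.get j)) (r.1.get j).1) :=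
          t1.symm
        rw [t1']
        simp only [T, hv, hu, not_false_eq_true, if_true]
        have e2 : v.mul (wval P.val (r.1.take j.1))
            = startVert P (cornerVert P v r.1 j) (r.1.get j) := esv.symm
        rw [e2]
        group
      rw [e1]
      exact hG v _

/-- The tame part: if `t` is a central element of `G`, `z : G → ℤ` is a homomorphism with `z t = 1`
and `S ≤ ker z` is finitely generated, then `S` is tame in `G`. -/
theorem tame_of_central (hS : S.FG) (z : G →* Multiplicative ℤ) (t : G)
    (ht : ∀ g, g * t = t * g) (hzt : z t = Multiplicative.ofAdd 1) (hSz : S ≤ z.ker) :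
    P.Tame S := by
  apply tame_of_gauge
  intro Γ _ E hE
  have := P.finX
  apply gauge_of_central hS z t ht hzt hSz P.val P.surj E
  intro g hg
  have hg' : g ∈ Subgroup.normalClosure (FreeGroup.mk '' P.R) := by
    rw [← P.ker]
    exact hg
  refine (bad_finite P.val E ?_ hg').2
  rintro _ ⟨r, hr, rfl⟩
  exact ⟨P.lift_rel hr, hE r hr⟩

end TameCrit

end Tame222b14
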